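import Mathlib
import Pool.Agent.N759.UC.FewQ

/-! # Automorphs of products of linear forms bounded below -/

open Polynomial Matrix H715R2 Pool.Agent.N759.WP Pool.Agent.N759.UC

namespace Pool.Agent.N759.FV

variable {d : ℕ}

/-- every irreducible factor of the characteristic polynomial annihilates an integral vector -/
theorem factor_vec (U : Matrix (Fin d) (Fin d) ℤ) {f : ℚ[X]} (hirr : Irreducible f)
    (hdvd : f ∣ (mQ U).charpoly) :
    ∃ x : Fin d → ℤ, x ≠ 0 ∧ aeval (mQ U) f *ᵥ (fun i => (x i : ℚ)) = 0 := by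
  classical
  -- a complex root
  obtain ⟨z, hz⟩ := IsAlgClosed.exists_root (f.map (algebraMap ℚ ℂ)) (by
    rw [degree_map]
    exact (degree_pos_of_irreducible hirr).ne')
  have hz2 : ((mC U).charpoly).eval z = 0 := by
    rw [charpoly_mC]
    obtain ⟨q, hq⟩ := hdvd
    rw [hq, Polynomial.map_mul, eval_mul, show (f.map (algebraMap ℚ ℂ)).eval z = 0 from hz, zero_mul]
  rw [eval_charpoly] at hz2
  obtain ⟨v, hv, hv0⟩ := exists_mulVec_eq_zero_iff.2 hz2
  have hev : mC U *ᵥ v = z • v := by
    rw [sub_mulVec, sub_eq_zero] at hv0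
    rw [← hv0]
    funext i
    simp
  have hpow : ∀ n : ℕ, (mC U) ^ n *ᵥ v = z ^ n • v := by
    intro n
    induction n with
    | zero => rw [pow_zero, pow_zero, one_mulVec, one_smul]
    | succ n ih => rw [pow_succ', ← mulVec_mulVec, ih, mulVec_smul, hev, smul_smul, pow_succ]
  have hae : ∀ p : ℂ[X], aeval (mC U) p *ᵥ v = p.eval z • v := by
    intro p
    induction p using Polynomial.induction_on' with
    | add p q hp hq => rw [map_add, add_mulVec, hp, hq, eval_add, add_smul]
    | monomial n a =>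
      rw [aeval_monomial, eval_monomial, ← mulVec_mulVec, hpow, Algebra.algebraMap_eq_smul_one,
        smul_mulVec, one_mulVec, smul_smul]
  have hdet : (aeval (mQ U) f).det = 0 := by
    have h1 : ((algebraMap ℚ ℂ).mapMatrix (aeval (mQ U) f)).det = 0 := by
      rw [← exists_mulVec_eq_zero_iff]
      refine ⟨v, hv, ?_⟩
      rw [← aeval_mC, hae, show (f.map (algebraMap ℚ ℂ)).eval z = 0 from hz, zero_smul]
    rw [← RingHom.map_det] at h1
    exact (map_eq_zero (algebraMap ℚ ℂ)).1 h1
  obtain ⟨w, hw, hw0⟩ := exists_mulVec_eq_zero_iff.2 hdet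
  -- clear denominators
  set N : ℤ := ∏ i, ((w i).den : ℤ) with hN
  have hN0 : N ≠ 0 := Finset.prod_ne_zero_iff.2 fun i _ => by
    exact_mod_cast (w i).den_nz
  have hint : ∀ i, ∃ y : ℤ, (y : ℚ) = N * w i := by
    intro i
    refine ⟨(∏ j ∈ Finset.univ.erase i, ((w j).den : ℤ)) * (w i).num, ?_⟩
    rw [hN, ← Finset.mul_prod_erase Finset.univ _ (Finset.mem_univ i)]
    have h1 : ((w i).den : ℚ) * w i = (w i).num := Rat.den_mul_eq_num (w i)
    push_cast
    linear_combination (-(∏ j ∈ Finset.univ.erase i, ((w j).den : ℚ))) * h1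
  choose y hy using hint
  refine ⟨y, ?_, ?_⟩
  · intro h0
    apply hw
    funext i
    have h1 := hy i
    rw [h0] at h1
    simp only [Pi.zero_apply, Int.cast_zero] at h1
    have h2 : (N : ℚ) ≠ 0 := by exact_mod_cast hN0
    rcases mul_eq_zero.1 h1.symm with h3 | h3
    · exact absurd h3 h2
    · exact h3
  · have h1 : (fun i => (y i : ℚ)) = (N : ℚ) • w := by
      funext i
      rw [hy i]; rfl
    rw [h1, mulVec_smul, hw0, smul_zero]

/-- a monic polynomial with only one monic irreducible factor -/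
lemma natDegree_dvd {f : ℚ[X]} : ∀ (n : ℕ) (P : ℚ[X]), P.natDegree = n → P.Monic →
    (∀ g : ℚ[X], g.Monic → Irreducible g → g ∣ P → g = f) → f.natDegree ∣ P.natDegree := by
  intro n
  induction n using Nat.strong_induction_on with
  | _ n ih =>
    intro P hn hP hall
    rcases Nat.eq_zero_or_pos n with h0 | hpos
    · rw [hn, h0]
      exact dvd_zero _
    · obtain ⟨g, hg, hgi, hgd⟩ := exists_monic_irreducible_factor P
        (not_isUnit_of_natDegree_pos _ (by rw [hn]; exact hpos))
      have hgf := hall g hg hgi hgd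
      obtain ⟨Q, hQ⟩ := hgd
      have hQm : Q.Monic := hg.of_mul_monic_left (hQ ▸ hP)
      have hdeg : P.natDegree = g.natDegree + Q.natDegree := by
        rw [hQ, hg.natDegree_mul hQm]
      have hgpos : 0 < g.natDegree := Irreducible.natDegree_pos hgi
      have h1 := ih Q.natDegree (by omega) Q rfl hQm fun g' h1 h2 h3 => hall g' h1 h2 (by
        rw [hQ]; exact h3.mul_left g)
      rw [hdeg, hgf]
      exact dvd_add (dvd_refl _) h1

/-- the structure of the automorphs -/
theorem automorph_structure (hd : 0 < d) {g : Matrix (Fin d) (Fin d) ℝ} (hg : g.det ≠ 0) {ν : ℝ}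
    (hν : 0 < ν) (hnu : HasNu g ν) {δ : Matrix (Fin d) (Fin d) ℤ} {c : Fin d → ℝ}
    (h : g * zR δ = diagonal c * g) :
    ∃ D : ℕ, D ∣ d ∧ (Finset.univ.image c).card ≤ D ∧
      (D = d → Irreducible (δ.charpoly.map (Int.castRingHom ℚ)) ∧ Function.Injective c) := by
  classical
  have hcd : (mQ δ).charpoly.natDegree = d := by
    rw [charpoly_natDegree_eq_dim, Fintype.card_fin]
  have hcm : (mQ δ).charpoly.Monic := charpoly_monic _
  have hroot : ∀ f : ℚ[X], Irreducible f → f ∣ (mQ δ).charpoly → ∀ i,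
      (f.map (algebraMap ℚ ℂ)).eval ((c i : ℝ) : ℂ) = 0 := by
    intro f hirr hdvd i
    obtain ⟨x, hx, hfx⟩ := factor_vec δ hirr hdvd
    set r : Fin d → ℂ := fun k => ((g i k : ℝ) : ℂ) with hr
    have h1 : r ᵥ* mC δ = ((c i : ℝ) : ℂ) • r := by
      funext k
      have h2 := congrFun (congrFun h i) k
      rw [Matrix.mul_apply, diagonal_mul] at h2
      simp only [vecMul, dotProduct, Pi.smul_apply, smul_eq_mul, hr]
      rw [← Complex.ofReal_mul, ← h2]
      push_cast
      refine Finset.sum_congr rfl fun l _ => ?_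
      simp [mC, zR]
    have h3 := vecMul_aeval (mC δ) r _ h1 (f.map (algebraMap ℚ ℂ))
    have h4 : aeval (mC δ) (f.map (algebraMap ℚ ℂ)) *ᵥ (fun k => (x k : ℂ)) = 0 := by
      rw [aeval_mC]
      have h5 := cast_mulVec (aeval (mQ δ) f) (fun k => (x k : ℚ))
      rw [hfx] at h5
      have h6 : (fun i => (((fun k => (x k : ℚ)) i : ℚ) : ℂ)) = fun k => ((x k : ℤ) : ℂ) := by
        funext k
        push_cast
        rfl
      rw [h6] at h5
      rw [h5]
      funext k
      simp
    have h5 : r ⬝ᵥ (aeval (mC δ) (f.map (algebraMap ℚ ℂ)) *ᵥ (fun k => (x k : ℂ))) =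
        (f.map (algebraMap ℚ ℂ)).eval ((c i : ℝ) : ℂ) * (r ⬝ᵥ fun k => (x k : ℂ)) := by
      rw [dotProduct_mulVec, h3, smul_dotProduct, smul_eq_mul]
    rw [h4, dotProduct_zero] at h5
    rcases mul_eq_zero.1 h5.symm with h6 | h6
    · exact h6
    · exfalso
      have h7 : ∑ k, g i k * (x k : ℝ) = 0 := by
        have h8 : ((∑ k, g i k * (x k : ℝ) : ℝ) : ℂ) = 0 := by
          rw [← h6]
          push_cast
          rfl
        exact_mod_cast h8
      have h8 := hnu x hx
      have h9 : FF g (iR x) = 0 := Finset.prod_eq_zero (Finset.mem_univ i) h7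
      rw [h9, abs_zero] at h8
      exact absurd h8 (not_le.2 hν)
  obtain ⟨f, hmon, hirr, hdvd⟩ := exists_monic_irreducible_factor (mQ δ).charpoly
    (not_isUnit_of_natDegree_pos _ (by rw [hcd]; exact hd))
  have huniq : ∀ q : ℚ[X], q.Monic → Irreducible q → q ∣ (mQ δ).charpoly → q = f := by
    intro q hq hqi hqd
    have h1 : ∀ q : ℚ[X], q.Monic → Irreducible q → q ∣ (mQ δ).charpoly →
        q = minpoly ℚ ((c ⟨0, hd⟩ : ℝ) : ℂ) := by
      intro q hq hqi hqd
      refine minpoly.eq_of_irreducible_of_monic hqi ?_ hq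
      rw [aeval_def, ← eval_map]
      exact hroot q hqi hqd _
    rw [h1 q hq hqi hqd, h1 f hmon hirr hdvd]
  refine ⟨f.natDegree, ?_, ?_, fun hD => ?_⟩
  · have h1 := natDegree_dvd (f := f) _ _ rfl hcm huniq
    rwa [hcd] at h1
  · have hf0 : f.map (algebraMap ℚ ℂ) ≠ 0 := (hmon.map _).ne_zero
    have h1 : (Finset.univ.image c).image (fun t : ℝ => (t : ℂ)) ⊆
        (f.map (algebraMap ℚ ℂ)).roots.toFinset := by
      intro z hz
      obtain ⟨t, ht, rfl⟩ := Finset.mem_image.1 hz
      obtain ⟨i, -, rfl⟩ := Finset.mem_image.1 ht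
      rw [Multiset.mem_toFinset, mem_roots hf0]
      exact hroot f hirr hdvd i
    have h2 := Finset.card_le_card h1
    rw [Finset.card_image_of_injective _ Complex.ofReal_injective] at h2
    have h3 := (Multiset.toFinset_card_le (f.map (algebraMap ℚ ℂ)).roots).trans
      (card_roots' (f.map (algebraMap ℚ ℂ)))
    rw [natDegree_map] at h3
    exact h2.trans h3
  · have hfc : f = (mQ δ).charpoly := by
      refine (eq_of_monic_of_dvd_of_natDegree_le hmon hcm hdvd ?_).symm
      rw [hcd, hD]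
    have hirr2 : Irreducible (mQ δ).charpoly := hfc ▸ hirr
    refine ⟨?_, ?_⟩
    · rw [← Matrix.charpoly_map]
      exact hirr2
    · have h1 : (mQ δ).charpoly.map (algebraMap ℚ ℝ) = ∏ i, (X - C (c i)) := by
        rw [← Matrix.charpoly_map]
        have h2 : (mQ δ).map (algebraMap ℚ ℝ) = g⁻¹ * (diagonal c * g) := by
          rw [← h, ← Matrix.mul_assoc, Matrix.nonsing_inv_mul _ (isUnit_iff_ne_zero.2 hg),
            Matrix.one_mul]
          ext i j
          simp [mQ, zR]
        rw [h2, Matrix.charpoly_mul_comm, Matrix.mul_assoc,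
          Matrix.mul_nonsing_inv _ (isUnit_iff_ne_zero.2 hg), Matrix.mul_one,
          Matrix.charpoly_diagonal]
      have h2 : ((mQ δ).charpoly.map (algebraMap ℚ ℝ)).Separable := hirr2.separable.map
      rw [h1, separable_prod_X_sub_C_iff] at h2
      exact h2

end Pool.Agent.N759.FV
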