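import Mathlib

/-! # Lattices of positions away from the vectors with few different entries -/

namespace Pool.Agent.N759.FV

variable {d m : ℕ}

/-- the vectors `w ∘ f` -/
def Wf (f : Fin d → Fin m) : Submodule ℝ (Fin d → ℝ) := LinearMap.range (LinearMap.funLeft ℝ ℝ f)

lemma mem_Wf {f : Fin d → Fin m} {x : Fin d → ℝ} : x ∈ Wf f ↔ ∃ w : Fin m → ℝ, ∀ i, x i = w (f i) := by
  constructor
  · rintro ⟨w, rfl⟩
    exact ⟨w, fun i => rfl⟩
  · rintro ⟨w, hw⟩
    exact ⟨w, funext fun i => (hw i).symm⟩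

/-- the vectors of sum `0` -/
def Hs (d : ℕ) : Submodule ℝ (Fin d → ℝ) := LinearMap.ker (∑ i, LinearMap.proj i : (Fin d → ℝ) →ₗ[ℝ] ℝ)

lemma mem_Hs {x : Fin d → ℝ} : x ∈ Hs d ↔ ∑ i, x i = 0 := by
  rw [Hs, LinearMap.mem_ker]
  simp

lemma finrank_Hs (hd : 0 < d) : Module.finrank ℝ (Hs d) + 1 = d := by
  have h1 := LinearMap.finrank_range_add_finrank_ker (∑ i, LinearMap.proj i : (Fin d → ℝ) →ₗ[ℝ] ℝ)
  have h2 : LinearMap.range (∑ i, LinearMap.proj i : (Fin d → ℝ) →ₗ[ℝ] ℝ) = ⊤ := by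
    rw [LinearMap.range_eq_top]
    intro t
    refine ⟨Pi.single ⟨0, hd⟩ t, ?_⟩
    simp
  rw [h2, finrank_top, Module.finrank_self, Module.finrank_fin_fun] at h1
  rw [Hs]
  omega

lemma finrank_Wf_inf (hd : 0 < d) (f : Fin d → Fin m) :
    Module.finrank ℝ (Wf f ⊓ Hs d : Submodule ℝ (Fin d → ℝ)) + 1 ≤ m := by
  have h1 : Module.finrank ℝ (Wf f) ≤ m := by
    refine (LinearMap.finrank_range_le _).trans ?_
    rw [Module.finrank_fin_fun]
  have h2 : (Wf f ⊓ Hs d : Submodule ℝ (Fin d → ℝ)) < Wf f := by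
    refine lt_of_le_of_ne inf_le_left fun h => ?_
    have h3 : (fun _ => 1 : Fin d → ℝ) ∈ Wf f := mem_Wf.2 ⟨fun _ => 1, fun i => rfl⟩
    rw [← h] at h3
    have h4 := mem_Hs.1 h3.2
    simp at h4
    omega
  exact (Submodule.finrank_lt_finrank_of_lt h2).trans_le h1

lemma exists_U (hd : 0 < d) (hm : 0 < m) : ∀ k, k + m ≤ d → ∃ U : Submodule ℝ (Fin d → ℝ), U ≤ Hs d ∧
    Module.finrank ℝ U = k ∧ ∀ f : Fin d → Fin m, U ⊓ Wf f = ⊥ := by
  classical
  intro k
  induction k with
  | zero =>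
    intro _
    exact ⟨⊥, bot_le, by simp, fun f => bot_inf_eq _⟩
  | succ k ih =>
    intro hk
    obtain ⟨U, hU, hUk, hUf⟩ := ih (by omega)
    have h1 : ∀ f : Fin d → Fin m, ((U ⊔ (Wf f ⊓ Hs d)).comap (Hs d).subtype : Subspace ℝ (Hs d)) ≠ ⊤ := by
      intro f h
      rw [Submodule.comap_subtype_eq_top] at h
      have h2 := Submodule.finrank_mono h
      have h3 := Submodule.finrank_add_le_finrank_add_finrank U (Wf f ⊓ Hs d)
      have h4 := finrank_Wf_inf hd f
      have h5 := finrank_Hs hd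
      omega
    obtain ⟨u, hu⟩ : ∃ u : Hs d, ∀ f : Fin d → Fin m,
        u ∉ ((U ⊔ (Wf f ⊓ Hs d)).comap (Hs d).subtype : Subspace ℝ (Hs d)) := by
      have h2 := Subspace.biUnion_ne_univ_of_top_notMem (k := ℝ) (E := Hs d)
        (s := Finset.univ.image fun f : Fin d → Fin m =>
          ((U ⊔ (Wf f ⊓ Hs d)).comap (Hs d).subtype : Subspace ℝ (Hs d))) (by
          intro h
          obtain ⟨f, -, hf⟩ := Finset.mem_image.1 h
          exact h1 f hf)
      rw [Set.ne_univ_iff_exists_notMem] at h2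
      obtain ⟨u, hu⟩ := h2
      refine ⟨u, fun f hf => hu ?_⟩
      rw [Set.mem_iUnion₂]
      exact ⟨_, Finset.mem_image_of_mem _ (Finset.mem_univ f), hf⟩
    have hu' : ∀ f : Fin d → Fin m, (u : Fin d → ℝ) ∉ U ⊔ (Wf f ⊓ Hs d) := fun f h => hu f h
    have huU : (u : Fin d → ℝ) ∉ U := fun h => hu' (fun _ => ⟨0, hm⟩) (Submodule.mem_sup_left h)
    refine ⟨U ⊔ Submodule.span ℝ {(u : Fin d → ℝ)}, ?_, ?_, fun f => ?_⟩
    · rw [sup_le_iff, Submodule.span_singleton_le_iff_mem]
      exact ⟨hU, u.2⟩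
    · have h2 : U ⊓ Submodule.span ℝ {(u : Fin d → ℝ)} = ⊥ := by
        rw [Submodule.eq_bot_iff]
        rintro x ⟨hx1, hx2⟩
        obtain ⟨c, rfl⟩ := Submodule.mem_span_singleton.1 hx2
        by_contra hne
        have hc : c ≠ 0 := fun h => hne (by rw [h, zero_smul])
        exact huU ((Submodule.smul_mem_iff _ hc).1 hx1)
      have h3 := Submodule.finrank_sup_add_finrank_inf_eq U (Submodule.span ℝ {(u : Fin d → ℝ)})
      rw [h2, finrank_bot, hUk, finrank_span_singleton] at h3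
      · exact h3
      · intro h
        exact huU (h ▸ U.zero_mem)
    · rw [Submodule.eq_bot_iff]
      rintro x ⟨hx1, hx2⟩
      obtain ⟨y, hy, z, hz, rfl⟩ := Submodule.mem_sup.1 hx1
      obtain ⟨c, rfl⟩ := Submodule.mem_span_singleton.1 hz
      by_cases hc : c = 0
      · rw [hc, zero_smul, add_zero] at hx2 ⊢
        have : y ∈ U ⊓ Wf f := ⟨hy, hx2⟩
        rwa [hUf f, Submodule.mem_bot] at this
      · exfalso
        apply hu' f
        have h2 : c • (u : Fin d → ℝ) ∈ U ⊔ (Wf f ⊓ Hs d) := by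
          have h3 : c • (u : Fin d → ℝ) = -y + (y + c • (u : Fin d → ℝ)) := by abel
          rw [h3]
          refine Submodule.add_mem_sup (U.neg_mem hy) ⟨hx2, ?_⟩
          exact (Hs d).add_mem (hU hy) ((Hs d).smul_mem _ u.2)
        exact (Submodule.smul_mem_iff _ hc).1 h2

/-- **Positions.** There are `d - m` vectors of sum `0` such that all their nonzero integral
combinations are at distance at least `c` from the vectors with at most `m` different entries. -/
theorem exists_positions (hd : 0 < d) (hm : 0 < m) (hmd : m ≤ d) (c : ℝ) :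
    ∃ u : Fin (d - m) → Fin d → ℝ, (∀ j, ∑ i, u j i = 0) ∧
      ∀ z : Fin (d - m) → ℤ, z ≠ 0 → ∀ (f : Fin d → Fin m) (w : Fin m → ℝ),
        ∃ i, c ≤ |∑ j, (z j : ℝ) * u j i - w (f i)| := by
  classical
  obtain ⟨U, hU, hUk, hUf⟩ := exists_U (m := m) hd hm (d - m) (by omega)
  set B := Module.finBasisOfFinrankEq ℝ U hUk with hB
  -- the maps
  have hanti : ∀ f : Fin d → Fin m, ∃ K : NNReal, 0 < K ∧ ∀ (z : Fin (d - m) → ℝ) (w : Fin m → ℝ),
      ‖z‖ ≤ K * ‖fun i => ∑ j, z j * (B j : Fin d → ℝ) i - w (f i)‖ := by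
    intro f
    let Φ : ((Fin (d - m) → ℝ) × Wf f) →ₗ[ℝ] (Fin d → ℝ) :=
      (U.subtype.comp (Fintype.linearCombination ℝ fun j => B j)).coprod (-(Wf f).subtype)
    have hΦ : ∀ z w, Φ (z, w) = fun i => ∑ j, z j * (B j : Fin d → ℝ) i - (w : Fin d → ℝ) i := by
      intro z w
      funext i
      simp only [Φ, LinearMap.coprod_apply, LinearMap.comp_apply, Fintype.linearCombination_apply,
        Submodule.subtype_apply, LinearMap.neg_apply, Pi.add_apply, Pi.neg_apply]
      rw [Submodule.coe_sum, Finset.sum_apply, ← sub_eq_add_neg]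
      rfl
    obtain ⟨K, hK0, hK⟩ := Φ.exists_antilipschitzWith (by
      rw [LinearMap.ker_eq_bot']
      rintro ⟨z, w⟩ h
      have h1 : (U.subtype (Fintype.linearCombination ℝ (fun j => B j) z) : Fin d → ℝ) = w := by
        have h2 : U.subtype (Fintype.linearCombination ℝ (fun j => B j) z) + -((w : Fin d → ℝ)) = 0 := h
        exact add_neg_eq_zero.1 h2
      have h2 : (w : Fin d → ℝ) = 0 := by
        have h3 : (w : Fin d → ℝ) ∈ U ⊓ Wf f := by
          refine ⟨?_, w.2⟩
          rw [← h1]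
          exact Submodule.coe_mem _
        rwa [hUf f, Submodule.mem_bot] at h3
      rw [h2] at h1
      have h4 : Fintype.linearCombination ℝ (fun j => B j) z = 0 := Subtype.ext h1
      have h5 : z = 0 := by
        have h6 := B.linearIndependent
        rw [Fintype.linearIndependent_iff] at h6
        funext j
        exact h6 z (by rw [← Fintype.linearCombination_apply]; exact h4) j
      rw [h5]
      exact Prod.ext rfl (Subtype.ext h2))
    refine ⟨K, hK0, fun z w => ?_⟩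
    have h1 := hK.le_mul_norm_sub ((z, ⟨fun i => w (f i), mem_Wf.2 ⟨w, fun i => rfl⟩⟩) :
      (Fin (d - m) → ℝ) × Wf f) 0
    rw [map_zero, add_zero, add_zero, norm_neg, norm_neg, hΦ] at h1
    refine le_trans ?_ h1
    rw [Prod.norm_def]
    exact le_max_left _ _
  choose K hK0 hK using hanti
  set L : ℝ := 1 + ∑ f, (K f : ℝ) with hL
  have hLf : ∀ f, (K f : ℝ) ≤ L := by
    intro f
    have := Finset.single_le_sum (f := fun f => (K f : ℝ)) (fun f _ => (K f).coe_nonneg)
      (Finset.mem_univ f)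
    linarith
  have hL0 : 0 < L := by
    have : 0 ≤ ∑ f, (K f : ℝ) := Finset.sum_nonneg fun f _ => (K f).coe_nonneg
    linarith
  set s : ℝ := (|c| + 1) * L with hs
  have hs0 : 0 < s := by positivity
  refine ⟨fun j i => s * (B j : Fin d → ℝ) i, fun j => ?_, fun z hz f w => ?_⟩
  · rw [← Finset.mul_sum, mem_Hs.1 (hU (B j).2), mul_zero]
  · by_contra hcon
    push Not at hcon
    have h1 := hK f (fun j => (z j : ℝ)) (fun k => w k / s)
    have h2 : (1 : ℝ) ≤ ‖fun j => (z j : ℝ)‖ := by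
      obtain ⟨j, hj⟩ := Function.ne_iff.1 hz
      refine le_trans ?_ (norm_le_pi_norm _ j)
      rw [Real.norm_eq_abs, ← Int.cast_abs]
      exact_mod_cast Int.one_le_abs hj
    have h3 : ‖fun i => ∑ j, (z j : ℝ) * (B j : Fin d → ℝ) i - w (f i) / s‖ ≤ |c| / s := by
      rw [pi_norm_le_iff_of_nonneg (by positivity)]
      intro i
      have h4 := (hcon i).le
      have h5 : ∑ j, (z j : ℝ) * (s * (B j : Fin d → ℝ) i) - w (f i) =
          s * (∑ j, (z j : ℝ) * (B j : Fin d → ℝ) i - w (f i) / s) := by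
        rw [mul_sub, mul_div_cancel₀ _ hs0.ne', Finset.mul_sum]
        congr 1
        exact Finset.sum_congr rfl fun j _ => by ring
      rw [h5, abs_mul, abs_of_pos hs0] at h4
      rw [Real.norm_eq_abs, le_div_iff₀ hs0, mul_comm]
      exact h4.trans (le_abs_self c)
    have h4 : (K f : ℝ) * ‖fun i => ∑ j, (z j : ℝ) * (B j : Fin d → ℝ) i - w (f i) / s‖ ≤
        L * (|c| / s) := mul_le_mul (hLf f) h3 (norm_nonneg _) hL0.le
    have h5 : L * (|c| / s) < 1 := by
      rw [hs, mul_div_assoc', mul_comm L, mul_div_mul_right _ _ hL0.ne', div_lt_one (by positivity)]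
      linarith
    linarith

end Pool.Agent.N759.FV
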