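import Mathlib
import Pool.Agent.W777.FV.Main
import Pool.Agent.N759.FV.Det3
import Pool.Agent.N759.FV.Lat
import Pool.Agent.N759.FV.Auto

/-! # The pigeonhole step with positions in a lattice of the diagonal group -/

open Filter Topology Matrix H715R2

namespace Pool.Agent.N759.FV

open Pool.Agent.W777.FV

variable {d : ℕ}

/-- the pairs used -/
def OD (d : ℕ) : Finset (Fin d × Fin d) := Finset.univ.offDiag

lemma card_OD (d : ℕ) : (OD d).card = d ^ 2 - d := by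
  rw [OD, Finset.offDiag_card, Finset.card_univ, Fintype.card_fin, pow_two]

/-- the states: two positions with the same state give an automorph -/
theorem states (hd : 2 ≤ d) {V ν T : ℝ} (hV : 0 < V) (hν : 0 < ν)
    (hT : ∀ h : Matrix (Fin d) (Fin d) ℝ, |h.det| = V →
      ∃ m : Fin d → ℤ, m ≠ 0 ∧ |FF h (iR m)| < T) :
    ∃ t₀ : ℕ, ∃ C : ℝ, 0 < C ∧ ∀ g : Matrix (Fin d) (Fin d) ℝ, |g.det| = V → HasNu g ν →
      ∀ G : ℝ, (∀ i j, |g⁻¹ i j| ≤ G) → ∀ N : ℕ, C * (1 + G) ^ 2 ≤ N →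
      ∀ (ι : Type) [Fintype ι] (φ : ι → Fin d → ℝ), (∀ z, ∑ i, φ z i = 0) →
      (∀ z i, |φ z i| ≤ Real.log N / 2) →
      ∃ (S : Finset (Matrix (Fin d) (Fin d) ℝ × (OD d → ℝ)))
        (st : ι → Matrix (Fin d) (Fin d) ℝ × (OD d → ℝ)),
        S.card = t₀ * (VN g T N).ncard ^ (d ^ 2 - d) ∧ (∀ z, st z ∈ S) ∧
        ∀ z z' : ι, st z = st z' → ∃ (δ : Matrix (Fin d) (Fin d) ℤ) (b : Fin d → ℝ),
          (∀ i, 1 / 3 < b i ∧ b i < 3) ∧
          g * zR δ = diagonal (fun i => b i * Real.exp (φ z i - φ z' i)) * g ∧ IsUnit δ.det := by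
  classical
  have hd0 : 0 < d := by omega
  set i₀ : Fin d := ⟨0, hd0⟩ with hi₀
  obtain ⟨R, hR⟩ := exists_bound hd0 V ν hV hν
  obtain ⟨r, hr0, hvec⟩ := exists_vec_gen hd0 V ν T hV hν hT
  set R' : ℝ := max R 0 with hR'
  set 𝒦 : Set (Matrix (Fin d) (Fin d) ℝ) :=
    ({h | ∀ i j, |h i j| ≤ R'} ∩ {h | |h.det| = V}) ∩ {h | HasNu h ν} with h𝒦
  have hcpt : IsCompact 𝒦 := by
    refine ((isCompact_box R').inter_right ?_).inter_right (Pool.Agent.W777.FV.isClosed_hasNu ν)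
    exact isClosed_eq (continuous_abs.comp continuous_det') continuous_const
  have hloc : ∀ h₀ ∈ 𝒦, ∃ m : Fin d × Fin d → (Fin d → ℤ), ∃ W ∈ 𝓝 h₀,
      (∀ p, m p ≠ 0) ∧ (∀ h ∈ W, ∀ p, |FF h (iR (m p))| < T) ∧
      ∀ h ∈ W, ∀ h' ∈ W, |h.det| = |h'.det| →
        (∀ p : Fin d × Fin d, p.1 ≠ p.2 → FF h (iR (m p)) = FF h' (iR (m p))) →
        ∃ a : Fin d → ℝ, (∀ i, 1 / 3 < a i ∧ a i < 3) ∧ h' = diagonal a * h := by
    intro h₀ hh₀
    have hdet : |h₀.det| = V := hh₀.1.2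
    have hdet0 : h₀.det ≠ 0 := by
      intro h0
      rw [h0, abs_zero] at hdet
      exact hV.ne hdet
    obtain ⟨m, hm, U, hU, hUd⟩ := determine3 i₀ (div_pos hν (pow_pos hr0 (d - 1))) hdet0 hr0
      (hvec h₀ hdet hh₀.2)
    have hev : ∀ᶠ h in 𝓝 h₀, ∀ p, |FF h (iR (m p))| < T := by
      refine Filter.eventually_all.2 fun p => ?_
      exact ((continuous_abs.comp (continuous_FF (iR (m p)))).tendsto h₀).eventually
        (gt_mem_nhds (hm p).2)
    refine ⟨m, U ∩ {h | ∀ p, |FF h (iR (m p))| < T}, Filter.inter_mem hU hev,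
      fun p => (hm p).1, fun h hh => hh.2, fun h hh h' hh' => hUd h hh.1 h' hh'.1⟩
  choose! m W hW hm0 hmT hWd using hloc
  obtain ⟨t, ht𝒦, htcov⟩ := hcpt.elim_nhds_subcover W hW
  -- bounds
  set M : ℝ := ∑ x ∈ t, ∑ p, ∑ j, |(m x p j : ℝ)| with hM
  have hM0 : 0 ≤ M := Finset.sum_nonneg fun _ _ => Finset.sum_nonneg fun _ _ =>
    Finset.sum_nonneg fun _ _ => abs_nonneg _
  have hMe : ∀ x ∈ t, ∀ p j, |(m x p j : ℝ)| ≤ M := by
    intro x hx p j
    refine (Finset.single_le_sum (f := fun j => |(m x p j : ℝ)|) (fun _ _ => abs_nonneg _)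
      (Finset.mem_univ j)).trans ?_
    refine (Finset.single_le_sum (f := fun p => ∑ j, |(m x p j : ℝ)|)
      (fun _ _ => Finset.sum_nonneg fun _ _ => abs_nonneg _) (Finset.mem_univ p)).trans ?_
    exact Finset.single_le_sum (f := fun x => ∑ p, ∑ j, |(m x p j : ℝ)|)
      (fun _ _ => Finset.sum_nonneg fun _ _ => Finset.sum_nonneg fun _ _ => abs_nonneg _) hx
  set C₀ : ℝ := d ^ 2 * (R' * M) + 1 with hC₀
  have hR'0 : 0 ≤ R' := le_max_right _ _
  have hC₀0 : 0 < C₀ := by positivity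
  refine ⟨t.card, C₀ ^ 2 + 1, by positivity, ?_⟩
  intro g hgV hnu G hG N hN ι _ φ hφsum hφb
  have hG0 : 0 ≤ G := (abs_nonneg _).trans (hG i₀ i₀)
  have hg : g.det ≠ 0 := by
    intro h0
    rw [h0, abs_zero] at hgV
    exact hV.ne hgV
  set C : ℝ := C₀ * (1 + G) with hCdef
  have hC0 : 0 < C := by positivity
  -- the points of the orbit
  set a : ι → Fin d → ℝ := fun n i => Real.exp (φ n i) with ha
  have ha0 : ∀ n i, 0 < a n i := fun n i => Real.exp_pos _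
  have ha1 : ∀ n, ∏ i, a n i = 1 := by
    intro n
    simp only [ha]
    rw [← Real.exp_sum, hφsum, Real.exp_zero]
  have hxn : ∀ n, ∃ γ : Matrix (Fin d) (Fin d) ℤ, IsUnit γ.det ∧
      diagonal (a n) * g * zR γ ∈ 𝒦 := by
    intro n
    have h1 : diagonal (a n) * g ∈ Orb g := by
      refine ⟨a n, 1, ha0 n, ha1 n, by simp, ?_⟩
      rw [zR_one, Matrix.mul_one]
    obtain ⟨γ, hγ, hγR⟩ := hR _ ((abs_det_orb h1).trans hgV)
      (hasNu_closure hnu (subset_closure h1))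
    have h2 : diagonal (a n) * g * zR γ ∈ Orb g := ⟨a n, γ, ha0 n, ha1 n, hγ, rfl⟩
    exact ⟨γ, hγ, ⟨fun i j => (hγR i j).trans (le_max_left _ _), (abs_det_orb h2).trans hgV⟩,
      hasNu_closure hnu (subset_closure h2)⟩
  choose γ hγ hγ𝒦 using hxn
  set y : ι → Matrix (Fin d) (Fin d) ℝ := fun n => diagonal (a n) * g * zR (γ n) with hy
  have hxt : ∀ n, ∃ x ∈ t, y n ∈ W x := by
    intro n
    have := htcov (hγ𝒦 n)
    rw [Set.mem_iUnion₂] at this
    obtain ⟨x, hx, hx2⟩ := this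
    exact ⟨x, hx, hx2⟩
  choose x hxt hxW using hxt
  have hval : ∀ n p, FF (y n) (iR (m (x n) p)) = FF g (iR (γ n *ᵥ m (x n) p)) :=
    fun n p => FF_orb (ha1 n) g (γ n) _
  have hbd : ∀ n p i, |((γ n *ᵥ m (x n) p) i : ℝ)| ≤ C * Real.exp (Real.log N / 2) := by
    intro n p i
    refine Pool.Agent.W777.FV.gamma_bound hg R' M hR'0 hM0 G hG (a n) (γ n) (m (x n) p)
      (Real.exp (Real.log N / 2)) (ha0 n) (fun i => ?_) (hγ𝒦 n).1.1 (hMe _ (hxt n) p) i
    simp only [ha]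
    rw [← Real.exp_neg, Real.exp_le_exp]
    have h1 := (abs_le.1 (hφb n i)).1
    linarith
  have hne : ∀ n p, γ n *ᵥ m (x n) p ≠ 0 := by
    intro n p h0
    have h1 := hm0 _ (ht𝒦 _ (hxt n)) p
    apply h1
    have h2 : (γ n)⁻¹ *ᵥ (γ n *ᵥ m (x n) p) = m (x n) p := by
      rw [mulVec_mulVec, Matrix.nonsing_inv_mul _ (hγ n), one_mulVec]
    rw [← h2, h0, mulVec_zero]
  -- the constants
  have hNR : C ^ 2 + 1 ≤ N := by
    have h1 : C ^ 2 + 1 ≤ (C₀ ^ 2 + 1) * (1 + G) ^ 2 := by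
      rw [hCdef, mul_pow]
      nlinarith
    exact h1.trans hN
  have hN0 : (0 : ℝ) < N := by nlinarith [sq_nonneg C]
  have hlogC : 2 * Real.log C ≤ Real.log N := by
    rw [show (2 : ℝ) * Real.log C = Real.log (C ^ 2) by rw [Real.log_pow]; norm_num]
    exact Real.log_le_log (by positivity) (by linarith)
  have hKN : C * Real.exp (Real.log N / 2) ≤ N := by
    calc C * Real.exp (Real.log N / 2) = Real.exp (Real.log C) * Real.exp (Real.log N / 2) := by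
          rw [Real.exp_log hC0]
      _ = Real.exp (Real.log C + Real.log N / 2) := (Real.exp_add _ _).symm
      _ ≤ Real.exp (Real.log N) := by
          rw [Real.exp_le_exp]
          linarith
      _ = N := Real.exp_log hN0
  -- colours
  set VF : Finset ℝ := (finite_VN g T N).toFinset with hVF
  have hVcard : VF.card = (VN g T N).ncard := by
    rw [hVF, Set.ncard_eq_toFinset_card _ (finite_VN g T N)]
  set S : Finset (Matrix (Fin d) (Fin d) ℝ × (OD d → ℝ)) :=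
    t ×ˢ Fintype.piFinset (fun _ : OD d => VF) with hS
  have hScard : S.card = t.card * VF.card ^ (d ^ 2 - d) := by
    rw [hS, Finset.card_product, Fintype.card_piFinset, Finset.prod_const, Finset.card_univ,
      Fintype.card_coe, card_OD]
  refine ⟨S, fun n => (x n, fun p : OD d => FF (y n) (iR (m (x n) p))), by rw [hScard, hVcard],
    fun n => ?_, fun n n' hcol => ?_⟩
  · rw [hS, Finset.mem_product]
    refine ⟨hxt n, ?_⟩
    rw [Fintype.mem_piFinset]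
    intro p
    simp only
    rw [hVF, Set.Finite.mem_toFinset]
    refine ⟨γ n *ᵥ m (x n) p, hne n p, fun i => ?_, (hval n p).symm, ?_⟩
    · have h1 := (hbd n p i).trans hKN
      exact_mod_cast h1
    · exact hmT _ (ht𝒦 _ (hxt n)) _ (hxW n) p
  rw [Prod.mk.injEq] at hcol
  obtain ⟨hxx, hcol⟩ := hcol
  obtain ⟨b, hb, hbe⟩ := hWd _ (ht𝒦 _ (hxt n)) (y n) (hxW n) (y n') (by rw [hxx]; exact hxW n')
    (by rw [(hγ𝒦 n).1.2, (hγ𝒦 n').1.2])
    (fun p hp => by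
      have h1 := congrFun hcol ⟨p, by rw [OD, Finset.mem_offDiag]; exact ⟨Finset.mem_univ _, Finset.mem_univ _, hp⟩⟩
      simp only at h1
      rw [h1, hxx])
  refine ⟨γ n' * (γ n)⁻¹, b, hb, ?_, ?_⟩
  · have h1 : diagonal (fun i => (a n' i)⁻¹) * diagonal (a n') =
        (1 : Matrix (Fin d) (Fin d) ℝ) := by
      rw [diagonal_mul_diagonal, ← diagonal_one]
      congr 1
      funext i
      exact inv_mul_cancel₀ (ha0 n' i).ne'
    have h2 : g * zR (γ n') = diagonal (fun i => (a n' i)⁻¹) * (diagonal b * y n) := by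
      rw [← hbe]
      simp only [hy]
      rw [Matrix.mul_assoc (diagonal (a n')), ← Matrix.mul_assoc, h1, Matrix.one_mul]
    rw [zR_mul, ← Matrix.mul_assoc, h2]
    simp only [hy]
    have h3 : diagonal (fun i => (a n' i)⁻¹) * (diagonal b * (diagonal (a n) * g * zR (γ n))) *
        zR (γ n)⁻¹ = (diagonal (fun i => (a n' i)⁻¹) * diagonal b * diagonal (a n)) * g *
          (zR (γ n) * zR (γ n)⁻¹) := by
      simp only [Matrix.mul_assoc]
    rw [h3, zR_inv (hγ n), Matrix.mul_one, diagonal_mul_diagonal, diagonal_mul_diagonal]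
    congr 2
    funext i
    simp only [ha]
    rw [← Real.exp_neg, mul_right_comm, ← Real.exp_add, mul_comm]
    congr 2
    ring
  · rw [det_mul]
    refine (hγ n').mul ?_
    rw [Matrix.det_nonsing_inv]
    exact (hγ n).ringInverse

/-- two positions with the same values give an automorph -/
theorem pigeon (hd : 2 ≤ d) {V ν T : ℝ} (hV : 0 < V) (hν : 0 < ν)
    (hT : ∀ h : Matrix (Fin d) (Fin d) ℝ, |h.det| = V →
      ∃ m : Fin d → ℤ, m ≠ 0 ∧ |FF h (iR m)| < T) :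
    ∃ t₀ : ℕ, ∃ C : ℝ, 0 < C ∧ ∀ g : Matrix (Fin d) (Fin d) ℝ, |g.det| = V → HasNu g ν →
      ∀ G : ℝ, (∀ i j, |g⁻¹ i j| ≤ G) → ∀ N : ℕ, C * (1 + G) ^ 2 ≤ N →
      ∀ (ι : Type) [Fintype ι] (φ : ι → Fin d → ℝ), (∀ z, ∑ i, φ z i = 0) →
      (∀ z i, |φ z i| ≤ Real.log N / 2) →
      t₀ * (VN g T N).ncard ^ (d ^ 2 - d) < Fintype.card ι →
      ∃ z z' : ι, z ≠ z' ∧ ∃ (δ : Matrix (Fin d) (Fin d) ℤ) (b : Fin d → ℝ),
        (∀ i, 1 / 3 < b i ∧ b i < 3) ∧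
        g * zR δ = diagonal (fun i => b i * Real.exp (φ z i - φ z' i)) * g ∧ IsUnit δ.det := by
  classical
  obtain ⟨t₀, C, hC, H⟩ := states hd hV hν hT
  refine ⟨t₀, C, hC, fun g hgV hnu G hG N hN ι _ φ hφs hφb hlt => ?_⟩
  obtain ⟨S, st, hS, hst, haut⟩ := H g hgV hnu G hG N hN ι φ hφs hφb
  obtain ⟨z, -, z', -, hne, heq⟩ := Finset.exists_ne_map_eq_of_card_lt_of_maps_to
    (s := (Finset.univ : Finset ι)) (t := S) (f := st)
    (by rw [Finset.card_univ, hS]; exact hlt) (fun z _ => hst z)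
  exact ⟨z, z', hne, haut z z' heq⟩

/-- a state with many positions -/
theorem fibre (hd : 2 ≤ d) {V ν T : ℝ} (hV : 0 < V) (hν : 0 < ν)
    (hT : ∀ h : Matrix (Fin d) (Fin d) ℝ, |h.det| = V →
      ∃ m : Fin d → ℤ, m ≠ 0 ∧ |FF h (iR m)| < T) :
    ∃ t₀ : ℕ, ∃ C : ℝ, 0 < C ∧ ∀ g : Matrix (Fin d) (Fin d) ℝ, |g.det| = V → HasNu g ν →
      ∀ G : ℝ, (∀ i j, |g⁻¹ i j| ≤ G) → ∀ N : ℕ, C * (1 + G) ^ 2 ≤ N →
      ∀ (ι : Type) [Fintype ι] [Nonempty ι] (φ : ι → Fin d → ℝ), (∀ z, ∑ i, φ z i = 0) →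
      (∀ z i, |φ z i| ≤ Real.log N / 2) →
      ∃ (Z : Finset ι) (z₀ : ι), Fintype.card ι ≤ Z.card * (t₀ * (VN g T N).ncard ^ (d ^ 2 - d)) ∧
        ∀ z ∈ Z, ∃ (δ : Matrix (Fin d) (Fin d) ℤ) (b : Fin d → ℝ),
          (∀ i, 1 / 3 < b i ∧ b i < 3) ∧
          g * zR δ = diagonal (fun i => b i * Real.exp (φ z i - φ z₀ i)) * g ∧ IsUnit δ.det := by
  classical
  obtain ⟨t₀, C, hC, H⟩ := states hd hV hν hT
  refine ⟨t₀, C, hC, fun g hgV hnu G hG N hN ι _ _ φ hφs hφb => ?_⟩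
  obtain ⟨S, st, hS, hst, haut⟩ := H g hgV hnu G hG N hN ι φ hφs hφb
  obtain ⟨w⟩ := ‹Nonempty ι›
  have hSne : S.Nonempty := ⟨st w, hst w⟩
  have hS0 : (0 : ℝ) < S.card := by exact_mod_cast hSne.card_pos
  obtain ⟨s, hs, hfib⟩ := Finset.exists_le_card_fiber_of_nsmul_le_card_of_maps_to
    (s := (Finset.univ : Finset ι)) (t := S) (f := st) (b := (Fintype.card ι : ℝ) / S.card)
    (fun z _ => hst z) hSne (by
      rw [nsmul_eq_mul, mul_div_cancel₀ _ hS0.ne', Finset.card_univ])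
  have hι : (0 : ℝ) < Fintype.card ι := by
    exact_mod_cast Fintype.card_pos_iff.2 ⟨w⟩
  have hpos : (0 : ℝ) < ((Finset.univ.filter fun x => st x = s).card : ℕ) :=
    lt_of_lt_of_le (div_pos hι hS0) hfib
  obtain ⟨z₀, hz₀⟩ := Finset.card_pos.1 (by exact_mod_cast hpos)
  refine ⟨Finset.univ.filter fun x => st x = s, z₀, ?_, fun z hz => ?_⟩
  · rw [← hS]
    rw [div_le_iff₀ hS0] at hfib
    exact_mod_cast hfib
  · exact haut z z₀ (by rw [(Finset.mem_filter.1 hz).2, (Finset.mem_filter.1 hz₀).2])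

end Pool.Agent.N759.FV
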