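import Mathlib
import Pool.Agent.N759.FV.Pigeon

/-! # Few small values: an automorph, with positions in a lattice of large rank -/

open Filter Topology Matrix H715R2

namespace Pool.Agent.N759.FV

open Pool.Agent.W777.FV Pool.Agent.N759.UC

variable {d : ℕ}

lemma div_minFac_pos {n : ℕ} (hn : 0 < n) : 0 < n / n.minFac :=
  Nat.div_pos (Nat.minFac_le hn) (Nat.minFac_pos n)

lemma le_div_minFac {n D : ℕ} (hn : 0 < n) (hD : D ∣ n) (hne : D ≠ n) : D ≤ n / n.minFac := by
  obtain ⟨k, hk⟩ := hD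
  have hk2 : 2 ≤ k := by
    rcases Nat.lt_or_ge k 2 with h | h
    · interval_cases k
      · omega
      · exfalso; apply hne; rw [hk, mul_one]
    · exact h
  have h1 : n.minFac ≤ k := Nat.minFac_le_of_dvd hk2 ⟨D, by rw [hk, mul_comm]⟩
  rw [Nat.le_div_iff_mul_le (Nat.minFac_pos n)]
  calc D * n.minFac ≤ D * k := Nat.mul_le_mul_left _ h1
    _ = n := hk.symm

/-- a function with few values -/
lemma exists_factor_fin {m : ℕ} {c : Fin d → ℝ} (hc : (Finset.univ.image c).card ≤ m) :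
    ∃ (f : Fin d → Fin m) (w : Fin m → ℝ), ∀ i, w (f i) = Real.log (c i) := by
  classical
  obtain ⟨e⟩ := Function.Embedding.nonempty_of_card_le
    (α := (Finset.univ.image c)) (β := Fin m) (by simpa using hc)
  set f : Fin d → Fin m := fun i => e ⟨c i, Finset.mem_image_of_mem _ (Finset.mem_univ i)⟩ with hf
  refine ⟨f, fun k => if h : ∃ i, f i = k then Real.log (c h.choose) else 0, fun i => ?_⟩
  have h : ∃ i', f i' = f i := ⟨i, rfl⟩
  simp only
  rw [dif_pos h]
  have h1 := h.choose_spec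
  have h2 := e.injective h1
  rw [Subtype.mk.injEq] at h2
  rw [h2]

/-- **Few values.** -/
theorem few_values_full (hd : 2 ≤ d) {V ν T : ℝ} (hV : 0 < V) (hν : 0 < ν)
    (hT : ∀ h : Matrix (Fin d) (Fin d) ℝ, |h.det| = V →
      ∃ m : Fin d → ℤ, m ≠ 0 ∧ |FF h (iR m)| < T) :
    ∃ κ : ℝ, 0 < κ ∧ ∃ C : ℝ, 0 < C ∧ ∀ g : Matrix (Fin d) (Fin d) ℝ, |g.det| = V → HasNu g ν →
      ∀ G : ℝ, (∀ i j, |g⁻¹ i j| ≤ G) → ∀ N : ℕ, C * (1 + G) ^ 2 ≤ N →
      ((VN g T N).ncard : ℝ) ^ (d ^ 2 - d) < κ * Real.log N ^ (d - d / d.minFac) →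
      ∃ (δ : Matrix (Fin d) (Fin d) ℤ) (c : Fin d → ℝ), Function.Injective c ∧
        Irreducible (δ.charpoly.map (Int.castRingHom ℚ)) ∧
        g * zR δ = diagonal c * g ∧ IsUnit δ.det ∧ (∀ i, 0 < c i) ∧
        (∀ i, c i ≤ 3 * Real.sqrt N) ∧ ∀ i, (c i)⁻¹ ≤ 3 * Real.sqrt N := by
  classical
  have hd0 : 0 < d := by omega
  obtain ⟨t₀, C, hC, hpig⟩ := pigeon hd hV hν hT
  set m : ℕ := d / d.minFac with hm
  have hm0 : 0 < m := div_minFac_pos hd0
  have hmd : m ≤ d := Nat.div_le_self _ _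
  have hmlt : m < d := Nat.div_lt_self hd0 (Nat.minFac_prime (by omega)).one_lt
  have hpos := exists_positions hd0 hm0 hmd (Real.log 3)
  generalize hr : d - m = r at hpos ⊢
  have hr0 : r ≠ 0 := by omega
  obtain ⟨u, husum, hu⟩ := hpos
  set B : ℝ := 1 + ∑ j, ∑ i, |u j i| with hB
  have hBnn : 0 ≤ ∑ j, ∑ i, |u j i| := Finset.sum_nonneg fun _ _ => Finset.sum_nonneg fun _ _ =>
    abs_nonneg _
  have hB0 : 0 < B := by linarith
  have hBe : ∀ i, ∑ j, |u j i| ≤ B := by
    intro i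
    have h1 : ∑ j, |u j i| ≤ ∑ j, ∑ i, |u j i| :=
      Finset.sum_le_sum fun j _ => Finset.single_le_sum (f := fun i => |u j i|)
        (fun _ _ => abs_nonneg _) (Finset.mem_univ i)
    linarith
  refine ⟨1 / ((2 * B) ^ r * (t₀ + 1)), by positivity, C + 1, by positivity, ?_⟩
  intro g hgV hnu G hG N hN hlt
  have hG0 : 0 ≤ G := (abs_nonneg _).trans (hG ⟨0, hd0⟩ ⟨0, hd0⟩)
  have hsq1 : 1 ≤ (1 + G) ^ 2 := by nlinarith
  have hNC : C * (1 + G) ^ 2 ≤ N := by nlinarith
  have hN1 : (1 : ℝ) ≤ N := by nlinarith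
  have hN0 : (0 : ℝ) < N := by linarith
  have hlogN : 0 ≤ Real.log N := Real.log_nonneg hN1
  have hg : g.det ≠ 0 := by
    intro h0
    rw [h0, abs_zero] at hgV
    exact hV.ne hgV
  set K : ℕ := ⌊Real.log N / (2 * B)⌋₊ with hK
  have hKB : (K : ℝ) * B ≤ Real.log N / 2 := by
    have h1 : (K : ℝ) ≤ Real.log N / (2 * B) := Nat.floor_le (by positivity)
    calc (K : ℝ) * B ≤ Real.log N / (2 * B) * B := mul_le_mul_of_nonneg_right h1 hB0.le
      _ = Real.log N / 2 := by field_simp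
  have hcomb : ∀ (e : Fin r → ℝ), (∀ j, |e j| ≤ K) → ∀ i, |∑ j, e j * u j i| ≤ Real.log N / 2 := by
    intro e he i
    refine (Finset.abs_sum_le_sum_abs _ _).trans (le_trans ?_ hKB)
    calc ∑ j, |e j * u j i| ≤ ∑ j, (K : ℝ) * |u j i| := Finset.sum_le_sum fun j _ => by
          rw [abs_mul]
          exact mul_le_mul_of_nonneg_right (he j) (abs_nonneg _)
      _ = K * ∑ j, |u j i| := (Finset.mul_sum _ _ _).symm
      _ ≤ K * B := mul_le_mul_of_nonneg_left (hBe i) (Nat.cast_nonneg _)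
  set φ : (Fin r → Fin (K + 1)) → Fin d → ℝ := fun z i => ∑ j, ((z j : ℕ) : ℝ) * u j i with hφ
  obtain ⟨z, z', hzz, δ, b, hb, hrel, hunit⟩ := hpig g hgV hnu G hG N hNC
    (Fin r → Fin (K + 1)) φ (fun z => by
      simp only [hφ]
      rw [Finset.sum_comm]
      exact Finset.sum_eq_zero fun j _ => by rw [← Finset.mul_sum, husum j, mul_zero])
    (fun z i => by
      refine hcomb (fun j => ((z j : ℕ) : ℝ)) (fun j => ?_) i
      rw [abs_of_nonneg (Nat.cast_nonneg _)]
      exact_mod_cast Nat.lt_succ_iff.1 (z j).2)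
    (by
      rw [Fintype.card_fun, Fintype.card_fin, Fintype.card_fin]
      have h0 : Real.log N / (2 * B) < K + 1 := Nat.lt_floor_add_one _
      have h1 : (t₀ : ℝ) * ((VN g T N).ncard : ℝ) ^ (d ^ 2 - d) < ((K : ℝ) + 1) ^ r := by
        refine lt_of_le_of_lt ?_ (pow_lt_pow_left₀ h0 (by positivity) hr0)
        have h3 : (t₀ : ℝ) * ((VN g T N).ncard : ℝ) ^ (d ^ 2 - d) ≤
            t₀ * (1 / ((2 * B) ^ r * (t₀ + 1)) * Real.log N ^ r) :=
          mul_le_mul_of_nonneg_left hlt.le (Nat.cast_nonneg _)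
        refine h3.trans ?_
        have h4 : (t₀ : ℝ) * (1 / ((2 * B) ^ r * (t₀ + 1)) * Real.log N ^ r) =
            (t₀ / (t₀ + 1)) * (Real.log N / (2 * B)) ^ r := by
          rw [div_pow]
          field_simp
        rw [h4]
        refine mul_le_of_le_one_left (by positivity) ?_
        rw [div_le_one (by positivity)]
        linarith
      exact_mod_cast h1)
  set e : Fin r → ℤ := fun j => ((z j : ℕ) : ℤ) - ((z' j : ℕ) : ℤ) with he
  have he0 : e ≠ 0 := by
    intro h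
    apply hzz
    funext j
    have h1 := congrFun h j
    simp only [he, Pi.zero_apply] at h1
    exact Fin.ext (by omega)
  have heK : ∀ j, |(e j : ℝ)| ≤ K := by
    intro j
    have h1 := Nat.lt_succ_iff.1 (z j).2
    have h2 := Nat.lt_succ_iff.1 (z' j).2
    have h3 : |e j| ≤ (K : ℤ) := by
      simp only [he]
      rw [abs_le]
      constructor <;> omega
    exact_mod_cast h3
  have hφe : ∀ i, φ z i - φ z' i = ∑ j, (e j : ℝ) * u j i := by
    intro i
    simp only [hφ, he]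
    rw [← Finset.sum_sub_distrib]
    refine Finset.sum_congr rfl fun j _ => ?_
    push_cast
    ring
  set c : Fin d → ℝ := fun i => b i * Real.exp (φ z i - φ z' i) with hc
  have hb0 : ∀ i, 0 < b i := fun i => by linarith [(hb i).1]
  have hc0 : ∀ i, 0 < c i := fun i => mul_pos (hb0 i) (Real.exp_pos _)
  have hlb : ∀ i, |Real.log (b i)| < Real.log 3 := by
    intro i
    rw [abs_lt]
    constructor
    · rw [← Real.log_inv]
      exact Real.log_lt_log (by norm_num) (by rw [← one_div]; exact (hb i).1)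
    · exact Real.log_lt_log (hb0 i) (hb i).2
  obtain ⟨D, hDd, hcard, hfin⟩ := automorph_structure hd0 hg hν hnu hrel
  have hDeq : D = d := by
    by_contra hne
    have hDm : D ≤ m := le_div_minFac hd0 hDd hne
    obtain ⟨f, w, hw⟩ := exists_factor_fin (hcard.trans hDm)
    obtain ⟨i, hi⟩ := hu e he0 f w
    rw [hw i, ← hφe, Real.log_mul (hb0 i).ne' (Real.exp_pos _).ne', Real.log_exp] at hi
    have h1 : φ z i - φ z' i - (Real.log (b i) + (φ z i - φ z' i)) = -Real.log (b i) := by ring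
    rw [h1, abs_neg] at hi
    exact absurd (hlb i) (not_lt.2 hi)
  obtain ⟨hirr, hcinj⟩ := hfin hDeq
  have hexpb : ∀ i, Real.exp (φ z i - φ z' i) ≤ Real.sqrt N ∧
      Real.exp (-(φ z i - φ z' i)) ≤ Real.sqrt N := by
    intro i
    have h1 : |φ z i - φ z' i| ≤ Real.log N / 2 := by
      rw [hφe]
      exact hcomb (fun j => (e j : ℝ)) heK i
    have h3 : Real.sqrt N = Real.exp (Real.log N / 2) := by
      rw [Real.sqrt_eq_rpow, Real.rpow_def_of_pos hN0]
      congr 1
      ring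
    rw [h3, Real.exp_le_exp, Real.exp_le_exp]
    exact ⟨(abs_le.1 h1).2, by linarith [(abs_le.1 h1).1]⟩
  refine ⟨δ, c, hcinj, hirr, hrel, hunit, hc0, fun i => ?_, fun i => ?_⟩
  · exact mul_le_mul (hb i).2.le (hexpb i).1 (Real.exp_pos _).le (by norm_num)
  · have h2 : (b i)⁻¹ ≤ 3 := by
      rw [inv_le_comm₀ (hb0 i) (by norm_num)]
      have := (hb i).1
      linarith
    simp only [hc]
    rw [mul_inv, ← Real.exp_neg]
    exact mul_le_mul h2 (hexpb i).2 (Real.exp_pos _).le (by norm_num)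

end Pool.Agent.N759.FV
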