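import Mathlib
import Pool.Agent.N759.FV.Full

/-! # A small matrix with irreducible characteristic polynomial, or many small values -/

open Filter Topology Matrix H715R2

namespace Pool.Agent.N759.FV

open Pool.Agent.W777.FV Pool.Agent.N759.UC

variable {d : ℕ}

/-- **Dichotomy.** -/
theorem dichotomy2 (hd : 3 ≤ d) {V ν T : ℝ} (hV : 0 < V) (hν : 0 < ν)
    (hT : (d.factorial : ℝ) * V < (d : ℝ) ^ d * T ∨
      ∀ h : Matrix (Fin d) (Fin d) ℝ, |h.det| = V →
        ∃ m : Fin d → ℤ, m ≠ 0 ∧ |FF h (iR m)| < T) :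
    ∃ κ : ℝ, 0 < κ ∧ ∃ x₀ : ℝ, ∀ g : Matrix (Fin d) (Fin d) ℝ, |g.det| = V → HasNu g ν →
      ∀ x : ℝ, x₀ ≤ x → Small g x ∨ ∀ a : Fin d → ℝ, (∀ i, 0 < a i) → ∏ i, a i = 1 →
        ∃ E : Finset ℝ, κ * x ^ (((d.minFac : ℝ) - 1) / (d.minFac * ((d : ℝ) - 1))) ≤ E.card ∧
          ∀ t ∈ E, ∃ p : Fin d → ℤ, p ≠ 0 ∧ (∀ i, |a i * (g *ᵥ iR p) i| ≤ Real.exp x) ∧
            |FF g (iR p)| = t ∧ t < T := by
  classical
  have hd0 : 0 < d := by omega
  have hT' : ∀ h : Matrix (Fin d) (Fin d) ℝ, |h.det| = V →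
      ∃ m : Fin d → ℤ, m ≠ 0 ∧ |FF h (iR m)| < T := by
    rcases hT with hT | hT
    · exact fun h hh => mink_prod (by omega) V T hV hT h hh
    · exact hT
  obtain ⟨κ₀, hκ₀, C, hC, hfew⟩ := few_values_full (by omega : 2 ≤ d) hV hν hT'
  obtain ⟨R, hR⟩ := exists_bound hd0 V ν hV hν
  set R1 : ℝ := max R 1 with hR1
  have hR11 : 1 ≤ R1 := le_max_right _ _
  set G₀ : ℝ := V⁻¹ * (d.factorial * R1 ^ d) with hG₀
  have hG₀0 : 0 ≤ G₀ := by positivity
  set M₁ : ℝ := C * (1 + G₀) ^ 2 with hM₁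
  have hM₁0 : 0 ≤ M₁ := by positivity
  set e : ℕ := d * (d - 1) / 2 with he
  set θ : ℝ := 1 / (e + 1 + 1) with hθ
  have hθ0 : 0 < θ := by positivity
  have hθ1 : θ ≤ 1 / 2 := by
    rw [hθ]
    apply one_div_le_one_div_of_le (by norm_num)
    have : (0 : ℝ) ≤ e := Nat.cast_nonneg e
    linarith
  have hθe : θ * e ≤ 1 := by
    rw [hθ, one_div, inv_mul_le_iff₀ (by positivity)]
    linarith
  set Q : ℝ := M₁ + 1 + 3 + 3 ^ e / V + d * R1 + 2 with hQ
  have h3V : 0 ≤ (3 : ℝ) ^ e / V := by positivity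
  have hdR : 0 ≤ (d : ℝ) * R1 := by positivity
  have hQ1 : 1 ≤ Q := by linarith
  set D : ℕ := d ^ 2 - d with hD
  set Rk : ℕ := d - d / d.minFac with hRk
  have hd1 : (1 : ℝ) < d := by exact_mod_cast (by omega : 1 < d)
  have hDR : (D : ℝ) = (d : ℝ) ^ 2 - d := by
    have h1 : d ≤ d ^ 2 := by nlinarith
    rw [hD]
    push_cast [Nat.cast_sub h1]
    ring
  have hD0 : (D : ℝ) ≠ 0 := by
    rw [hDR]
    nlinarith
  have hexpo : (Rk : ℝ) * (1 / D) = ((d.minFac : ℝ) - 1) / (d.minFac * ((d : ℝ) - 1)) := by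
    have hp0 : (0 : ℝ) < d.minFac := by exact_mod_cast Nat.minFac_pos d
    have hmd : d / d.minFac * d.minFac = d := Nat.div_mul_cancel (Nat.minFac_dvd d)
    have hmdR : ((d / d.minFac : ℕ) : ℝ) * d.minFac = d := by exact_mod_cast hmd
    have hRR : (Rk : ℝ) = d - ((d / d.minFac : ℕ) : ℝ) := by
      rw [hRk, Nat.cast_sub (Nat.div_le_self _ _)]
    rw [hRR, hDR]
    have hd0' : (d : ℝ) - 1 ≠ 0 := by linarith
    have hdd : (d : ℝ) ^ 2 - d ≠ 0 := by nlinarith
    rw [mul_one_div, div_eq_div_iff hdd (mul_ne_zero hp0.ne' hd0')]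
    linear_combination (-((d : ℝ) - 1)) * hmdR
  refine ⟨(κ₀ * (θ / 2) ^ Rk) ^ (1 / (D : ℝ)) / 2, by positivity, 2 / θ * Real.log Q, ?_⟩
  intro g hgV hnu x hx
  have hg : g.det ≠ 0 := by
    intro h0
    rw [h0, abs_zero] at hgV
    exact hV.ne hgV
  have hlogQ : 0 ≤ Real.log Q := Real.log_nonneg hQ1
  have hx0 : 0 ≤ x := le_trans (by positivity) hx
  have hQx : Q ≤ Real.exp (θ * x / 2) := by
    rw [← Real.exp_log (by linarith : 0 < Q), Real.exp_le_exp]
    have h1 : θ / 2 * (2 / θ * Real.log Q) ≤ θ / 2 * x :=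
      mul_le_mul_of_nonneg_left hx (by positivity)
    have h2 : θ / 2 * (2 / θ * Real.log Q) = Real.log Q := by field_simp
    linarith
  have hQx2 : Q ≤ Real.exp (x / 2) := hQx.trans (Real.exp_le_exp.2 (by nlinarith))
  set N : ℕ := ⌊Real.exp (θ * x)⌋₊ with hN
  have hN1 : (N : ℝ) ≤ Real.exp (θ * x) := Nat.floor_le (Real.exp_pos _).le
  have hN2 : Real.exp (θ * x) < N + 1 := Nat.lt_floor_add_one _
  have hsq : Real.exp (θ * x) = Real.exp (θ * x / 2) * Real.exp (θ * x / 2) := by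
    rw [← Real.exp_add]; congr 1; ring
  have hN3 : Real.exp (θ * x / 2) ≤ N := by
    have h1 : Real.exp (θ * x / 2) * 2 ≤ Real.exp (θ * x / 2) * Real.exp (θ * x / 2) :=
      mul_le_mul_of_nonneg_left (by linarith) (Real.exp_pos _).le
    linarith
  have hNM : C * (1 + G₀) ^ 2 ≤ N := by
    rw [← hM₁]
    linarith
  have hN0 : (0 : ℝ) < N := (Real.exp_pos _).trans_le hN3
  have hlogN : θ * x / 2 ≤ Real.log N := by
    rw [Real.le_log_iff_exp_le hN0]
    exact hN3
  have hsqrt : Real.sqrt N ≤ Real.exp (θ * x / 2) := by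
    rw [Real.sqrt_le_left (Real.exp_pos _).le, sq, ← hsq]
    exact hN1
  have hsqrt0 : 0 < Real.sqrt N := Real.sqrt_pos.2 hN0
  have hexpx : Real.exp x = Real.exp (x / 2) * Real.exp (x / 2) := by
    rw [← Real.exp_add]; congr 1; ring
  have h3x : 3 * Real.sqrt N ≤ Real.exp x := by
    rw [hexpx]
    refine mul_le_mul (by linarith) (hsqrt.trans (Real.exp_le_exp.2 (by nlinarith)))
      (Real.sqrt_nonneg _) (Real.exp_pos _).le
  have hVe : (3 * Real.sqrt N) ^ e ≤ V * Real.exp x := by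
    rw [mul_pow, hexpx]
    have h1 : Real.sqrt N ^ e ≤ Real.exp (x / 2) := by
      calc Real.sqrt N ^ e ≤ Real.exp (θ * x / 2) ^ e :=
            pow_le_pow_left₀ (Real.sqrt_nonneg _) hsqrt _
        _ = Real.exp (e * (θ * x / 2)) := (Real.exp_nat_mul _ _).symm
        _ ≤ Real.exp (x / 2) := by
            rw [Real.exp_le_exp]
            nlinarith
    have h2 : (3 : ℝ) ^ e ≤ V * Real.exp (x / 2) := by
      have h3 : (3 : ℝ) ^ e / V ≤ Real.exp (x / 2) := by linarith
      rw [div_le_iff₀ hV] at h3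
      linarith
    calc (3 : ℝ) ^ e * Real.sqrt N ^ e ≤ (V * Real.exp (x / 2)) * Real.exp (x / 2) :=
          mul_le_mul h2 h1 (by positivity) (by positivity)
      _ = _ := by ring
  by_contra hcon
  rw [not_or] at hcon
  obtain ⟨hsmall, hcon⟩ := hcon
  push Not at hcon
  obtain ⟨a, ha0, ha1, hE⟩ := hcon
  -- reduction
  have hag : |(diagonal a * g).det| = V := by
    rw [Matrix.det_mul, Matrix.det_diagonal, ha1, one_mul]
    exact hgV
  have hagnu : HasNu (diagonal a * g) ν := fun m hm => by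
    rw [FF_diag_mul, ha1, one_mul]
    exact hnu m hm
  obtain ⟨γ, hγ, hγR⟩ := hR _ hag hagnu
  set g' : Matrix (Fin d) (Fin d) ℝ := diagonal a * g * zR γ with hg'
  have horb : g' ∈ Orb g := ⟨a, γ, ha0, ha1, hγ, rfl⟩
  have hg'V : |g'.det| = V := (abs_det_orb horb).trans hgV
  have hg'nu : HasNu g' ν := hasNu_orb hnu horb
  have hg'inv : ∀ i j, |g'⁻¹ i j| ≤ G₀ := by
    intro i j
    have h1 := Pool.Agent.N759.NV.inv_bound g' hγR i j
    rw [hg'V] at h1
    exact h1
  have hlt : ¬ ((VN g' T N).ncard : ℝ) ^ (d ^ 2 - d) < κ₀ * Real.log N ^ (d - d / d.minFac) := by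
    intro hlt
    apply hsmall
    obtain ⟨δ, c, hc, -, hrel, hδu, hcpos, hc1, hc2⟩ := hfew g' hg'V hg'nu G₀ hg'inv N hNM hlt
    have hrel' : g * zR (γ * δ * γ⁻¹) = diagonal c * g := by
      have h1 : diagonal (fun i => (a i)⁻¹) * diagonal a = (1 : Matrix (Fin d) (Fin d) ℝ) := by
        rw [diagonal_mul_diagonal, ← diagonal_one]
        congr 1
        funext i
        exact inv_mul_cancel₀ (ha0 i).ne'
      have h2 : g = diagonal (fun i => (a i)⁻¹) * g' * zR γ⁻¹ := by
        rw [hg', Matrix.mul_assoc, Matrix.mul_assoc (diagonal a * g), zR_inv hγ, Matrix.mul_one,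
          ← Matrix.mul_assoc, h1, Matrix.one_mul]
      calc g * zR (γ * δ * γ⁻¹)
          = diagonal (fun i => (a i)⁻¹) * g' * (zR γ⁻¹ * zR γ) * zR δ * zR γ⁻¹ := by
            conv_lhs => rw [h2]
            rw [zR_mul, zR_mul]
            simp only [Matrix.mul_assoc]
        _ = diagonal (fun i => (a i)⁻¹) * (g' * zR δ) * zR γ⁻¹ := by
            rw [zR_inv' hγ, Matrix.mul_one, Matrix.mul_assoc (diagonal fun i => (a i)⁻¹)]
        _ = diagonal c * (diagonal (fun i => (a i)⁻¹) * g' * zR γ⁻¹) := by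
            rw [hrel]
            simp only [← Matrix.mul_assoc, diagonal_mul_diagonal]
            congr 3
            funext i
            ring
        _ = diagonal c * g := by rw [← h2]
    set A : Matrix (Fin d) (Fin d) ℤ := γ * δ * γ⁻¹ with hA
    have hAu : IsUnit A.det := by
      rw [hA, det_mul, det_mul]
      refine (hγ.mul hδu).mul ?_
      rw [Matrix.det_nonsing_inv]
      exact hγ.ringInverse
    have hAdet : A.det = 1 := by
      have h1 := congrArg Matrix.det hrel'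
      rw [det_mul, det_mul, det_diagonal, det_zR, mul_comm] at h1
      have h2 := mul_right_cancel₀ hg h1
      have h3 : 0 < ∏ i, c i := Finset.prod_pos fun i _ => hcpos i
      rw [← h2] at h3
      have h4 : 0 < A.det := by exact_mod_cast h3
      rcases Int.isUnit_iff.1 hAu with h5 | h5
      · exact h5
      · omega
    have hvand : (Matrix.vandermonde c).det ≠ 0 := Matrix.det_vandermonde_ne_zero_iff.2 hc
    have hvb : |(Matrix.vandermonde c).det| ≤ (3 * Real.sqrt N) ^ e :=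
      vandermonde_bound fun i => ⟨hcpos i, hc1 i⟩
    refine ⟨A, c, |g.det| / |(Matrix.vandermonde c).det|, hAdet,
      automorph_irreducible hd0 hν hnu hc hrel', hc, fun i => ⟨?_, (hc1 i).trans h3x⟩, hrel', ?_,
      fun p => ?_⟩
    · rw [Real.exp_neg, inv_le_comm₀ (Real.exp_pos _) (hcpos i)]
      exact (hc2 i).trans h3x
    · rw [le_div_iff₀ (abs_pos.2 hvand), Real.exp_neg, inv_mul_le_iff₀ (Real.exp_pos _), hgV]
      linarith
    · have h1 := values_multiple hrel' p
      set k : ℤ := (Matrix.of fun i (s : Fin d) => ((A ^ (s : ℕ)) *ᵥ p) i : Matrix _ _ ℤ).det with hk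
      have h2 : FF g (iR p) = g.det / (Matrix.vandermonde c).det * k := by
        rw [div_mul_eq_mul_div, eq_div_iff hvand]
        exact h1
      rw [h2, ← abs_div]
      rcases abs_choice (g.det / (Matrix.vandermonde c).det) with h3 | h3
      · exact ⟨k, by rw [h3]⟩
      · exact ⟨-k, by rw [h3]; push_cast; ring⟩
  push Not at hlt
  -- many values
  set VF : Finset ℝ := (finite_VN g' T N).toFinset with hVF
  have hVcard : VF.card = (VN g' T N).ncard := by
    rw [hVF, Set.ncard_eq_toFinset_card _ (finite_VN g' T N)]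
  set E : Finset ℝ := VF.image fun t => |t| with hEdef
  have hcard : VF.card ≤ 2 * E.card := by
    have h1 : VF ⊆ E ∪ E.image fun t => -t := by
      intro t ht
      rw [Finset.mem_union]
      have h2 : |t| ∈ E := Finset.mem_image_of_mem _ ht
      rcases abs_choice t with h3 | h3
      · left; rwa [h3] at h2
      · right
        refine Finset.mem_image.2 ⟨|t|, h2, ?_⟩
        rw [h3, neg_neg]
    refine (Finset.card_le_card h1).trans ((Finset.card_union_le _ _).trans ?_)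
    have h2 := Finset.card_image_le (s := E) (f := fun t => -t)
    omega
  obtain ⟨t, htE, ht⟩ := hE E (by
    have h1 : κ₀ * (θ / 2) ^ Rk * x ^ Rk ≤ ((VF.card : ℕ) : ℝ) ^ D := by
      rw [hVcard]
      refine le_trans ?_ hlt
      rw [mul_assoc, ← mul_pow]
      refine mul_le_mul_of_nonneg_left (pow_le_pow_left₀ (by positivity) ?_ _) hκ₀.le
      linarith
    have h2 : (κ₀ * (θ / 2) ^ Rk * x ^ Rk) ^ (1 / (D : ℝ)) ≤ (VF.card : ℝ) := by
      calc (κ₀ * (θ / 2) ^ Rk * x ^ Rk) ^ (1 / (D : ℝ)) ≤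
            (((VF.card : ℕ) : ℝ) ^ D) ^ (1 / (D : ℝ)) :=
            Real.rpow_le_rpow (by positivity) h1 (by positivity)
        _ = VF.card := by
            rw [← Real.rpow_natCast, ← Real.rpow_mul (Nat.cast_nonneg _), mul_one_div, div_self hD0,
              Real.rpow_one]
    rw [Real.mul_rpow (by positivity) (pow_nonneg hx0 _), ← Real.rpow_natCast x Rk,
      ← Real.rpow_mul hx0, hexpo] at h2
    have h3 : ((VF.card : ℕ) : ℝ) ≤ 2 * E.card := by exact_mod_cast hcard
    linarith)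
  obtain ⟨s, hs, rfl⟩ := Finset.mem_image.1 htE
  rw [hVF, Set.Finite.mem_toFinset] at hs
  obtain ⟨p, hp, hpN, hps, hsT⟩ := hs
  have hFp : FF g (iR (γ *ᵥ p)) = s := by
    rw [← hps, hg', FF_orb ha1]
  refine absurd hsT (not_lt.2 (ht (γ *ᵥ p) ?_ ?_ (by rw [hFp])))
  · intro h0
    apply hp
    have h3 : (γ)⁻¹ *ᵥ (γ *ᵥ p) = 0 := by rw [h0, mulVec_zero]
    rwa [mulVec_mulVec, Matrix.nonsing_inv_mul _ hγ, one_mulVec] at h3
  · intro i
    have h1 : a i * (g *ᵥ iR (γ *ᵥ p)) i = (g' *ᵥ iR p) i := by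
      rw [hg', ← mulVec_mulVec, zR_mulVec_iR, ← mulVec_mulVec, mulVec_diagonal]
    rw [h1, mulVec, dotProduct]
    refine (Finset.abs_sum_le_sum_abs _ _).trans ?_
    have h2 : ∑ k, |g' i k * iR p k| ≤ ∑ _k : Fin d, R1 * N := by
      refine Finset.sum_le_sum fun k _ => ?_
      rw [abs_mul]
      refine mul_le_mul ((hγR i k).trans (le_max_left _ _)) ?_ (abs_nonneg _) (by linarith)
      have h3 : |(p k : ℝ)| ≤ N := by exact_mod_cast hpN k
      exact h3
    refine h2.trans ?_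
    rw [Finset.sum_const, Finset.card_univ, Fintype.card_fin, nsmul_eq_mul, ← mul_assoc, hexpx]
    refine mul_le_mul (by linarith) (hN1.trans (Real.exp_le_exp.2 (by nlinarith)))
      (Nat.cast_nonneg _) (Real.exp_pos _).le

end Pool.Agent.N759.FV
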