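import Mathlib
import Pool.Agent.N759.FV.Dicho

/-! # Small values and automorphs -/

open Filter Topology Matrix H715R2

namespace Pool.Agent.N759.FV

open Pool.Agent.W777.FV Pool.Agent.N759.UC

variable {d : ℕ}

/-- **Few values, many automorphs.** -/
theorem aut_values (hd : 2 ≤ d) {V ν T : ℝ} (hV : 0 < V) (hν : 0 < ν)
    (hT : ∀ h : Matrix (Fin d) (Fin d) ℝ, |h.det| = V →
      ∃ m : Fin d → ℤ, m ≠ 0 ∧ |FF h (iR m)| < T) :
    ∃ κ : ℝ, 0 < κ ∧ ∃ C : ℝ, 0 < C ∧ ∀ g : Matrix (Fin d) (Fin d) ℝ, |g.det| = V → HasNu g ν →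
      ∀ G : ℝ, (∀ i j, |g⁻¹ i j| ≤ G) → ∀ N : ℕ, C * (1 + G) ^ 2 ≤ N →
      ∃ A : Finset (Fin d → ℝ),
        κ * Real.log N ^ (d - 1) ≤ A.card * ((VN g T N).ncard : ℝ) ^ (d ^ 2 - d) ∧
        ∀ c ∈ A, (∃ δ : Matrix (Fin d) (Fin d) ℤ, IsUnit δ.det ∧ g * zR δ = diagonal c * g) ∧
          ∀ i, 0 < c i ∧ c i ≤ 3 * Real.sqrt N ∧ (c i)⁻¹ ≤ 3 * Real.sqrt N := by
  classical
  have hd0 : 0 < d := by omega
  obtain ⟨t₀, C, hC, hfib⟩ := fibre hd hV hν hT
  have hpos := exists_positions (m := 1) hd0 one_pos (by omega) (Real.log 9)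
  generalize hr : d - 1 = r at hpos ⊢
  have hr0 : r ≠ 0 := by omega
  obtain ⟨u, husum, hu⟩ := hpos
  set B : ℝ := 1 + ∑ j, ∑ i, |u j i| with hB
  have hBnn : 0 ≤ ∑ j, ∑ i, |u j i| := Finset.sum_nonneg fun _ _ => Finset.sum_nonneg fun _ _ =>
    abs_nonneg _
  have hB0 : 0 < B := by linarith
  have hBe : ∀ i, ∑ j, |u j i| ≤ B := by
    intro i
    have h1 : ∑ j, |u j i| ≤ ∑ j, ∑ i, |u j i| :=
      Finset.sum_le_sum fun j _ => Finset.single_le_sum (f := fun i => |u j i|)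
        (fun _ _ => abs_nonneg _) (Finset.mem_univ i)
    linarith
  refine ⟨1 / ((2 * B) ^ r * (t₀ + 1)), by positivity, C + 1, by positivity, ?_⟩
  intro g hgV hnu G hG N hN
  have hG0 : 0 ≤ G := (abs_nonneg _).trans (hG ⟨0, hd0⟩ ⟨0, hd0⟩)
  have hsq1 : 1 ≤ (1 + G) ^ 2 := by nlinarith
  have hNC : C * (1 + G) ^ 2 ≤ N := by nlinarith
  have hN1 : (1 : ℝ) ≤ N := by nlinarith
  have hN0 : (0 : ℝ) < N := by linarith
  have hlogN : 0 ≤ Real.log N := Real.log_nonneg hN1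
  set K : ℕ := ⌊Real.log N / (2 * B)⌋₊ with hK
  have hKB : (K : ℝ) * B ≤ Real.log N / 2 := by
    have h1 : (K : ℝ) ≤ Real.log N / (2 * B) := Nat.floor_le (by positivity)
    calc (K : ℝ) * B ≤ Real.log N / (2 * B) * B := mul_le_mul_of_nonneg_right h1 hB0.le
      _ = Real.log N / 2 := by field_simp
  have hcomb : ∀ (e : Fin r → ℝ), (∀ j, |e j| ≤ K) → ∀ i, |∑ j, e j * u j i| ≤ Real.log N / 2 := by
    intro e he i
    refine (Finset.abs_sum_le_sum_abs _ _).trans (le_trans ?_ hKB)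
    calc ∑ j, |e j * u j i| ≤ ∑ j, (K : ℝ) * |u j i| := Finset.sum_le_sum fun j _ => by
          rw [abs_mul]
          exact mul_le_mul_of_nonneg_right (he j) (abs_nonneg _)
      _ = K * ∑ j, |u j i| := (Finset.mul_sum _ _ _).symm
      _ ≤ K * B := mul_le_mul_of_nonneg_left (hBe i) (Nat.cast_nonneg _)
  set φ : (Fin r → Fin (K + 1)) → Fin d → ℝ := fun z i => ∑ j, ((z j : ℕ) : ℝ) * u j i with hφ
  obtain ⟨Z, z₀, hZ, haut⟩ := hfib g hgV hnu G hG N hNC
    (Fin r → Fin (K + 1)) φ (fun z => by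
      simp only [hφ]
      rw [Finset.sum_comm]
      exact Finset.sum_eq_zero fun j _ => by rw [← Finset.mul_sum, husum j, mul_zero])
    (fun z i => by
      refine hcomb (fun j => ((z j : ℕ) : ℝ)) (fun j => ?_) i
      rw [abs_of_nonneg (Nat.cast_nonneg _)]
      exact_mod_cast Nat.lt_succ_iff.1 (z j).2)
  choose! δ b hb hrel hunit using haut
  have heK : ∀ z z' : Fin r → Fin (K + 1), ∀ j,
      |((((z j : ℕ) : ℤ) - ((z' j : ℕ) : ℤ) : ℤ) : ℝ)| ≤ K := by
    intro z z' j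
    have h1 := Nat.lt_succ_iff.1 (z j).2
    have h2 := Nat.lt_succ_iff.1 (z' j).2
    have h3 : |((z j : ℕ) : ℤ) - ((z' j : ℕ) : ℤ)| ≤ (K : ℤ) := by
      rw [abs_le]
      constructor <;> omega
    exact_mod_cast h3
  have hφe : ∀ z z' : Fin r → Fin (K + 1), ∀ i, φ z i - φ z' i =
      ∑ j, ((((z j : ℕ) : ℤ) - ((z' j : ℕ) : ℤ) : ℤ) : ℝ) * u j i := by
    intro z z' i
    simp only [hφ]
    rw [← Finset.sum_sub_distrib]
    refine Finset.sum_congr rfl fun j _ => ?_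
    push_cast
    ring
  have hexpb : ∀ z z' : Fin r → Fin (K + 1), ∀ i, Real.exp (φ z i - φ z' i) ≤ Real.sqrt N ∧
      Real.exp (-(φ z i - φ z' i)) ≤ Real.sqrt N := by
    intro z z' i
    have h1 : |φ z i - φ z' i| ≤ Real.log N / 2 := by
      rw [hφe]
      exact hcomb _ (heK z z') i
    have h3 : Real.sqrt N = Real.exp (Real.log N / 2) := by
      rw [Real.sqrt_eq_rpow, Real.rpow_def_of_pos hN0]
      congr 1
      ring
    rw [h3, Real.exp_le_exp, Real.exp_le_exp]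
    exact ⟨(abs_le.1 h1).2, by linarith [(abs_le.1 h1).1]⟩
  have hlb : ∀ z ∈ Z, ∀ i, |Real.log (b z i)| < Real.log 3 := by
    intro z hz i
    have h1 := hb z hz i
    have h0 : 0 < b z i := by linarith
    rw [abs_lt]
    constructor
    · rw [← Real.log_inv]
      exact Real.log_lt_log (by norm_num) (by rw [← one_div]; exact h1.1)
    · exact Real.log_lt_log h0 h1.2
  set cf : (Fin r → Fin (K + 1)) → Fin d → ℝ :=
    fun z i => b z i * Real.exp (φ z i - φ z₀ i) with hcf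
  have hinj : Set.InjOn cf (Z : Set (Fin r → Fin (K + 1))) := by
    intro z hz z' hz' heq
    by_contra hne
    have he0 : (fun j => ((z j : ℕ) : ℤ) - ((z' j : ℕ) : ℤ)) ≠ 0 := by
      intro h
      apply hne
      funext j
      have h1 := congrFun h j
      simp only [Pi.zero_apply] at h1
      exact Fin.ext (by omega)
    obtain ⟨i, hi⟩ := hu _ he0 (fun _ => 0) (fun _ => 0)
    rw [sub_zero, ← hφe] at hi
    have h1 := congrFun heq i
    simp only [hcf] at h1
    have hbz := hb z hz i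
    have hbz' := hb z' hz' i
    have h2 := congrArg Real.log h1
    rw [Real.log_mul (by linarith) (Real.exp_pos _).ne', Real.log_mul (by linarith)
      (Real.exp_pos _).ne', Real.log_exp, Real.log_exp] at h2
    have h3 : φ z i - φ z' i = Real.log (b z' i) - Real.log (b z i) := by linarith
    rw [h3] at hi
    have h4 := abs_sub (Real.log (b z' i)) (Real.log (b z i))
    have h5 := hlb z hz i
    have h6 := hlb z' hz' i
    have hl3 : Real.log 9 = 2 * Real.log 3 := by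
      rw [show (9 : ℝ) = 3 ^ 2 by norm_num, Real.log_pow]
      norm_num
    linarith
  refine ⟨Z.image cf, ?_, ?_⟩
  · rw [Finset.card_image_of_injOn hinj]
    rw [Fintype.card_fun, Fintype.card_fin, Fintype.card_fin] at hZ
    have hZR : ((K : ℝ) + 1) ^ r ≤ Z.card * (t₀ * ((VN g T N).ncard : ℝ) ^ (d ^ 2 - d)) := by
      exact_mod_cast hZ
    have h0 : Real.log N / (2 * B) ≤ K + 1 := (Nat.lt_floor_add_one _).le
    have h1 : (Real.log N / (2 * B)) ^ r ≤ ((K : ℝ) + 1) ^ r :=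
      pow_le_pow_left₀ (by positivity) h0 _
    have h2 : (Z.card : ℝ) * (t₀ * ((VN g T N).ncard : ℝ) ^ (d ^ 2 - d)) ≤
        (t₀ + 1) * (Z.card * ((VN g T N).ncard : ℝ) ^ (d ^ 2 - d)) := by
      have : 0 ≤ (Z.card : ℝ) * ((VN g T N).ncard : ℝ) ^ (d ^ 2 - d) := by positivity
      nlinarith
    have h3 : 1 / ((2 * B) ^ r * (t₀ + 1)) * Real.log N ^ r =
        (Real.log N / (2 * B)) ^ r / (t₀ + 1) := by
      rw [div_pow]
      field_simp
    rw [h3, div_le_iff₀ (by positivity)]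
    linarith
  · intro c hc
    obtain ⟨z, hz, rfl⟩ := Finset.mem_image.1 hc
    refine ⟨⟨δ z, hunit z hz, hrel z hz⟩, fun i => ?_⟩
    have h1 := hb z hz i
    have h0 : 0 < b z i := by linarith
    refine ⟨mul_pos h0 (Real.exp_pos _), ?_, ?_⟩
    · exact mul_le_mul h1.2.le (hexpb z z₀ i).1 (Real.exp_pos _).le (by norm_num)
    · have h2 : (b z i)⁻¹ ≤ 3 := by
        rw [inv_le_comm₀ h0 (by norm_num)]
        linarith
      simp only [hcf]
      rw [mul_inv, ← Real.exp_neg]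
      exact mul_le_mul h2 (hexpb z z₀ i).2 (Real.exp_pos _).le (by norm_num)

/-- **The number of small values and the number of automorphs.** -/
theorem tradeoff (hd : 3 ≤ d) {V ν T : ℝ} (hV : 0 < V) (hν : 0 < ν)
    (hT : (d.factorial : ℝ) * V < (d : ℝ) ^ d * T ∨
      ∀ h : Matrix (Fin d) (Fin d) ℝ, |h.det| = V →
        ∃ m : Fin d → ℤ, m ≠ 0 ∧ |FF h (iR m)| < T) :
    ∃ κ : ℝ, 0 < κ ∧ ∃ x₀ : ℝ, ∀ g : Matrix (Fin d) (Fin d) ℝ, |g.det| = V → HasNu g ν →
      ∀ x : ℝ, x₀ ≤ x → ∀ a : Fin d → ℝ, (∀ i, 0 < a i) → ∏ i, a i = 1 →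
        ∃ (E : Finset ℝ) (A : Finset (Fin d → ℝ)),
          κ * x ^ (d - 1) ≤ A.card * (E.card : ℝ) ^ (d ^ 2 - d) ∧
          (∀ t ∈ E, ∃ p : Fin d → ℤ, p ≠ 0 ∧ (∀ i, |a i * (g *ᵥ iR p) i| ≤ Real.exp x) ∧
            |FF g (iR p)| = t ∧ t < T) ∧
          ∀ c ∈ A, (∀ i, Real.exp (-x) ≤ c i ∧ c i ≤ Real.exp x) ∧
            ∃ M : Matrix (Fin d) (Fin d) ℤ, M.det = 1 ∧ g * zR M = diagonal c * g := by
  classical
  have hd0 : 0 < d := by omega
  have hT' : ∀ h : Matrix (Fin d) (Fin d) ℝ, |h.det| = V →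
      ∃ m : Fin d → ℤ, m ≠ 0 ∧ |FF h (iR m)| < T := by
    rcases hT with hT | hT
    · exact fun h hh => mink_prod (by omega) V T hV hT h hh
    · exact hT
  obtain ⟨κ₀, hκ₀, C, hC, hfew⟩ := aut_values (by omega : 2 ≤ d) hV hν hT'
  obtain ⟨R, hR⟩ := exists_bound hd0 V ν hV hν
  set R1 : ℝ := max R 1 with hR1
  have hR11 : 1 ≤ R1 := le_max_right _ _
  set G₀ : ℝ := V⁻¹ * (d.factorial * R1 ^ d) with hG₀
  have hG₀0 : 0 ≤ G₀ := by positivity
  set M₁ : ℝ := C * (1 + G₀) ^ 2 with hM₁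
  have hM₁0 : 0 ≤ M₁ := by positivity
  set Q : ℝ := M₁ + 1 + 3 + d * R1 + 2 with hQ
  have hdR : 0 ≤ (d : ℝ) * R1 := by positivity
  have hQ1 : 1 ≤ Q := by linarith
  set D : ℕ := d ^ 2 - d with hD
  refine ⟨κ₀ * (1 / 4) ^ (d - 1) / 2 ^ D, by positivity, 4 * Real.log Q, ?_⟩
  intro g hgV hnu x hx a ha0 ha1
  have hg : g.det ≠ 0 := by
    intro h0
    rw [h0, abs_zero] at hgV
    exact hV.ne hgV
  have hlogQ : 0 ≤ Real.log Q := Real.log_nonneg hQ1
  have hx0 : 0 ≤ x := le_trans (by positivity) hx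
  have hQx : Q ≤ Real.exp (x / 4) := by
    rw [← Real.exp_log (by linarith : 0 < Q), Real.exp_le_exp]
    linarith
  set N : ℕ := ⌊Real.exp (x / 2)⌋₊ with hN
  have hN1 : (N : ℝ) ≤ Real.exp (x / 2) := Nat.floor_le (Real.exp_pos _).le
  have hN2 : Real.exp (x / 2) < N + 1 := Nat.lt_floor_add_one _
  have hsq : Real.exp (x / 2) = Real.exp (x / 4) * Real.exp (x / 4) := by
    rw [← Real.exp_add]; congr 1; ring
  have hN3 : Real.exp (x / 4) ≤ N := by
    have h1 : Real.exp (x / 4) * 2 ≤ Real.exp (x / 4) * Real.exp (x / 4) :=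
      mul_le_mul_of_nonneg_left (by linarith) (Real.exp_pos _).le
    linarith
  have hNM : C * (1 + G₀) ^ 2 ≤ N := by
    rw [← hM₁]
    linarith
  have hN0 : (0 : ℝ) < N := (Real.exp_pos _).trans_le hN3
  have hlogN : 1 / 4 * x ≤ Real.log N := by
    rw [Real.le_log_iff_exp_le hN0]
    have : (1 : ℝ) / 4 * x = x / 4 := by ring
    rw [this]
    exact hN3
  have hsqrt : Real.sqrt N ≤ Real.exp (x / 4) := by
    rw [Real.sqrt_le_left (Real.exp_pos _).le, sq, ← hsq]
    exact hN1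
  have hexpx : Real.exp x = Real.exp (x / 2) * Real.exp (x / 2) := by
    rw [← Real.exp_add]; congr 1; ring
  have hx24 : Real.exp (x / 4) ≤ Real.exp (x / 2) := Real.exp_le_exp.2 (by linarith)
  have h3x : 3 * Real.sqrt N ≤ Real.exp x := by
    rw [hexpx]
    refine mul_le_mul (by linarith) (hsqrt.trans hx24) (Real.sqrt_nonneg _) (Real.exp_pos _).le
  -- reduction
  have hag : |(diagonal a * g).det| = V := by
    rw [Matrix.det_mul, Matrix.det_diagonal, ha1, one_mul]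
    exact hgV
  have hagnu : HasNu (diagonal a * g) ν := fun m hm => by
    rw [FF_diag_mul, ha1, one_mul]
    exact hnu m hm
  obtain ⟨γ, hγ, hγR⟩ := hR _ hag hagnu
  set g' : Matrix (Fin d) (Fin d) ℝ := diagonal a * g * zR γ with hg'
  have horb : g' ∈ Orb g := ⟨a, γ, ha0, ha1, hγ, rfl⟩
  have hg'V : |g'.det| = V := (abs_det_orb horb).trans hgV
  have hg'nu : HasNu g' ν := hasNu_orb hnu horb
  have hg'inv : ∀ i j, |g'⁻¹ i j| ≤ G₀ := by
    intro i j
    have h1 := Pool.Agent.N759.NV.inv_bound g' hγR i j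
    rw [hg'V] at h1
    exact h1
  obtain ⟨A, hA, hAut⟩ := hfew g' hg'V hg'nu G₀ hg'inv N hNM
  -- the values
  set VF : Finset ℝ := (finite_VN g' T N).toFinset with hVF
  have hVcard : VF.card = (VN g' T N).ncard := by
    rw [hVF, Set.ncard_eq_toFinset_card _ (finite_VN g' T N)]
  set E : Finset ℝ := VF.image fun t => |t| with hEdef
  have hcard : VF.card ≤ 2 * E.card := by
    have h1 : VF ⊆ E ∪ E.image fun t => -t := by
      intro t ht
      rw [Finset.mem_union]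
      have h2 : |t| ∈ E := Finset.mem_image_of_mem _ ht
      rcases abs_choice t with h3 | h3
      · left; rwa [h3] at h2
      · right
        refine Finset.mem_image.2 ⟨|t|, h2, ?_⟩
        rw [h3, neg_neg]
    refine (Finset.card_le_card h1).trans ((Finset.card_union_le _ _).trans ?_)
    have h2 := Finset.card_image_le (s := E) (f := fun t => -t)
    omega
  refine ⟨E, A, ?_, fun t htE => ?_, fun c hc => ?_⟩
  · have h1 : ((VN g' T N).ncard : ℝ) ^ D ≤ 2 ^ D * (E.card : ℝ) ^ D := by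
      rw [← hVcard, ← mul_pow]
      exact pow_le_pow_left₀ (Nat.cast_nonneg _) (by exact_mod_cast hcard) _
    have h2 : κ₀ * (1 / 4 * x) ^ (d - 1) ≤ κ₀ * Real.log N ^ (d - 1) :=
      mul_le_mul_of_nonneg_left (pow_le_pow_left₀ (by positivity) hlogN _) hκ₀.le
    have h3 : (A.card : ℝ) * ((VN g' T N).ncard : ℝ) ^ D ≤ A.card * (2 ^ D * (E.card : ℝ) ^ D) :=
      mul_le_mul_of_nonneg_left h1 (Nat.cast_nonneg _)
    have h4 : κ₀ * (1 / 4) ^ (d - 1) / 2 ^ D * x ^ (d - 1) = κ₀ * (1 / 4 * x) ^ (d - 1) / 2 ^ D := by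
      rw [mul_pow]
      ring
    rw [h4, div_le_iff₀ (by positivity)]
    calc κ₀ * (1 / 4 * x) ^ (d - 1) ≤ A.card * (2 ^ D * (E.card : ℝ) ^ D) :=
          h2.trans (hA.trans h3)
      _ = _ := by ring
  · obtain ⟨s, hs, rfl⟩ := Finset.mem_image.1 htE
    rw [hVF, Set.Finite.mem_toFinset] at hs
    obtain ⟨p, hp, hpN, hps, hsT⟩ := hs
    have hFp : FF g (iR (γ *ᵥ p)) = s := by
      rw [← hps, hg', FF_orb ha1]
    refine ⟨γ *ᵥ p, ?_, ?_, by rw [hFp], hsT⟩
    · intro h0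
      apply hp
      have h3 : (γ)⁻¹ *ᵥ (γ *ᵥ p) = 0 := by rw [h0, mulVec_zero]
      rwa [mulVec_mulVec, Matrix.nonsing_inv_mul _ hγ, one_mulVec] at h3
    · intro i
      have h1 : a i * (g *ᵥ iR (γ *ᵥ p)) i = (g' *ᵥ iR p) i := by
        rw [hg', ← mulVec_mulVec, zR_mulVec_iR, ← mulVec_mulVec, mulVec_diagonal]
      rw [h1, mulVec, dotProduct]
      refine (Finset.abs_sum_le_sum_abs _ _).trans ?_
      have h2 : ∑ k, |g' i k * iR p k| ≤ ∑ _k : Fin d, R1 * N := by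
        refine Finset.sum_le_sum fun k _ => ?_
        rw [abs_mul]
        refine mul_le_mul ((hγR i k).trans (le_max_left _ _)) ?_ (abs_nonneg _) (by linarith)
        have h3 : |(p k : ℝ)| ≤ N := by exact_mod_cast hpN k
        exact h3
      refine h2.trans ?_
      rw [Finset.sum_const, Finset.card_univ, Fintype.card_fin, nsmul_eq_mul, ← mul_assoc, hexpx]
      exact mul_le_mul (by linarith) hN1 (Nat.cast_nonneg _) (Real.exp_pos _).le
  · obtain ⟨⟨δ, hδu, hrel⟩, hcb⟩ := hAut c hc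
    refine ⟨fun i => ⟨?_, (hcb i).2.1.trans h3x⟩, γ * δ * γ⁻¹, ?_, ?_⟩
    · rw [Real.exp_neg, inv_le_comm₀ (Real.exp_pos _) (hcb i).1]
      exact (hcb i).2.2.trans h3x
    rotate_left
    · have h1 : diagonal (fun i => (a i)⁻¹) * diagonal a = (1 : Matrix (Fin d) (Fin d) ℝ) := by
        rw [diagonal_mul_diagonal, ← diagonal_one]
        congr 1
        funext i
        exact inv_mul_cancel₀ (ha0 i).ne'
      have h2 : g = diagonal (fun i => (a i)⁻¹) * g' * zR γ⁻¹ := by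
        rw [hg', Matrix.mul_assoc, Matrix.mul_assoc (diagonal a * g), zR_inv hγ, Matrix.mul_one,
          ← Matrix.mul_assoc, h1, Matrix.one_mul]
      calc g * zR (γ * δ * γ⁻¹)
          = diagonal (fun i => (a i)⁻¹) * g' * (zR γ⁻¹ * zR γ) * zR δ * zR γ⁻¹ := by
            conv_lhs => rw [h2]
            rw [zR_mul, zR_mul]
            simp only [Matrix.mul_assoc]
        _ = diagonal (fun i => (a i)⁻¹) * (g' * zR δ) * zR γ⁻¹ := by
            rw [zR_inv' hγ, Matrix.mul_one, Matrix.mul_assoc (diagonal fun i => (a i)⁻¹)]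
        _ = diagonal c * (diagonal (fun i => (a i)⁻¹) * g' * zR γ⁻¹) := by
            rw [hrel]
            simp only [← Matrix.mul_assoc, diagonal_mul_diagonal]
            congr 3
            funext i
            ring
        _ = diagonal c * g := by rw [← h2]
    · rw [det_mul, det_mul, Matrix.det_nonsing_inv]
      have h1 : γ.det * δ.det * Ring.inverse γ.det = δ.det := by
        rw [mul_right_comm, Ring.mul_inverse_cancel _ hγ, one_mul]
      rw [h1]
      have h2 := congrArg Matrix.det hrel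
      have hg'0 : g'.det ≠ 0 := by
        intro h0
        rw [h0, abs_zero] at hg'V
        exact hV.ne hg'V
      rw [det_mul g', det_mul (diagonal c), det_diagonal, det_zR, mul_comm] at h2
      have h3 := mul_right_cancel₀ hg'0 h2
      have h4 : 0 < ∏ i, c i := Finset.prod_pos fun i _ => (hcb i).1
      rw [← h3] at h4
      have h5 : 0 < δ.det := by exact_mod_cast h4
      rcases Int.isUnit_iff.1 hδu with h6 | h6
      · exact h6
      · omega

end Pool.Agent.N759.FV
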