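import Mathlib
import Pool.Agent.N759.FV.Det3

/-! # Local determination of a matrix by the values at a spanning family of points -/

open Filter Topology Matrix H715R2 Pool.Agent.W777.FV

namespace Pool.Agent.N759.FV

variable {d : ℕ}

/-- the values at the points `m j` determine the matrix to first order -/
def Spans {J : Type} (h₀ : Matrix (Fin d) (Fin d) ℝ) (m : J → Fin d → ℤ) : Prop :=
  ∀ X : Fin d → Fin d → ℝ, (∀ i, X i i = 0) →
    (∀ p : J, ∑ j, ell (h₀ *ᵥ iR (m p)) j X = 0) → X = 0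

/-- **Local determination.** -/
theorem determine_gen {J : Type} [Fintype J] {h₀ : Matrix (Fin d) (Fin d) ℝ}
    (hdet : h₀.det ≠ 0) (m : J → Fin d → ℤ) (hZne' : ∀ p j, (h₀ *ᵥ iR (m p)) j ≠ 0)
    (hinj : Spans h₀ m) :
    ∃ U ∈ 𝓝 h₀, ∀ h ∈ U, ∀ h' ∈ U, |h.det| = |h'.det| →
        (∀ p, FF h (iR (m p)) = FF h' (iR (m p))) →
        ∃ a : Fin d → ℝ, (∀ i, 1 / 3 < a i ∧ a i < 3) ∧ h' = diagonal a * h := by
  classical
  set Z : J → Fin d → ℝ := fun p => h₀ *ᵥ iR (m p) with hZ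
  have hZne : ∀ p j, Z p j ≠ 0 := hZne'
  -- the map
  let E := (Fin d → Fin d → ℝ) × ℝ
  let pr : Fin d → (E →L[ℝ] ℝ) := fun i =>
    ((ContinuousLinearMap.proj (R := ℝ) (φ := fun _ : Fin d => ℝ) i).comp
      (ContinuousLinearMap.proj (R := ℝ) (φ := fun _ : Fin d => (Fin d → ℝ)) i)).comp
      (ContinuousLinearMap.fst ℝ (Fin d → Fin d → ℝ) ℝ)
  let f : E → (Option (Fin d ⊕ J) → ℝ) := fun X o =>
    match o with
    | none => X.2 * Dt X.1
    | some (Sum.inl i) => X.1 i i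
    | some (Sum.inr p) => X.2 * Gz (Z p) X.1
  let D : (Fin d → ℝ) → (E →L[ℝ] ℝ) := fun z =>
    (∑ j, ell z j).comp (ContinuousLinearMap.fst ℝ (Fin d → Fin d → ℝ) ℝ) +
      ContinuousLinearMap.snd ℝ (Fin d → Fin d → ℝ) ℝ
  let D0 : E →L[ℝ] ℝ :=
    (fderiv ℝ (Dt (d := d)) 0).comp (ContinuousLinearMap.fst ℝ (Fin d → Fin d → ℝ) ℝ) +
      ContinuousLinearMap.snd ℝ (Fin d → Fin d → ℝ) ℝ
  let f' : E →L[ℝ] (Option (Fin d ⊕ J) → ℝ) := ContinuousLinearMap.pi fun o =>
    match o with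
    | none => D0
    | some (Sum.inl i) => pr i
    | some (Sum.inr p) => D (Z p)
  have hD : ∀ z : Fin d → ℝ, HasStrictFDerivAt (fun X : E => X.2 * Gz z X.1) (D z) (0, 1) := by
    intro z
    have h1 : HasStrictFDerivAt (fun X : E => X.2)
        (ContinuousLinearMap.snd ℝ (Fin d → Fin d → ℝ) ℝ) ((0, 1) : E) :=
      (ContinuousLinearMap.snd ℝ (Fin d → Fin d → ℝ) ℝ).hasStrictFDerivAt
    have h2 : HasStrictFDerivAt (fun X : E => Gz z X.1)
        ((∑ j, ell z j).comp (ContinuousLinearMap.fst ℝ (Fin d → Fin d → ℝ) ℝ)) ((0, 1) : E) :=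
      (hasStrictFDerivAt_Gz z).comp ((0, 1) : E)
        (ContinuousLinearMap.fst ℝ (Fin d → Fin d → ℝ) ℝ).hasStrictFDerivAt
    have h3 := h1.mul h2
    have h4 : ((0, 1) : E).2 • ((∑ j, ell z j).comp (ContinuousLinearMap.fst ℝ (Fin d → Fin d → ℝ) ℝ))
        + Gz z ((0, 1) : E).1 • ContinuousLinearMap.snd ℝ (Fin d → Fin d → ℝ) ℝ = D z := by
      simp only [Gz_zero, one_smul, D]
    rw [h4] at h3
    exact h3
  have hD0 : HasStrictFDerivAt (fun X : E => X.2 * Dt X.1) D0 (0, 1) := by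
    have h1 : HasStrictFDerivAt (fun X : E => X.2)
        (ContinuousLinearMap.snd ℝ (Fin d → Fin d → ℝ) ℝ) ((0, 1) : E) :=
      (ContinuousLinearMap.snd ℝ (Fin d → Fin d → ℝ) ℝ).hasStrictFDerivAt
    have h2 : HasStrictFDerivAt (fun X : E => Dt X.1)
        ((fderiv ℝ (Dt (d := d)) 0).comp (ContinuousLinearMap.fst ℝ (Fin d → Fin d → ℝ) ℝ))
        ((0, 1) : E) := by
      have h0 : HasStrictFDerivAt (Dt (d := d)) (fderiv ℝ (Dt (d := d)) 0) (0 : Fin d → Fin d → ℝ) :=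
        contDiff_Dt.hasStrictFDerivAt one_ne_zero
      exact h0.comp ((0, 1) : E)
        (ContinuousLinearMap.fst ℝ (Fin d → Fin d → ℝ) ℝ).hasStrictFDerivAt
    have h3 := h1.mul h2
    have h4 : ((0, 1) : E).2 • ((fderiv ℝ (Dt (d := d)) 0).comp
        (ContinuousLinearMap.fst ℝ (Fin d → Fin d → ℝ) ℝ))
        + Dt ((0, 1) : E).1 • ContinuousLinearMap.snd ℝ (Fin d → Fin d → ℝ) ℝ = D0 := by
      simp only [Dt_zero, one_smul, D0]
    rw [h4] at h3
    exact h3
  have hf : HasStrictFDerivAt f f' (0, 1) := by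
    rw [hasStrictFDerivAt_pi']
    intro o
    match o with
    | none => exact hD0
    | some (Sum.inl i) => exact (pr i).hasStrictFDerivAt
    | some (Sum.inr p) => exact hD (Z p)
  have hf'inj : ∃ C, AntilipschitzWith C f' := by
    obtain ⟨C, -, hC⟩ := (f' : E →ₗ[ℝ] (Option (Fin d ⊕ J) → ℝ)).exists_antilipschitzWith (by
      rw [LinearMap.ker_eq_bot']
      intro X hX
      have hXp : ∀ p, f' X p = 0 := fun p => congrFun hX p
      have hDa : ∀ (z : Fin d → ℝ) (Y : E), D z Y = ∑ j, ell z j Y.1 + Y.2 := by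
        intro z Y
        change (∑ j, ell z j) Y.1 + Y.2 = _
        rw [_root_.sum_apply]
      have hXd : ∀ i, X.1 i i = 0 := by
        intro i
        exact hXp (some (Sum.inl i))
      have hX2 : X.2 = 0 := by
        have h0 : D0 X = 0 := hXp none
        have h1 : D0 X = fderiv ℝ (Dt (d := d)) 0 X.1 + X.2 := rfl
        rw [h1, fderiv_Dt hXd, zero_add] at h0
        exact h0
      have hX1 : X.1 = 0 := by
        refine hinj X.1 hXd (fun p => ?_)
        have h1 : D (Z p) X = 0 := hXp (some (Sum.inr p))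
        rw [hDa, hX2, add_zero] at h1
        exact h1
      exact Prod.ext hX1 hX2)
    exact ⟨C, hC⟩
  obtain ⟨C, hC⟩ := hf'inj
  obtain ⟨W, hW, hWinj⟩ := inj_near hf hC
  -- pull back
  have hu : IsUnit h₀.det := isUnit_iff_ne_zero.2 hdet
  have hqc : Continuous (fun h : Matrix (Fin d) (Fin d) ℝ => h * h₀⁻¹) :=
    continuous_id.matrix_mul continuous_const
  have hq1 : h₀ * h₀⁻¹ = 1 := Matrix.mul_nonsing_inv _ hu
  have hqent : ∀ j l, Tendsto (fun h : Matrix (Fin d) (Fin d) ℝ => (h * h₀⁻¹) j l) (𝓝 h₀)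
      (𝓝 ((1 : Matrix (Fin d) (Fin d) ℝ) j l)) := by
    intro j l
    have h1 := ((continuous_apply_apply j l).comp hqc).tendsto h₀
    have h2 : (h₀ * h₀⁻¹) j l = (1 : Matrix (Fin d) (Fin d) ℝ) j l := by rw [hq1]
    rw [← h2]
    exact h1
  have hpos : ∀ᶠ h in 𝓝 h₀, ∀ j, 1 / 2 < (h * h₀⁻¹) j j ∧ (h * h₀⁻¹) j j < 3 / 2 := by
    refine Filter.eventually_all.2 fun j => ?_
    have h1 := hqent j j
    rw [Matrix.one_apply_eq] at h1
    exact (h1.eventually (lt_mem_nhds (by norm_num))).and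
      (h1.eventually (gt_mem_nhds (by norm_num)))
  have hoff : Tendsto (fun h : Matrix (Fin d) (Fin d) ℝ => offd (h * h₀⁻¹)) (𝓝 h₀) (𝓝 0) := by
    rw [tendsto_pi_nhds]
    intro j
    rw [tendsto_pi_nhds]
    intro l
    by_cases hjl : j = l
    · simp only [offd, if_pos hjl]
      exact tendsto_const_nhds
    · simp only [offd, if_neg hjl]
      have h1 := (hqent j l).div (hqent j j) (by rw [Matrix.one_apply_eq]; exact one_ne_zero)
      rw [Matrix.one_apply_ne hjl, zero_div] at h1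
      exact h1
  have hprod : Tendsto (fun h : Matrix (Fin d) (Fin d) ℝ => ∏ j, (h * h₀⁻¹) j j) (𝓝 h₀) (𝓝 1) := by
    have h1 : Tendsto (fun h : Matrix (Fin d) (Fin d) ℝ => ∏ j, (h * h₀⁻¹) j j) (𝓝 h₀)
        (𝓝 (∏ j : Fin d, (1 : Matrix (Fin d) (Fin d) ℝ) j j)) :=
      tendsto_finsetProd _ fun j _ => hqent j j
    simpa using h1
  have hpair : Tendsto (fun h : Matrix (Fin d) (Fin d) ℝ =>
      ((offd (h * h₀⁻¹), ∏ j, (h * h₀⁻¹) j j) : E)) (𝓝 h₀) (𝓝 ((0, 1) : E)) :=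
    hoff.prodMk_nhds hprod
  have hdp : ∀ᶠ h in 𝓝 h₀, 0 < (h * h₀⁻¹ : Matrix (Fin d) (Fin d) ℝ).det := by
    have h1 : Tendsto (fun h : Matrix (Fin d) (Fin d) ℝ => (h * h₀⁻¹).det) (𝓝 h₀) (𝓝 1) := by
      have h2 := (hqc.matrix_det).tendsto h₀
      rw [hq1, Matrix.det_one] at h2
      exact h2
    exact h1.eventually (lt_mem_nhds one_pos)
  have hev := ((hpair.eventually hW).and hpos).and hdp
  refine ⟨_, hev, ?_⟩
  rintro h ⟨⟨hh1, hh2⟩, hh3⟩ h' ⟨⟨hh1', hh2'⟩, hh3'⟩ hdd heq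
  set q : Matrix (Fin d) (Fin d) ℝ := h * h₀⁻¹ with hq
  set q' : Matrix (Fin d) (Fin d) ℝ := h' * h₀⁻¹ with hq'
  have hqh : q * h₀ = h := by
    rw [hq, Matrix.mul_assoc, Matrix.nonsing_inv_mul _ hu, Matrix.mul_one]
  have hqh' : q' * h₀ = h' := by
    rw [hq', Matrix.mul_assoc, Matrix.nonsing_inv_mul _ hu, Matrix.mul_one]
  have hqj : ∀ j, 0 < q j j := fun j => by have := (hh2 j).1; linarith
  have hqj' : ∀ j, 0 < q' j j := fun j => by have := (hh2' j).1; linarith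
  have hDtq : ∀ q : Matrix (Fin d) (Fin d) ℝ, (∀ j, 0 < q j j) →
      (∏ j, q j j) * Dt (offd q) = q.det := by
    intro q hqp
    rw [Dt, ← Matrix.det_diagonal, ← Matrix.det_mul]
    congr 1
    ext i j
    rw [diagonal_mul, Matrix.of_apply, offd]
    by_cases hij : i = j
    · subst hij
      simp
    · rw [if_neg hij, if_neg hij, zero_add]
      have := (hqp i).ne'
      field_simp
  have hqq : q.det = q'.det := by
    have e1 : |q.det| = |q'.det| := by
      rw [hq, hq', Matrix.det_mul, Matrix.det_mul, abs_mul, abs_mul, hdd]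
    rwa [abs_of_pos hh3, abs_of_pos hh3'] at e1
  have hval : ∀ p : J, (∏ j, q j j) * Gz (Z p) (offd q) =
      (∏ j, q' j j) * Gz (Z p) (offd q') := by
    intro p
    have h1 := heq p
    have e1 : FF h (iR (m p)) = (∏ i, q i i) * (∏ i, (h₀ *ᵥ iR (m p)) i) *
        Gz (h₀ *ᵥ iR (m p)) (offd q) := by
      rw [← prod_eq_Gz q (fun j => (hqj j).ne') _ (hZne p), ← FF_eq, ← FF_mul, hqh]
    have e2 : FF h' (iR (m p)) = (∏ i, q' i i) * (∏ i, (h₀ *ᵥ iR (m p)) i) *
        Gz (h₀ *ᵥ iR (m p)) (offd q') := by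
      rw [← prod_eq_Gz q' (fun j => (hqj' j).ne') _ (hZne p), ← FF_eq, ← FF_mul, hqh']
    have h2 : ∏ j, Z p j ≠ 0 := Finset.prod_ne_zero_iff.2 fun j _ => hZne p j
    apply mul_left_cancel₀ h2
    calc (∏ j, Z p j) * ((∏ j, q j j) * Gz (Z p) (offd q))
        = (∏ i, q i i) * (∏ i, (h₀ *ᵥ iR (m p)) i) * Gz (h₀ *ᵥ iR (m p)) (offd q) := by
          simp only [hZ]; ring
      _ = (∏ i, q' i i) * (∏ i, (h₀ *ᵥ iR (m p)) i) * Gz (h₀ *ᵥ iR (m p)) (offd q') := by
          rw [← e1, ← e2, h1]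
      _ = _ := by simp only [hZ]; ring
  have hXX : ((offd q, ∏ j, q j j) : E) = (offd q', ∏ j, q' j j) := by
    apply hWinj hh1 hh1'
    funext o
    match o with
    | none =>
      change (∏ j, q j j) * Dt (offd q) = (∏ j, q' j j) * Dt (offd q')
      rw [hDtq q hqj, hDtq q' hqj', hqq]
    | some (Sum.inl i) =>
      change offd q i i = offd q' i i
      rw [offd, offd, if_pos rfl, if_pos rfl]
    | some (Sum.inr p) => exact hval p
  have hX : offd q = offd q' := (Prod.ext_iff.1 hXX).1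
  refine ⟨fun j => q' j j / q j j, fun j => ⟨?_, ?_⟩, ?_⟩
  · rw [lt_div_iff₀ (hqj j)]
    have := (hh2 j).2
    have := (hh2' j).1
    linarith
  · rw [div_lt_iff₀ (hqj j)]
    have := (hh2 j).1
    have := (hh2' j).2
    linarith
  · have hqq : q' = diagonal (fun j => q' j j / q j j) * q := by
      ext j l
      rw [diagonal_mul]
      by_cases hjl : j = l
      · rw [hjl]
        have := (hqj l).ne'
        field_simp
      · have h1 := congrFun (congrFun hX j) l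
        rw [offd, offd, if_neg hjl, if_neg hjl] at h1
        have h2 := (hqj j).ne'
        have h3 := (hqj' j).ne'
        rw [div_eq_div_iff h2 h3] at h1
        rw [div_mul_eq_mul_div, eq_div_iff h2]
        linarith
    calc h' = q' * h₀ := hqh'.symm
      _ = (diagonal (fun j => q' j j / q j j) * q) * h₀ := by rw [← hqq]
      _ = _ := by rw [Matrix.mul_assoc, hqh]

end Pool.Agent.N759.FV
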