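import Mathlib

/-! # Zeros of a form at exponentially spread points lie near few hyperplanes -/

namespace Pool.Agent.N759.FV

open Finset

theorem two_terms {ι : Type*} [Fintype ι] (h X : ι → ℝ) (hh : h ≠ 0) (hX : ∀ a, X a ≠ 0)
    (hs : ∑ a, h a * X a = 0) : ∃ a b, a ≠ b ∧ h a ≠ 0 ∧ h b ≠ 0 ∧
      |h a * X a| ≤ Fintype.card ι * |h b * X b| ∧
      |h b * X b| ≤ Fintype.card ι * |h a * X a| := by
  classical
  obtain ⟨a₀, ha₀⟩ := Function.ne_iff.1 hh
  have : Nonempty ι := ⟨a₀⟩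
  obtain ⟨a, -, ha⟩ := exists_max_image (univ : Finset ι) (fun a => |h a * X a|) ⟨a₀, mem_univ _⟩
  have hpos : 0 < |h a * X a| :=
    lt_of_lt_of_le (abs_pos.2 (mul_ne_zero ha₀ (hX a₀))) (ha a₀ (mem_univ _))
  have hM1 : (1 : ℝ) ≤ Fintype.card ι := by exact_mod_cast Fintype.card_pos
  have hex : ∃ b, b ≠ a ∧ |h a * X a| ≤ Fintype.card ι * |h b * X b| := by
    by_contra hcon
    push Not at hcon
    have h1 : h a * X a = -∑ b ∈ univ.erase a, h b * X b := by
      rw [← add_sum_erase univ (fun b => h b * X b) (mem_univ a)] at hs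
      linarith
    have h2 : |h a * X a| ≤ ∑ b ∈ univ.erase a, |h b * X b| := by
      conv_lhs => rw [h1, abs_neg]
      exact abs_sum_le_sum_abs _ _
    have h3 : (Fintype.card ι : ℝ) * ∑ b ∈ univ.erase a, |h b * X b| ≤
        ∑ _b ∈ univ.erase a, |h a * X a| := by
      rw [mul_sum]
      exact sum_le_sum fun b hb => (hcon b (ne_of_mem_erase hb)).le
    rw [sum_const, card_erase_of_mem (mem_univ a), card_univ, nsmul_eq_mul,
      Nat.cast_sub Fintype.card_pos] at h3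
    have h4 := mul_le_mul_of_nonneg_left h2 (by linarith : (0 : ℝ) ≤ Fintype.card ι)
    push_cast at h3
    nlinarith
  obtain ⟨b, hba, hb⟩ := hex
  have hbpos : 0 < |h b * X b| := by
    by_contra hcon
    have : |h b * X b| = 0 := le_antisymm (not_lt.1 hcon) (abs_nonneg _)
    rw [this, mul_zero] at hb
    linarith
  refine ⟨a, b, hba.symm, ?_, ?_, hb, ?_⟩
  · intro h0
    rw [h0, zero_mul, abs_zero] at hpos
    exact lt_irrefl _ hpos
  · intro h0
    rw [h0, zero_mul, abs_zero] at hbpos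
    exact lt_irrefl _ hbpos
  · refine (ha b (mem_univ _)).trans ?_
    nlinarith

theorem near_hyperplane {m n : ℕ} {ι : Type*} [Fintype ι] (e : ι → Fin m → ℕ)
    (hsum : ∀ a, ∑ i, e a i = n) (h : ι → ℝ) (hh : h ≠ 0) (y : Fin m → ℝ) (hy : ∀ i, y i ≠ 0)
    (hs : ∑ a, h a * ∏ i, y i ^ e a i = 0) (φ : Fin m → ℝ) (B : ℝ)
    (hB : ∀ i, |Real.log |y i| + φ i| ≤ B) :
    ∃ a b, a ≠ b ∧
      |∑ i, ((e a i : ℝ) - e b i) * φ i - (Real.log |h a| - Real.log |h b|)| ≤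
        Real.log (Fintype.card ι) + 2 * n * B := by
  classical
  have hX : ∀ a, ∏ i, y i ^ e a i ≠ 0 := fun a => prod_ne_zero_iff.2 fun i _ => pow_ne_zero _ (hy i)
  obtain ⟨a, b, hab, ha0, hb0, h1, h2⟩ := two_terms h (fun a => ∏ i, y i ^ e a i) hh hX hs
  have hlog : ∀ a, h a ≠ 0 → Real.log |h a * ∏ i, y i ^ e a i| =
      Real.log |h a| + ∑ i, (e a i : ℝ) * Real.log |y i| := by
    intro a ha
    rw [abs_mul, Real.log_mul (abs_ne_zero.2 ha) (abs_ne_zero.2 (hX a)), abs_prod,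
      Real.log_prod fun i _ => abs_ne_zero.2 (pow_ne_zero _ (hy i))]
    congr 1
    refine sum_congr rfl fun i _ => ?_
    rw [abs_pow, Real.log_pow]
  have hM : (0 : ℝ) < Fintype.card ι := by
    have : Nonempty ι := ⟨a⟩
    exact_mod_cast Fintype.card_pos
  have hapos : 0 < |h a * ∏ i, y i ^ e a i| := abs_pos.2 (mul_ne_zero ha0 (hX a))
  have hbpos : 0 < |h b * ∏ i, y i ^ e b i| := abs_pos.2 (mul_ne_zero hb0 (hX b))
  have h3 := Real.log_le_log hapos h1
  have h4 := Real.log_le_log hbpos h2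
  rw [Real.log_mul hM.ne' hbpos.ne', hlog a ha0, hlog b hb0] at h3
  rw [Real.log_mul hM.ne' hapos.ne', hlog a ha0, hlog b hb0] at h4
  refine ⟨a, b, hab, ?_⟩
  have h5 : |(Real.log |h a| - Real.log |h b|) + (∑ i, ((e a i : ℝ) - e b i) * Real.log |y i|)| ≤
      Real.log (Fintype.card ι) := by
    have h6 : ∑ i, ((e a i : ℝ) - e b i) * Real.log |y i| =
        ∑ i, (e a i : ℝ) * Real.log |y i| - ∑ i, (e b i : ℝ) * Real.log |y i| := by
      rw [← sum_sub_distrib]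
      exact sum_congr rfl fun i _ => by ring
    rw [h6, abs_le]
    constructor <;> linarith
  have h7 : |∑ i, ((e a i : ℝ) - e b i) * (Real.log |y i| + φ i)| ≤ 2 * n * B := by
    refine (abs_sum_le_sum_abs _ _).trans ?_
    have h8 : ∑ i, |((e a i : ℝ) - e b i) * (Real.log |y i| + φ i)| ≤
        ∑ i, ((e a i : ℝ) + e b i) * B := by
      refine sum_le_sum fun i _ => ?_
      rw [abs_mul]
      refine mul_le_mul ?_ (hB i) (abs_nonneg _) (by positivity)
      rw [abs_le]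
      constructor
      · linarith [Nat.cast_nonneg (α := ℝ) (e a i), Nat.cast_nonneg (α := ℝ) (e b i)]
      · linarith [Nat.cast_nonneg (α := ℝ) (e a i), Nat.cast_nonneg (α := ℝ) (e b i)]
    refine h8.trans (le_of_eq ?_)
    rw [← sum_mul, sum_add_distrib]
    have h9 : ∑ i, (e a i : ℝ) = n := by exact_mod_cast hsum a
    have h10 : ∑ i, (e b i : ℝ) = n := by exact_mod_cast hsum b
    rw [h9, h10]
    ring
  have h11 : ∑ i, ((e a i : ℝ) - e b i) * φ i - (Real.log |h a| - Real.log |h b|) =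
      ∑ i, ((e a i : ℝ) - e b i) * (Real.log |y i| + φ i) -
      ((Real.log |h a| - Real.log |h b|) + ∑ i, ((e a i : ℝ) - e b i) * Real.log |y i|) := by
    have h12 : ∑ i, ((e a i : ℝ) - e b i) * (Real.log |y i| + φ i) =
        ∑ i, ((e a i : ℝ) - e b i) * Real.log |y i| + ∑ i, ((e a i : ℝ) - e b i) * φ i := by
      rw [← sum_add_distrib]
      exact sum_congr rfl fun i _ => by ring
    rw [h12]
    ring
  rw [h11]
  refine (abs_sub _ _).trans ?_
  linarith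

/-- the point of the diagonal group (logarithms) -/
noncomputable def gpos {r : ℕ} (D : ℝ) (k : Fin r → ℝ) : Fin (r + 1) → ℝ :=
  Fin.snoc (α := fun _ => ℝ) (fun j => D * k j) (-∑ j, D * k j)

lemma sum_gpos {r : ℕ} (D : ℝ) (k : Fin r → ℝ) : ∑ i, gpos D k i = 0 := by
  rw [Fin.sum_univ_castSucc]
  simp [gpos]

lemma sum_mul_gpos {r : ℕ} (D : ℝ) (k : Fin r → ℝ) (c : Fin (r + 1) → ℝ) :
    ∑ i, c i * gpos D k i = D * ∑ j : Fin r, (c j.castSucc - c (Fin.last r)) * k j := by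
  rw [Fin.sum_univ_castSucc]
  simp only [gpos, Fin.snoc_castSucc, Fin.snoc_last]
  rw [mul_neg, mul_sum, mul_sum, ← sub_eq_add_neg, ← sum_sub_distrib]
  exact sum_congr rfl fun j _ => by ring

lemma card_hyperplane {r : ℕ} (K : ℕ) (c : Fin r → ℤ) (hc : c ≠ 0) (τ : ℝ)
    (V : Finset (Fin r → Fin (K + 1)))
    (hV : ∀ k ∈ V, |∑ j, (c j : ℝ) * ((k j : ℕ) : ℝ) - τ| < 1 / 2) :
    V.card ≤ (K + 1) ^ (r - 1) := by
  classical
  obtain ⟨j₀, hj₀⟩ := Function.ne_iff.1 hc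
  have hcard : Fintype.card ({j : Fin r // j ≠ j₀} → Fin (K + 1)) = (K + 1) ^ (r - 1) := by
    rw [Fintype.card_fun, Fintype.card_fin, Fintype.card_subtype_compl]
    simp
  rw [← hcard, ← card_univ (α := {j : Fin r // j ≠ j₀} → Fin (K + 1))]
  refine card_le_card_of_injOn (fun k j => k j.1) (fun k _ => mem_coe.2 (mem_univ _)) ?_
  intro k hk k' hk' hkk
  have hne : ∀ j, j ≠ j₀ → k j = k' j := fun j hj => congrFun hkk ⟨j, hj⟩
  have h1 := hV k hk
  have h2 := hV k' hk'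
  have h3 : ∑ j, (c j : ℝ) * ((k j : ℕ) : ℝ) - ∑ j, (c j : ℝ) * ((k' j : ℕ) : ℝ) =
      (c j₀ : ℝ) * (((k j₀ : ℕ) : ℝ) - ((k' j₀ : ℕ) : ℝ)) := by
    rw [← sum_sub_distrib, sum_eq_single j₀]
    · ring
    · intro j _ hj
      rw [hne j hj]
      ring
    · intro h
      exact absurd (mem_univ _) h
  have h4 : |(c j₀ : ℝ) * (((k j₀ : ℕ) : ℝ) - ((k' j₀ : ℕ) : ℝ))| < 1 := by
    rw [← h3]
    have h5 := abs_sub (∑ j, (c j : ℝ) * ((k j : ℕ) : ℝ) - τ)
      (∑ j, (c j : ℝ) * ((k' j : ℕ) : ℝ) - τ)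
    rw [sub_sub_sub_cancel_right] at h5
    linarith
  have h6 : c j₀ * (((k j₀ : ℕ) : ℤ) - ((k' j₀ : ℕ) : ℤ)) = 0 := by
    have h7 : |c j₀ * (((k j₀ : ℕ) : ℤ) - ((k' j₀ : ℕ) : ℤ))| < 1 := by exact_mod_cast h4
    exact Int.abs_lt_one_iff.1 h7
  funext j
  by_cases hj : j = j₀
  · subst hj
    rcases mul_eq_zero.1 h6 with h | h
    · exact absurd h hj₀
    · exact Fin.ext (by omega)
  · exact hne j hj

/-- **Level sets.** -/
theorem level_card {r n : ℕ} {ι : Type*} [Fintype ι] (e : ι → Fin (r + 1) → ℕ)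
    (he : Function.Injective e) (hsum : ∀ a, ∑ i, e a i = n) (h : ι → ℝ) (hh : h ≠ 0)
    (K : ℕ) (D B : ℝ) (hD0 : 0 < D) (hD : 2 * (Real.log (Fintype.card ι) + 2 * n * B) < D)
    (V : Finset (Fin r → Fin (K + 1))) (y : (Fin r → Fin (K + 1)) → Fin (r + 1) → ℝ)
    (hy : ∀ k ∈ V, ∀ i, y k i ≠ 0) (hs : ∀ k ∈ V, ∑ a, h a * ∏ i, y k i ^ e a i = 0)
    (hB : ∀ k ∈ V, ∀ i, |Real.log |y k i| + gpos D (fun j => ((k j : ℕ) : ℝ)) i| ≤ B) :
    V.card ≤ Fintype.card ι ^ 2 * (K + 1) ^ (r - 1) := by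
  classical
  set cc : ι × ι → Fin r → ℤ := fun ab j => ((e ab.1 j.castSucc : ℤ) - e ab.2 j.castSucc) -
    ((e ab.1 (Fin.last r) : ℤ) - e ab.2 (Fin.last r)) with hcc
  set τ : ι × ι → ℝ := fun ab => (Real.log |h ab.1| - Real.log |h ab.2|) / D with hτ
  set S : ι × ι → Finset (Fin r → Fin (K + 1)) := fun ab =>
    V.filter fun k => ab.1 ≠ ab.2 ∧ |∑ j, (cc ab j : ℝ) * ((k j : ℕ) : ℝ) - τ ab| < 1 / 2 with hS
  have hcov : V ⊆ (univ : Finset (ι × ι)).biUnion S := by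
    intro k hk
    obtain ⟨a, b, hab, hle⟩ := near_hyperplane e hsum h hh (y k) (hy k hk) (hs k hk) _ B (hB k hk)
    rw [sum_mul_gpos] at hle
    refine mem_biUnion.2 ⟨(a, b), mem_univ _, mem_filter.2 ⟨hk, hab, ?_⟩⟩
    have h1 : (∑ j, (cc (a, b) j : ℝ) * ((k j : ℕ) : ℝ) - τ (a, b)) * D =
        D * ∑ j : Fin r, (((e a j.castSucc : ℝ) - e b j.castSucc) -
          ((e a (Fin.last r) : ℝ) - e b (Fin.last r))) * ((k j : ℕ) : ℝ) -
        (Real.log |h a| - Real.log |h b|) := by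
      simp only [hcc, hτ]
      rw [sub_mul, div_mul_cancel₀ _ hD0.ne', mul_comm]
      push_cast
      rfl
    have h2 : |∑ j, (cc (a, b) j : ℝ) * ((k j : ℕ) : ℝ) - τ (a, b)| * D < D / 2 := by
      rw [← abs_of_pos hD0, ← abs_mul, abs_of_pos hD0, h1]
      linarith
    by_contra hcon
    have h3 := mul_le_mul_of_nonneg_right (not_lt.1 hcon) hD0.le
    linarith
  refine (card_le_card hcov).trans ?_
  have hcard : (univ : Finset (ι × ι)).card = Fintype.card ι ^ 2 := by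
    rw [card_univ, Fintype.card_prod, sq]
  rw [← hcard]
  refine card_biUnion_le_card_mul _ _ _ fun ab _ => ?_
  by_cases hab : ab.1 = ab.2
  · have : S ab = ∅ := by
      rw [hS]
      exact filter_eq_empty_iff.2 fun k _ h0 => h0.1 hab
    rw [this]
    simp
  · refine card_hyperplane K (cc ab) ?_ (τ ab) (S ab) fun k hk => (mem_filter.1 hk).2.2
    intro h0
    apply hab
    apply he
    have h1 : ∀ j : Fin r, (e ab.1 j.castSucc : ℤ) - e ab.2 j.castSucc =
        (e ab.1 (Fin.last r) : ℤ) - e ab.2 (Fin.last r) := by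
      intro j
      have := congrFun h0 j
      simp only [hcc, Pi.zero_apply] at this
      linarith
    have h2 : ((r : ℤ) + 1) * ((e ab.1 (Fin.last r) : ℤ) - e ab.2 (Fin.last r)) = 0 := by
      have h3 : ∑ i, (e ab.1 i : ℤ) = n := by exact_mod_cast hsum ab.1
      have h4 : ∑ i, (e ab.2 i : ℤ) = n := by exact_mod_cast hsum ab.2
      have h5 : ∑ i, ((e ab.1 i : ℤ) - e ab.2 i) = 0 := by rw [sum_sub_distrib, h3, h4, sub_self]
      rw [Fin.sum_univ_castSucc, sum_congr rfl fun j _ => h1 j, sum_const, card_univ,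
        Fintype.card_fin, nsmul_eq_mul] at h5
      linarith
    have h6 : (e ab.1 (Fin.last r) : ℤ) - e ab.2 (Fin.last r) = 0 := by
      rcases mul_eq_zero.1 h2 with h | h
      · omega
      · exact h
    funext i
    refine Fin.lastCases ?_ (fun j => ?_) i
    · omega
    · have := h1 j
      omega

end Pool.Agent.N759.FV
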