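import Mathlib
import Pool.Agent.N759.FV.DetGen
import Pool.Agent.N759.FV.Trop

/-! # One colour contains a family of points which determines the matrix -/

open Filter Topology Matrix H715R2

namespace Pool.Agent.N759.FV

open Finset

/-- the pairs of different indices -/
abbrev Od (d : ℕ) : Type := {p : Fin d × Fin d // p.1 ≠ p.2}

lemma card_Od (d : ℕ) : Fintype.card (Od d) = d ^ 2 - d := by
  classical
  have h1 : Fintype.card (Od d) = (univ.filter fun p : Fin d × Fin d => p.1 ≠ p.2).card :=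
    Fintype.card_subtype _
  have h2 : (univ.filter fun p : Fin d × Fin d => p.1 ≠ p.2) =
      (univ : Finset (Fin d)).offDiag := by
    ext p
    simp [mem_offDiag]
  rw [h1, h2, offDiag_card, card_univ, Fintype.card_fin, pow_two]

/-- the exponents -/
def exd {d : ℕ} (p : Od d) (i : Fin d) : ℕ := if i = p.1.1 then 0 else if i = p.1.2 then 2 else 1

lemma exd_injective {d : ℕ} : Function.Injective (exd (d := d)) := by
  intro p q h
  have h1 := congrFun h p.1.1
  have h2 := congrFun h p.1.2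
  have e1 : exd p p.1.1 = 0 := by simp [exd]
  have e2 : exd p p.1.2 = 2 := by simp [exd, p.2.symm]
  rw [e1] at h1
  rw [e2] at h2
  have e3 : p.1.1 = q.1.1 := by
    by_contra hne
    rw [exd, if_neg hne] at h1
    split_ifs at h1
  have e4 : p.1.2 = q.1.2 := by
    by_contra hne
    rw [exd, if_neg hne] at h2
    split_ifs at h2
    omega
  exact Subtype.ext (Prod.ext e3 e4)

lemma exd_eq {d : ℕ} (p : Od d) (i : Fin d) :
    exd p i + (if i = p.1.1 then 1 else 0) = 1 + (if i = p.1.2 then 1 else 0) := by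
  rw [exd]
  by_cases h1 : i = p.1.1
  · have h2 : i ≠ p.1.2 := fun h => p.2 (h1.symm.trans h)
    simp [h1, p.2]
  · by_cases h2 : i = p.1.2
    · simp [h2, p.2.symm]
    · simp [h1, h2]

lemma sum_exd {d : ℕ} (p : Od d) : ∑ i, exd p i = d := by
  have h1 : ∑ i, (exd p i + (if i = p.1.1 then 1 else 0)) =
      ∑ i : Fin d, (1 + (if i = p.1.2 then 1 else 0)) := sum_congr rfl fun i _ => exd_eq p i
  rw [sum_add_distrib, sum_add_distrib] at h1
  simp at h1
  exact h1

lemma prod_exd {d : ℕ} (z : Fin d → ℝ) (hz : ∀ i, z i ≠ 0) (p : Od d) :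
    ∏ i, z i ^ exd p i = z p.1.2 / z p.1.1 * ∏ i, z i := by
  have h1 : ∏ i, (z i ^ exd p i * (if i = p.1.1 then z i else 1)) =
      ∏ i, (z i * (if i = p.1.2 then z i else 1)) := by
    refine prod_congr rfl fun i _ => ?_
    have h2 := exd_eq p i
    have h3 : ∀ (P : Prop) [Decidable P], (if P then z i else 1) = z i ^ (if P then 1 else 0) := by
      intro P _
      split_ifs <;> simp
    rw [h3, h3, ← pow_add, h2, pow_add, pow_one]
  rw [prod_mul_distrib, prod_mul_distrib, prod_ite_eq', prod_ite_eq'] at h1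
  simp only [mem_univ, if_true] at h1
  rw [div_mul_eq_mul_div, eq_div_iff (hz _), h1, mul_comm]

lemma sum_ell {d : ℕ} (z : Fin d → ℝ) (X : Fin d → Fin d → ℝ) :
    ∑ j, ell z j X = ∑ p : Od d, z p.1.2 / z p.1.1 * X p.1.1 p.1.2 := by
  classical
  have h1 : ∑ p : Od d, z p.1.2 / z p.1.1 * X p.1.1 p.1.2 =
      ∑ p : Fin d × Fin d, if p.1 ≠ p.2 then z p.2 / z p.1 * X p.1 p.2 else 0 := by
    rw [← sum_filter]
    refine (sum_subtype (univ.filter fun p : Fin d × Fin d => p.1 ≠ p.2) (fun p => by simp)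
      (fun p => z p.2 / z p.1 * X p.1 p.2)).symm
  rw [h1, Fintype.sum_prod_type]
  refine sum_congr rfl fun j _ => ?_
  rw [ell_apply, ← sum_filter]
  refine sum_congr ?_ fun _ _ => rfl
  ext l
  simp [eq_comm]

/-- **One colour determines.** -/
theorem one_colour {r : ℕ} (L : ℕ) (D B : ℝ) (hD0 : 0 < D)
    (hD : 2 * (Real.log (Fintype.card (Od (r + 1))) + 2 * ((r + 1 : ℕ) : ℝ) * B) < D)
    (Ω : Type) [Fintype Ω]
    (hL : Fintype.card Ω * Fintype.card (Od (r + 1)) ^ 2 < L + 1) (hr : 0 < r)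
    (h₀ : Matrix (Fin (r + 1)) (Fin (r + 1)) ℝ)
    (m : (Fin r → Fin (L + 1)) → Fin (r + 1) → ℤ)
    (hm0 : ∀ l i, (h₀ *ᵥ iR (m l)) i ≠ 0)
    (hm : ∀ l i, |Real.log |(h₀ *ᵥ iR (m l)) i| + gpos D (fun j => ((l j : ℕ) : ℝ)) i| ≤ B)
    (χ : (Fin r → Fin (L + 1)) → Ω) :
    ∃ (ω : Ω) (q : Od (r + 1) → (Fin r → Fin (L + 1))), (∀ p, χ (q p) = ω) ∧
      Spans h₀ (fun p => m (q p)) := by
  classical
  by_contra hcon
  push Not at hcon
  have hcard : ∀ ω : Ω, (univ.filter fun l => χ l = ω).card ≤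
      Fintype.card (Od (r + 1)) ^ 2 * (L + 1) ^ (r - 1) := by
    intro ω
    set V := univ.filter fun l : Fin r → Fin (L + 1) => χ l = ω with hV
    set v : V → Od (r + 1) → ℝ := fun l p =>
      (h₀ *ᵥ iR (m l.1)) p.1.2 / (h₀ *ᵥ iR (m l.1)) p.1.1 with hv
    rcases eq_or_ne (Submodule.span ℝ (Set.range v)) ⊤ with hspan | hspan
    · exfalso
      obtain ⟨κ', s, hs, hspan', hli⟩ := exists_linearIndependent' ℝ v
      have b : Module.Basis κ' ℝ (Od (r + 1) → ℝ) := Module.Basis.mk hli (by rw [hspan', hspan])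
      have e : Od (r + 1) ≃ κ' := (b.indexEquiv (Pi.basisFun ℝ (Od (r + 1)))).symm
      refine hcon ω (fun p => (s (e p)).1) (fun p => (mem_filter.1 (s (e p)).2).2) ?_
      intro X hX0 hX
      have hker : ∀ x : Od (r + 1) → ℝ, ∑ p, x p * X p.1.1 p.1.2 = 0 := by
        set φ : (Od (r + 1) → ℝ) →ₗ[ℝ] ℝ :=
          ∑ p, (X p.1.1 p.1.2) • (LinearMap.proj p : (Od (r + 1) → ℝ) →ₗ[ℝ] ℝ) with hφ
        have hφa : ∀ x, φ x = ∑ p, x p * X p.1.1 p.1.2 := by
          intro x
          rw [hφ, LinearMap.sum_apply]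
          refine sum_congr rfl fun p _ => ?_
          rw [LinearMap.smul_apply, LinearMap.proj_apply, smul_eq_mul, mul_comm]
        have h1 : Submodule.span ℝ (Set.range (v ∘ s)) ≤ LinearMap.ker φ := by
          rw [Submodule.span_le]
          rintro _ ⟨k, rfl⟩
          rw [SetLike.mem_coe, LinearMap.mem_ker, hφa]
          have h2 := hX (e.symm k)
          rw [sum_ell] at h2
          simp only [Equiv.apply_symm_apply] at h2
          exact h2
        rw [hspan', hspan] at h1
        intro x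
        rw [← hφa]
        exact h1 (Submodule.mem_top : x ∈ ⊤)
      funext a b'
      by_cases hab : a = b'
      · rw [hab]
        exact hX0 b'
      · have h1 := hker (Pi.single ⟨(a, b'), hab⟩ 1)
        rw [sum_eq_single ⟨(a, b'), hab⟩] at h1
        · simpa using h1
        · intro p _ hp
          rw [Pi.single_eq_of_ne hp, zero_mul]
        · intro h
          exact absurd (mem_univ _) h
    · obtain ⟨F, hF0, hF⟩ := Submodule.exists_le_ker_of_lt_top _ (lt_top_iff_ne_top.2 hspan)
      set w : Od (r + 1) → ℝ := fun a => F (Pi.single a 1) with hw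
      have hFv : ∀ x : Od (r + 1) → ℝ, F x = ∑ a, w a * x a := by
        intro x
        conv_lhs => rw [← Finset.univ_sum_single x]
        rw [map_sum]
        refine sum_congr rfl fun a _ => ?_
        have : Pi.single a (x a) = x a • (Pi.single a (1 : ℝ) : Od (r + 1) → ℝ) := by
          rw [← Pi.single_smul, smul_eq_mul, mul_one]
        rw [this, map_smul, smul_eq_mul, mul_comm]
      have hw0 : w ≠ 0 := by
        intro h0
        apply hF0
        refine LinearMap.ext fun x => ?_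
        rw [hFv x, h0]
        simp
      refine level_card (n := r + 1) (exd (d := r + 1)) exd_injective sum_exd w hw0 L D B hD0 hD V
        (fun l => h₀ *ᵥ iR (m l)) (fun l _ => hm0 l) (fun l hl => ?_) (fun l _ => hm l)
      have h1 : F (v ⟨l, hl⟩) = 0 := hF (Submodule.subset_span ⟨⟨l, hl⟩, rfl⟩)
      rw [hFv] at h1
      have h2 : ∑ a, w a * ∏ i, (h₀ *ᵥ iR (m l)) i ^ exd a i =
          (∑ a, w a * v ⟨l, hl⟩ a) * ∏ i, (h₀ *ᵥ iR (m l)) i := by
        rw [sum_mul]
        refine sum_congr rfl fun a _ => ?_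
        rw [prod_exd _ (hm0 l)]
        simp only [hv]
        ring
      rw [h2, h1, zero_mul]
  have h1 : (univ : Finset (Fin r → Fin (L + 1))).card ≤
      (univ : Finset Ω).card * (Fintype.card (Od (r + 1)) ^ 2 * (L + 1) ^ (r - 1)) := by
    have h2 : (univ : Finset (Fin r → Fin (L + 1))) ⊆
        (univ : Finset Ω).biUnion fun ω => univ.filter fun l => χ l = ω := by
      intro l _
      exact mem_biUnion.2 ⟨χ l, mem_univ _, mem_filter.2 ⟨mem_univ _, rfl⟩⟩
    exact (card_le_card h2).trans (card_biUnion_le_card_mul _ _ _ fun ω _ => hcard ω)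
  rw [card_univ, card_univ, Fintype.card_fun, Fintype.card_fin, Fintype.card_fin] at h1
  have h2 : (L + 1) ^ r = (L + 1) * (L + 1) ^ (r - 1) := by
    rw [← pow_succ']
    congr 1
    omega
  rw [h2, ← mul_assoc] at h1
  have h3 := Nat.le_of_mul_le_mul_right h1 (by positivity)
  omega

end Pool.Agent.N759.FV
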