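import Mathlib
import Pool.Agent.N759.FV.Trop

/-! # Counting -/

namespace Pool.Agent.N759.FV

open Finset

/-- the coefficients of the hyperplane belonging to two monomials -/
def cc {r : ℕ} {ι : Type*} (e : ι → Fin (r + 1) → ℕ) (ab : ι × ι) (j : Fin r) : ℤ :=
  ((e ab.1 j.castSucc : ℤ) - e ab.2 j.castSucc) - ((e ab.1 (Fin.last r) : ℤ) - e ab.2 (Fin.last r))

lemma cc_ne_zero {r n : ℕ} {ι : Type*} {e : ι → Fin (r + 1) → ℕ}
    (he : Function.Injective e) (hsum : ∀ a, ∑ i, e a i = n) {ab : ι × ι} (hab : ab.1 ≠ ab.2) :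
    cc e ab ≠ 0 := by
  intro h0
  apply hab
  apply he
  have h1 : ∀ j : Fin r, (e ab.1 j.castSucc : ℤ) - e ab.2 j.castSucc =
      (e ab.1 (Fin.last r) : ℤ) - e ab.2 (Fin.last r) := by
    intro j
    have := congrFun h0 j
    simp only [cc, Pi.zero_apply] at this
    linarith
  have h2 : ((r : ℤ) + 1) * ((e ab.1 (Fin.last r) : ℤ) - e ab.2 (Fin.last r)) = 0 := by
    have h3 : ∑ i, (e ab.1 i : ℤ) = n := by exact_mod_cast hsum ab.1
    have h4 : ∑ i, (e ab.2 i : ℤ) = n := by exact_mod_cast hsum ab.2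
    have h5 : ∑ i, ((e ab.1 i : ℤ) - e ab.2 i) = 0 := by rw [sum_sub_distrib, h3, h4, sub_self]
    rw [Fin.sum_univ_castSucc, sum_congr rfl fun j _ => h1 j, sum_const, card_univ,
      Fintype.card_fin, nsmul_eq_mul] at h5
    linarith
  have h6 : (e ab.1 (Fin.last r) : ℤ) - e ab.2 (Fin.last r) = 0 := by
    rcases mul_eq_zero.1 h2 with h | h
    · omega
    · exact h
  funext i
  refine Fin.lastCases ?_ (fun j => ?_) i
  · omega
  · have := h1 j
    omega

lemma cc_abs_le {r n : ℕ} {ι : Type*} {e : ι → Fin (r + 1) → ℕ}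
    (hsum : ∀ a, ∑ i, e a i = n) (ab : ι × ι) (j : Fin r) : |cc e ab j| ≤ 2 * n := by
  have hle : ∀ a i, e a i ≤ n := by
    intro a i
    rw [← hsum a]
    exact single_le_sum (f := fun i => e a i) (fun _ _ => Nat.zero_le _) (mem_univ i)
  have h1 := hle ab.1 j.castSucc
  have h2 := hle ab.2 j.castSucc
  have h3 := hle ab.1 (Fin.last r)
  have h4 := hle ab.2 (Fin.last r)
  rw [cc, abs_le]
  constructor <;> omega

/-- **Level sets are near hyperplanes.** -/
theorem level_near {r n : ℕ} {ι : Type*} [Fintype ι] (e : ι → Fin (r + 1) → ℕ)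
    (hsum : ∀ a, ∑ i, e a i = n) (h : ι → ℝ) (hh : h ≠ 0)
    (K : ℕ) (D B : ℝ) (hD0 : 0 < D) (hD : 2 * (Real.log (Fintype.card ι) + 2 * n * B) < D)
    (V : Finset (Fin r → Fin (K + 1))) (y : (Fin r → Fin (K + 1)) → Fin (r + 1) → ℝ)
    (hy : ∀ k ∈ V, ∀ i, y k i ≠ 0) (hs : ∀ k ∈ V, ∑ a, h a * ∏ i, y k i ^ e a i = 0)
    (hB : ∀ k ∈ V, ∀ i, |Real.log |y k i| + gpos D (fun j => ((k j : ℕ) : ℝ)) i| ≤ B) :
    ∃ τ : ι × ι → ℝ, ∀ k ∈ V, ∃ ab : ι × ι, ab.1 ≠ ab.2 ∧
      |∑ j, (cc e ab j : ℝ) * ((k j : ℕ) : ℝ) - τ ab| < 1 / 2 := by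
  classical
  refine ⟨fun ab => (Real.log |h ab.1| - Real.log |h ab.2|) / D, fun k hk => ?_⟩
  obtain ⟨a, b, hab, hle⟩ := near_hyperplane e hsum h hh (y k) (hy k hk) (hs k hk) _ B (hB k hk)
  rw [sum_mul_gpos] at hle
  refine ⟨(a, b), hab, ?_⟩
  have h1 : (∑ j, (cc e (a, b) j : ℝ) * ((k j : ℕ) : ℝ) -
      (Real.log |h a| - Real.log |h b|) / D) * D =
      D * ∑ j : Fin r, (((e a j.castSucc : ℝ) - e b j.castSucc) -
        ((e a (Fin.last r) : ℝ) - e b (Fin.last r))) * ((k j : ℕ) : ℝ) -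
      (Real.log |h a| - Real.log |h b|) := by
    simp only [cc]
    rw [sub_mul, div_mul_cancel₀ _ hD0.ne', mul_comm]
    push_cast
    rfl
  have h2 : |∑ j, (cc e (a, b) j : ℝ) * ((k j : ℕ) : ℝ) -
      (Real.log |h a| - Real.log |h b|) / D| * D < D / 2 := by
    rw [← abs_of_pos hD0, ← abs_mul, abs_of_pos hD0, h1]
    linarith
  by_contra hcon
  have h3 := mul_le_mul_of_nonneg_right (not_lt.1 hcon) hD0.le
  simp only at h2 h3
  linarith

/-- **Counting.** -/
theorem comb {α ι : Type} [Fintype ι] (G : Finset α) (u : α → ℤ) (f : ι → α → ℝ) (E : Finset ℝ)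
    (hfE : ∀ k ∈ G, ∀ p, f p k ∈ E)
    (hdisj : ∀ p, ∀ k ∈ G, ∀ k' ∈ G, f p k = f p k' → u k = u k') (A Q H : ℕ) [DecidableEq α]
    (hA : ∀ k₀ ∈ G, (G.filter fun k => ∀ p, f p k = f p k₀).card ≤ A)
    (hQ : (G.image u).card ≤ Q) (hH : ∀ v, (G.filter fun k => u k = v).card ≤ H) :
    (G.card : ℝ) ^ (Fintype.card ι + 1) ≤
      2 * Q * A * (2 * H * Fintype.card ι * E.card) ^ Fintype.card ι := by
  classical
  set N := Fintype.card ι with hN
  rcases G.eq_empty_or_nonempty with hG | hG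
  · rw [hG, card_empty, Nat.cast_zero, zero_pow (Nat.succ_ne_zero _)]
    positivity
  have hg : (0 : ℝ) < G.card := by exact_mod_cast hG.card_pos
  set Gv : ℤ → Finset α := fun v => G.filter fun k => u k = v with hGv
  set U := G.image u with hU
  have hUne : U.Nonempty := hG.image _
  have hQ0 : (0 : ℝ) < Q := by
    have : 0 < Q := hUne.card_pos.trans_le hQ
    exact_mod_cast this
  have hsumG : ∑ v ∈ U, ((Gv v).card : ℝ) = G.card := by
    rw [← Nat.cast_sum]
    congr 1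
    exact (card_eq_sum_card_image u G).symm
  set U' := U.filter fun v => (G.card : ℝ) / (2 * Q) ≤ (Gv v).card with hU'
  have hsplit : (G.card : ℝ) / 2 ≤ ∑ v ∈ U', ((Gv v).card : ℝ) := by
    have h1 := sum_filter_add_sum_filter_not U
      (fun v => (G.card : ℝ) / (2 * Q) ≤ (Gv v).card) (fun v => ((Gv v).card : ℝ))
    rw [hsumG] at h1
    have h2 : ∑ v ∈ U.filter (fun v => ¬ (G.card : ℝ) / (2 * Q) ≤ (Gv v).card),
        ((Gv v).card : ℝ) ≤ ∑ _v ∈ U, (G.card : ℝ) / (2 * Q) := by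
      refine (sum_le_sum fun v hv => (not_le.1 (mem_filter.1 hv).2).le).trans ?_
      refine sum_le_sum_of_subset_of_nonneg (filter_subset _ _) fun _ _ _ => by positivity
    rw [sum_const, nsmul_eq_mul] at h2
    have h3 : (U.card : ℝ) * ((G.card : ℝ) / (2 * Q)) ≤ Q * ((G.card : ℝ) / (2 * Q)) :=
      mul_le_mul_of_nonneg_right (by exact_mod_cast hQ) (by positivity)
    have h4 : (Q : ℝ) * ((G.card : ℝ) / (2 * Q)) = G.card / 2 := by field_simp
    linarith
  have hU'H : (G.card : ℝ) / 2 ≤ U'.card * H := by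
    refine hsplit.trans ?_
    have h1 : ∑ v ∈ U', ((Gv v).card : ℝ) ≤ ∑ _v ∈ U', (H : ℝ) :=
      sum_le_sum fun v _ => by exact_mod_cast hH v
    rw [sum_const, nsmul_eq_mul] at h1
    exact h1
  have hU'pos : (0 : ℝ) < U'.card := by
    by_contra hcon
    have h0 : (U'.card : ℝ) = 0 := le_antisymm (not_lt.1 hcon) (Nat.cast_nonneg _)
    rw [h0, zero_mul] at hU'H
    linarith
  have hU'ne : U'.Nonempty := card_pos.1 (by exact_mod_cast hU'pos)
  set S : ℤ → ℝ := fun v => ∑ p, (((Gv v).image (f p)).card : ℝ) with hS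
  have hSsum : ∑ v ∈ U', S v ≤ N * E.card := by
    rw [sum_comm]
    have h1 : ∀ p : ι, ∑ v ∈ U', (((Gv v).image (f p)).card : ℝ) ≤ E.card := by
      intro p
      have h2 : ((U'.biUnion fun v => (Gv v).image (f p)).card : ℝ) =
          ∑ v ∈ U', (((Gv v).image (f p)).card : ℝ) := by
        rw [← Nat.cast_sum, card_biUnion]
        intro v _ v' _ hvv
        rw [Function.onFun, disjoint_left]
        intro t ht ht'
        obtain ⟨k, hk, rfl⟩ := mem_image.1 ht
        obtain ⟨k', hk', hkk⟩ := mem_image.1 ht'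
        apply hvv
        rw [← (mem_filter.1 hk).2, ← (mem_filter.1 hk').2]
        exact hdisj p k (mem_filter.1 hk).1 k' (mem_filter.1 hk').1 hkk.symm
      rw [← h2]
      have h3 : (U'.biUnion fun v => (Gv v).image (f p)) ⊆ E := by
        intro t ht
        obtain ⟨v, _, ht⟩ := mem_biUnion.1 ht
        obtain ⟨k, hk, rfl⟩ := mem_image.1 ht
        exact hfE k (mem_filter.1 hk).1 p
      exact_mod_cast card_le_card h3
    calc ∑ p : ι, ∑ v ∈ U', (((Gv v).image (f p)).card : ℝ) ≤ ∑ _p : ι, (E.card : ℝ) :=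
          sum_le_sum fun p _ => h1 p
      _ = N * E.card := by rw [sum_const, card_univ, nsmul_eq_mul]
  obtain ⟨v, hvU', hv⟩ := exists_min_image U' S hU'ne
  have hvS : U'.card * S v ≤ N * E.card := by
    refine le_trans ?_ hSsum
    rw [← nsmul_eq_mul]
    exact card_nsmul_le_sum _ _ _ fun w hw => hv w hw
  have hS0 : 0 ≤ S v := sum_nonneg fun _ _ => Nat.cast_nonneg _
  have hSle : S v * G.card ≤ 2 * H * N * E.card := by
    have h1 : S v * (G.card / 2) ≤ S v * (U'.card * H) := mul_le_mul_of_nonneg_left hU'H hS0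
    have h2 : U'.card * S v * H ≤ N * E.card * H :=
      mul_le_mul_of_nonneg_right hvS (Nat.cast_nonneg _)
    nlinarith
  have hGvle : ((Gv v).card : ℝ) ≤ A * S v ^ N := by
    have h1 : (Gv v).card ≤ A * ((Gv v).image fun k p => f p k).card := by
      refine card_le_mul_card_image _ _ fun b hb => ?_
      obtain ⟨k₀, hk₀, rfl⟩ := mem_image.1 hb
      refine (card_le_card ?_).trans (hA k₀ (mem_filter.1 hk₀).1)
      intro k hk
      rw [mem_filter] at hk ⊢
      exact ⟨(mem_filter.1 hk.1).1, fun p => congrFun hk.2 p⟩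
    have h2 : ((Gv v).image fun k p => f p k).card ≤ ∏ p, ((Gv v).image (f p)).card := by
      rw [← Fintype.card_piFinset]
      refine card_le_card ?_
      intro w hw
      obtain ⟨k, hk, rfl⟩ := mem_image.1 hw
      rw [Fintype.mem_piFinset]
      exact fun p => mem_image_of_mem _ hk
    have h3 : ∏ p, (((Gv v).image (f p)).card : ℝ) ≤ ∏ _p : ι, S v :=
      prod_le_prod (fun _ _ => Nat.cast_nonneg _) fun p _ =>
        single_le_sum (f := fun p => (((Gv v).image (f p)).card : ℝ))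
          (fun _ _ => Nat.cast_nonneg _) (mem_univ p)
    rw [prod_const, card_univ] at h3
    have h4 : ((((Gv v).image fun k p => f p k).card : ℕ) : ℝ) ≤ S v ^ N := by
      refine le_trans ?_ h3
      exact_mod_cast h2
    calc ((Gv v).card : ℝ) ≤ A * (((Gv v).image fun k p => f p k).card : ℕ) := by exact_mod_cast h1
      _ ≤ A * S v ^ N := mul_le_mul_of_nonneg_left h4 (Nat.cast_nonneg _)
  have hlow : (G.card : ℝ) / (2 * Q) ≤ A * S v ^ N := (mem_filter.1 hvU').2.trans hGvle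
  have h5 : (G.card : ℝ) ≤ 2 * Q * (A * S v ^ N) := by
    rw [div_le_iff₀ (by positivity)] at hlow
    linarith
  calc (G.card : ℝ) ^ (N + 1) = G.card ^ N * G.card := pow_succ _ _
    _ ≤ G.card ^ N * (2 * Q * (A * S v ^ N)) :=
        mul_le_mul_of_nonneg_left h5 (pow_nonneg hg.le N)
    _ = 2 * Q * A * (S v * G.card) ^ N := by rw [mul_pow]; ring
    _ ≤ 2 * Q * A * (2 * H * N * E.card) ^ N :=
        mul_le_mul_of_nonneg_left (pow_le_pow_left₀ (mul_nonneg hS0 hg.le) hSle _)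
          (mul_nonneg (mul_nonneg zero_le_two hQ0.le) (Nat.cast_nonneg A))

end Pool.Agent.N759.FV
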