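import Mathlib
import Pool.Agent.W777.FV.Main
import Pool.Agent.N759.UC.FewQ

/-! # A uniform small point -/

open Filter Topology Matrix H715R2

namespace Pool.Agent.N759.FV

open Pool.Agent.W777.FV Pool.Agent.N759.UC

variable {d : ℕ}

/-- every system in the class has a bounded small point -/
theorem small_point (hd0 : 0 < d) {V ν T : ℝ} (hV : 0 < V) (hν : 0 < ν)
    (hT : ∀ h : Matrix (Fin d) (Fin d) ℝ, |h.det| = V →
      ∃ m : Fin d → ℤ, m ≠ 0 ∧ |FF h (iR m)| < T) :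
    ∃ N₀ : ℝ, 0 < N₀ ∧ ∀ g : Matrix (Fin d) (Fin d) ℝ, |g.det| = V → HasNu g ν →
      ∃ p : Fin d → ℤ, p ≠ 0 ∧ (∀ i, |(g *ᵥ iR p) i| ≤ N₀) ∧ |FF g (iR p)| < T := by
  classical
  obtain ⟨R, hR⟩ := exists_bound hd0 V ν hV hν
  set R' : ℝ := max R 0 with hR'
  set 𝒦 : Set (Matrix (Fin d) (Fin d) ℝ) :=
    {h | ∀ i j, |h i j| ≤ R'} ∩ {h | |h.det| = V} with h𝒦
  have hcpt : IsCompact 𝒦 :=
    (isCompact_box R').inter_right
      (isClosed_eq (continuous_abs.comp continuous_det') continuous_const)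
  have hloc : ∀ h₀ ∈ 𝒦, ∃ m : Fin d → ℤ, ∃ W ∈ 𝓝 h₀, m ≠ 0 ∧ ∀ h ∈ W, |FF h (iR m)| < T := by
    intro h₀ hh₀
    obtain ⟨m, hm0, hmT⟩ := hT h₀ hh₀.2
    have hev : ∀ᶠ h in 𝓝 h₀, |FF h (iR m)| < T :=
      ((continuous_abs.comp (continuous_FF (iR m))).tendsto h₀).eventually (gt_mem_nhds hmT)
    exact ⟨m, _, hev, hm0, fun h hh => hh⟩
  choose! m W hW hm0 hmT using hloc
  obtain ⟨t, ht𝒦, htcov⟩ := hcpt.elim_nhds_subcover W hW
  set M : ℝ := ∑ x ∈ t, ∑ j, |(m x j : ℝ)| with hM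
  have hM0 : 0 ≤ M := Finset.sum_nonneg fun _ _ => Finset.sum_nonneg fun _ _ => abs_nonneg _
  have hMe : ∀ x ∈ t, ∀ j, |(m x j : ℝ)| ≤ M := by
    intro x hx j
    refine (Finset.single_le_sum (f := fun j => |(m x j : ℝ)|) (fun _ _ => abs_nonneg _)
      (Finset.mem_univ j)).trans ?_
    exact Finset.single_le_sum (f := fun x => ∑ j, |(m x j : ℝ)|)
      (fun _ _ => Finset.sum_nonneg fun _ _ => abs_nonneg _) hx
  have hR'0 : 0 ≤ R' := le_max_right _ _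
  refine ⟨d * (R' * M) + 1, by positivity, ?_⟩
  intro g hgV hnu
  obtain ⟨γ, hγ, hγR⟩ := hR g hgV hnu
  have hmem : g * zR γ ∈ 𝒦 := by
    refine ⟨fun i j => (hγR i j).trans (le_max_left _ _), ?_⟩
    show |(g * zR γ).det| = V
    rw [det_mul, abs_mul, det_zR, abs_det_of_isUnit hγ, mul_one]
    exact hgV
  have hcov := htcov hmem
  rw [Set.mem_iUnion₂] at hcov
  obtain ⟨x, hx, hxW⟩ := hcov
  refine ⟨γ *ᵥ m x, ?_, ?_, ?_⟩
  · intro h0
    apply hm0 x (ht𝒦 x hx)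
    have h3 : (γ)⁻¹ *ᵥ (γ *ᵥ m x) = 0 := by rw [h0, mulVec_zero]
    rwa [mulVec_mulVec, Matrix.nonsing_inv_mul _ hγ, one_mulVec] at h3
  · intro i
    have h1 : (g *ᵥ iR (γ *ᵥ m x)) i = ((g * zR γ) *ᵥ iR (m x)) i := by
      rw [← zR_mulVec_iR, mulVec_mulVec]
    rw [h1, mulVec, dotProduct]
    refine (Finset.abs_sum_le_sum_abs _ _).trans ?_
    have h2 : ∑ k, |(g * zR γ) i k * iR (m x) k| ≤ ∑ _k : Fin d, R' * M := by
      refine Finset.sum_le_sum fun k _ => ?_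
      rw [abs_mul]
      exact mul_le_mul ((hγR i k).trans (le_max_left _ _)) (hMe x hx k) (abs_nonneg _) hR'0
    refine h2.trans ?_
    rw [Finset.sum_const, Finset.card_univ, Fintype.card_fin, nsmul_eq_mul]
    linarith
  · have h1 := hmT x (ht𝒦 x hx) _ hxW
    rwa [FF_mul, zR_mulVec_iR] at h1

end Pool.Agent.N759.FV
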