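import Mathlib
import Pool.Agent.N759.FV.Colour
import Pool.Agent.N759.FV.SmallPt

/-! # The finite cover -/

open Filter Topology Matrix H715R2

namespace Pool.Agent.N759.FV

open Pool.Agent.W777.FV Pool.Agent.N759.UC

/-- the size of the coordinates of a small point -/
lemma log_bound {r : ℕ} {N₀ ν : ℝ} (hN₀ : 0 < N₀) (hν : 0 < ν) (z φ : Fin (r + 1) → ℝ)
    (hφ : ∑ i, φ i = 0) (hz : ∀ i, |Real.exp (φ i) * z i| ≤ N₀) (hzν : ν ≤ |∏ i, z i|) :
    ∀ i, z i ≠ 0 ∧ |Real.log (abs (z i)) + φ i| ≤ |Real.log N₀| + |Real.log (ν / N₀ ^ r)| := by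
  classical
  intro i
  have hprod : ∏ i, |Real.exp (φ i) * z i| = |∏ i, z i| := by
    rw [← Finset.abs_prod, Finset.prod_mul_distrib, ← Real.exp_sum, hφ, Real.exp_zero, one_mul]
  have h1 : ν ≤ |Real.exp (φ i) * z i| * N₀ ^ r := by
    refine hzν.trans ?_
    rw [← hprod, ← Finset.mul_prod_erase Finset.univ _ (Finset.mem_univ i)]
    refine mul_le_mul_of_nonneg_left ?_ (abs_nonneg _)
    have h2 := Finset.prod_le_prod (s := Finset.univ.erase i)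
      (f := fun i => |Real.exp (φ i) * z i|) (g := fun _ => N₀) (fun _ _ => abs_nonneg _)
      (fun j _ => hz j)
    rw [Finset.prod_const, Finset.card_erase_of_mem (Finset.mem_univ i), Finset.card_univ,
      Fintype.card_fin, Nat.add_sub_cancel] at h2
    exact h2
  have hN₀r : 0 < N₀ ^ r := pow_pos hN₀ r
  have h3 : ν / N₀ ^ r ≤ |Real.exp (φ i) * z i| := by
    rw [div_le_iff₀ hN₀r]
    exact h1
  have hpos : 0 < ν / N₀ ^ r := div_pos hν hN₀r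
  have hz0 : z i ≠ 0 := by
    intro h0
    rw [h0, mul_zero, abs_zero] at h3
    linarith
  refine ⟨hz0, ?_⟩
  have h4 : Real.log |Real.exp (φ i) * z i| = Real.log (abs (z i)) + φ i := by
    rw [abs_mul, abs_of_pos (Real.exp_pos _), Real.log_mul (Real.exp_pos _).ne'
      (abs_ne_zero.2 hz0), Real.log_exp, add_comm]
  rw [← h4]
  have h5 := Real.log_le_log hpos h3
  have h6 := Real.log_le_log (hpos.trans_le h3) (hz i)
  rw [abs_le]
  constructor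
  · have := neg_abs_le (Real.log (ν / N₀ ^ r))
    have := abs_nonneg (Real.log N₀)
    linarith
  · have := le_abs_self (Real.log N₀)
    have := abs_nonneg (Real.log (ν / N₀ ^ r))
    linarith

/-- **The finite cover.** -/
theorem cover {r : ℕ} (hr : 0 < r) {V ν T : ℝ} (hV : 0 < V) (hν : 0 < ν)
    (hT : ∀ h : Matrix (Fin (r + 1)) (Fin (r + 1)) ℝ, |h.det| = V →
      ∃ m : Fin (r + 1) → ℤ, m ≠ 0 ∧ |FF h (iR m)| < T) (Ω : Type) [Fintype Ω] :
    ∃ (L : ℕ) (Rp M : ℝ) (t : Finset (Matrix (Fin (r + 1)) (Fin (r + 1)) ℝ))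
      (m : Matrix (Fin (r + 1)) (Fin (r + 1)) ℝ → (Fin r → Fin (L + 1)) → Fin (r + 1) → ℤ)
      (W : Matrix (Fin (r + 1)) (Fin (r + 1)) ℝ → Set (Matrix (Fin (r + 1)) (Fin (r + 1)) ℝ)),
      0 ≤ Rp ∧ 0 ≤ M ∧ (∀ x ∈ t, ∀ l j, |(m x l j : ℝ)| ≤ M) ∧ (∀ x ∈ t, ∀ l, m x l ≠ 0) ∧
      (∀ x ∈ t, ∀ h ∈ W x, ∀ l, |FF h (iR (m x l))| < T) ∧
      (∀ x ∈ t, ∀ χ : (Fin r → Fin (L + 1)) → Ω,
        ∃ (ω : Ω) (q : Od (r + 1) → (Fin r → Fin (L + 1))), (∀ p, χ (q p) = ω) ∧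
          ∀ h ∈ W x, ∀ h' ∈ W x, |h.det| = |h'.det| →
            (∀ p, FF h (iR (m x (q p))) = FF h' (iR (m x (q p)))) →
            ∃ a : Fin (r + 1) → ℝ, (∀ i, 1 / 3 < a i ∧ a i < 3) ∧ h' = diagonal a * h) ∧
      ∀ g : Matrix (Fin (r + 1)) (Fin (r + 1)) ℝ, |g.det| = V → HasNu g ν →
        ∃ γ : Matrix (Fin (r + 1)) (Fin (r + 1)) ℤ, IsUnit γ.det ∧
          (∀ i j, |(g * zR γ) i j| ≤ Rp) ∧ ∃ x ∈ t, g * zR γ ∈ W x := by
  classical
  have hd0 : 0 < r + 1 := Nat.succ_pos r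
  obtain ⟨R, hR⟩ := exists_bound hd0 V ν hV hν
  obtain ⟨N₀, hN₀, hsp⟩ := small_point hd0 hV hν hT
  set B : ℝ := |Real.log N₀| + |Real.log (ν / N₀ ^ r)| with hB
  set D : ℝ := 2 * (Real.log (Fintype.card (Od (r + 1))) + 2 * ((r + 1 : ℕ) : ℝ) * B) + 1 with hD
  have hB0 : 0 ≤ B := by positivity
  have hlog0 : 0 ≤ Real.log (Fintype.card (Od (r + 1))) := Real.log_natCast_nonneg _
  have hD0 : 0 < D := by positivity
  set L : ℕ := Fintype.card Ω * Fintype.card (Od (r + 1)) ^ 2 with hL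
  set R' : ℝ := max R 0 with hR'
  set 𝒦 : Set (Matrix (Fin (r + 1)) (Fin (r + 1)) ℝ) :=
    ({h | ∀ i j, |h i j| ≤ R'} ∩ {h | |h.det| = V}) ∩ {h | HasNu h ν} with h𝒦
  have hcpt : IsCompact 𝒦 := by
    refine ((isCompact_box R').inter_right ?_).inter_right (Pool.Agent.W777.FV.isClosed_hasNu ν)
    exact isClosed_eq (continuous_abs.comp continuous_det') continuous_const
  have hloc : ∀ h₀ ∈ 𝒦, ∃ m : (Fin r → Fin (L + 1)) → Fin (r + 1) → ℤ, ∃ W ∈ 𝓝 h₀,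
      (∀ l, m l ≠ 0) ∧ (∀ h ∈ W, ∀ l, |FF h (iR (m l))| < T) ∧
      ∀ χ : (Fin r → Fin (L + 1)) → Ω,
        ∃ (ω : Ω) (q : Od (r + 1) → (Fin r → Fin (L + 1))), (∀ p, χ (q p) = ω) ∧
          ∀ h ∈ W, ∀ h' ∈ W, |h.det| = |h'.det| →
            (∀ p, FF h (iR (m (q p))) = FF h' (iR (m (q p)))) →
            ∃ a : Fin (r + 1) → ℝ, (∀ i, 1 / 3 < a i ∧ a i < 3) ∧ h' = diagonal a * h := by
    intro h₀ hh₀
    have hdet : |h₀.det| = V := hh₀.1.2
    have hnu₀ : HasNu h₀ ν := hh₀.2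
    have hdet0 : h₀.det ≠ 0 := by
      intro h0
      rw [h0, abs_zero] at hdet
      exact hV.ne hdet
    have hex : ∀ l : Fin r → Fin (L + 1), ∃ p : Fin (r + 1) → ℤ, p ≠ 0 ∧
        (∀ i, |Real.exp (gpos D (fun j => ((l j : ℕ) : ℝ)) i) * (h₀ *ᵥ iR p) i| ≤ N₀) ∧
        |FF h₀ (iR p)| < T := by
      intro l
      set φ := gpos D (fun j => ((l j : ℕ) : ℝ)) with hφ
      have h1 : ∏ i, Real.exp (φ i) = 1 := by
        rw [← Real.exp_sum, hφ, sum_gpos, Real.exp_zero]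
      obtain ⟨p, hp0, hpN, hpT⟩ := hsp (diagonal (fun i => Real.exp (φ i)) * h₀)
        (by rw [det_mul, det_diagonal, h1, one_mul]; exact hdet)
        (fun m hm => by rw [FF_diag_mul, h1, one_mul]; exact hnu₀ m hm)
      refine ⟨p, hp0, fun i => ?_, ?_⟩
      · have := hpN i
        rwa [← mulVec_mulVec, mulVec_diagonal] at this
      · rwa [FF_diag_mul, h1, one_mul] at hpT
    choose m hm0 hmN hmT using hex
    have hlb : ∀ l i, (h₀ *ᵥ iR (m l)) i ≠ 0 ∧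
        |Real.log (abs ((h₀ *ᵥ iR (m l)) i)) + gpos D (fun j => ((l j : ℕ) : ℝ)) i| ≤ B := by
      intro l
      refine log_bound hN₀ hν (h₀ *ᵥ iR (m l)) _ (sum_gpos D _) (hmN l) ?_
      rw [← FF_eq]
      exact hnu₀ _ (hm0 l)
    have hU : ∀ q : Od (r + 1) → (Fin r → Fin (L + 1)), ∃ U ∈ 𝓝 h₀, Spans h₀ (fun p => m (q p)) →
        ∀ h ∈ U, ∀ h' ∈ U, |h.det| = |h'.det| →
            (∀ p, FF h (iR (m (q p))) = FF h' (iR (m (q p)))) →
            ∃ a : Fin (r + 1) → ℝ, (∀ i, 1 / 3 < a i ∧ a i < 3) ∧ h' = diagonal a * h := by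
      intro q
      by_cases hq : Spans h₀ (fun p => m (q p))
      · obtain ⟨U, hU, hUd⟩ := determine_gen hdet0 (fun p => m (q p))
          (fun p j => (hlb (q p) j).1) hq
        exact ⟨U, hU, fun _ => hUd⟩
      · exact ⟨Set.univ, Filter.univ_mem, fun h => absurd h hq⟩
    choose U hU hUd using hU
    have hev : ∀ᶠ h in 𝓝 h₀, (∀ q, h ∈ U q) ∧ ∀ l, |FF h (iR (m l))| < T := by
      refine (Filter.eventually_all.2 fun q => hU q).and (Filter.eventually_all.2 fun l => ?_)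
      exact ((continuous_abs.comp (continuous_FF (iR (m l)))).tendsto h₀).eventually
        (gt_mem_nhds (hmT l))
    refine ⟨m, _, hev, hm0, fun h hh => hh.2, fun χ => ?_⟩
    obtain ⟨ω, q, hq1, hq2⟩ := one_colour L D B hD0 (by rw [hD]; linarith) Ω (by omega) hr h₀ m
      (fun l i => (hlb l i).1) (fun l i => (hlb l i).2) χ
    exact ⟨ω, q, hq1, fun h hh h' hh' => hUd q hq2 h (hh.1 q) h' (hh'.1 q)⟩
  choose! m W hW hm0 hmT hχ using hloc
  obtain ⟨t, ht𝒦, htcov⟩ := hcpt.elim_nhds_subcover W hW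
  set M : ℝ := ∑ x ∈ t, ∑ l, ∑ j, |(m x l j : ℝ)| with hM
  have hM0 : 0 ≤ M := Finset.sum_nonneg fun _ _ => Finset.sum_nonneg fun _ _ =>
    Finset.sum_nonneg fun _ _ => abs_nonneg _
  have hMe : ∀ x ∈ t, ∀ l j, |(m x l j : ℝ)| ≤ M := by
    intro x hx l j
    refine (Finset.single_le_sum (f := fun j => |(m x l j : ℝ)|) (fun _ _ => abs_nonneg _)
      (Finset.mem_univ j)).trans ?_
    refine (Finset.single_le_sum (f := fun l => ∑ j, |(m x l j : ℝ)|)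
      (fun _ _ => Finset.sum_nonneg fun _ _ => abs_nonneg _) (Finset.mem_univ l)).trans ?_
    exact Finset.single_le_sum (f := fun x => ∑ l, ∑ j, |(m x l j : ℝ)|)
      (fun _ _ => Finset.sum_nonneg fun _ _ => Finset.sum_nonneg fun _ _ => abs_nonneg _) hx
  refine ⟨L, R', M, t, m, W, le_max_right _ _, hM0, hMe, fun x hx => hm0 x (ht𝒦 x hx),
    fun x hx => hmT x (ht𝒦 x hx), fun x hx => hχ x (ht𝒦 x hx), ?_⟩
  intro g hgV hnu
  obtain ⟨γ, hγ, hγR⟩ := hR g hgV hnu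
  have horb : g * zR γ ∈ Orb g := ⟨fun _ => 1, γ, fun _ => one_pos, by simp, hγ, by
    have h2 : diagonal (fun _ : Fin (r + 1) => (1 : ℝ)) = 1 := diagonal_one
    rw [h2, Matrix.one_mul]⟩
  have hmem : g * zR γ ∈ 𝒦 :=
    ⟨⟨fun i j => (hγR i j).trans (le_max_left _ _), (abs_det_orb horb).trans hgV⟩,
      hasNu_orb hnu horb⟩
  have hcov := htcov hmem
  rw [Set.mem_iUnion₂] at hcov
  obtain ⟨x, hx, hxW⟩ := hcov
  exact ⟨γ, hγ, fun i j => (hγR i j).trans (le_max_left _ _), x, hx, hxW⟩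

end Pool.Agent.N759.FV
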