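import Mathlib
import Pool.Agent.N759.FV.Full
import Pool.Agent.N759.FV.Trop

/-! # Counting degenerate automorphs on a grid -/

namespace Pool.Agent.N759.FV

open Finset

/-- the difference of two positions -/
def vext {r : ℕ} (v : Fin r → ℤ) : Fin (r + 1) → ℤ :=
  Fin.snoc (α := fun _ => ℤ) v (-∑ j, v j)

lemma sum_vext {r : ℕ} (v : Fin r → ℤ) : ∑ i, vext v i = 0 := by
  rw [Fin.sum_univ_castSucc]
  simp [vext]

lemma vext_abs_le {r : ℕ} (hr : 0 < r) (v : Fin r → ℤ) {K : ℤ} (hv : ∀ j, |v j| ≤ K)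
    (i : Fin (r + 1)) : |vext v i| ≤ r * K := by
  have hK : 0 ≤ K := (abs_nonneg _).trans (hv ⟨0, hr⟩)
  refine Fin.lastCases ?_ (fun j => ?_) i
  · simp only [vext, Fin.snoc_last]
    rw [abs_neg]
    refine (abs_sum_le_sum_abs _ _).trans ?_
    have h1 : ∑ j, |v j| ≤ ∑ _j : Fin r, K := sum_le_sum fun j _ => hv j
    rw [sum_const, card_univ, Fintype.card_fin, nsmul_eq_mul] at h1
    exact h1
  · simp only [vext, Fin.snoc_castSucc]
    have h1 : (1 : ℤ) ≤ r := by exact_mod_cast hr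
    have h2 := hv j
    nlinarith

/-- the number of integer vectors of sum zero which are constant on the fibres of `f` -/
lemma card_fibres {r m : ℕ} (hr : 0 < r) (K : ℕ) (f : Fin (r + 1) → Fin m)
    (z₀ : Fin r → Fin (K + 1)) (Z : Finset (Fin r → Fin (K + 1)))
    (hZ : ∀ k ∈ Z, ∀ i i', f i = f i' →
      vext (fun j => ((k j : ℕ) : ℤ) - ((z₀ j : ℕ) : ℤ)) i =
        vext (fun j => ((k j : ℕ) : ℤ) - ((z₀ j : ℕ) : ℤ)) i') :
    Z.card ≤ (2 * r * K + 1) ^ (m - 1) := by
  classical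
  set v : (Fin r → Fin (K + 1)) → Fin (r + 1) → ℤ :=
    fun k => vext (fun j => ((k j : ℕ) : ℤ) - ((z₀ j : ℕ) : ℤ)) with hv
  set B : Finset ℤ := Icc (-((r * K : ℕ) : ℤ)) ((r * K : ℕ) : ℤ) with hB
  have hBcard : B.card = 2 * r * K + 1 := by
    rw [hB, Int.card_Icc]
    have h3 : ((r * K : ℕ) : ℤ) + 1 - -((r * K : ℕ) : ℤ) = ((2 * r * K + 1 : ℕ) : ℤ) := by
      push_cast
      ring
    rw [h3, Int.toNat_natCast]
  have hvB : ∀ k i, v k i ∈ B := by
    intro k i
    rw [hB, mem_Icc, ← abs_le]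
    have h1 := vext_abs_le hr (fun j => ((k j : ℕ) : ℤ) - ((z₀ j : ℕ) : ℤ)) (K := K) (fun j => by
      have h1 := Nat.lt_succ_iff.1 (k j).2
      have h2 := Nat.lt_succ_iff.1 (z₀ j).2
      rw [abs_le]
      constructor <;> omega) i
    push_cast
    exact h1
  have h0B : (0 : ℤ) ∈ B := by
    rw [hB, mem_Icc]
    have h1 : (0 : ℤ) ≤ ((r * K : ℕ) : ℤ) := Int.natCast_nonneg _
    constructor <;> linarith
  set g : (Fin r → Fin (K + 1)) → ({j : Fin m // j ≠ f (Fin.last r)} → B) := fun k j =>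
    if h : ∃ i, f i = j.1 then ⟨v k h.choose, hvB _ _⟩ else ⟨0, h0B⟩ with hg
  have hcard : Fintype.card ({j : Fin m // j ≠ f (Fin.last r)} → B) =
      (2 * r * K + 1) ^ (m - 1) := by
    rw [Fintype.card_fun, Fintype.card_coe, hBcard, Fintype.card_subtype_compl]
    simp
  rw [← hcard, ← card_univ (α := {j : Fin m // j ≠ f (Fin.last r)} → B)]
  refine card_le_card_of_injOn g (fun k _ => mem_coe.2 (mem_univ _)) ?_
  intro k hk k' hk' hkk
  have hne : ∀ i, f i ≠ f (Fin.last r) → v k i = v k' i := by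
    intro i hi
    have h1 := congrFun hkk ⟨f i, hi⟩
    have hex : ∃ i', f i' = f i := ⟨i, rfl⟩
    simp only [hg] at h1
    rw [dif_pos hex, dif_pos hex, Subtype.mk.injEq] at h1
    have h2 := hZ k hk hex.choose i hex.choose_spec
    have h3 := hZ k' hk' hex.choose i hex.choose_spec
    simp only [hv] at h1 ⊢
    rw [← h2, ← h3]
    exact h1
  have hlast : ∀ i, f i = f (Fin.last r) → v k i - v k' i = v k (Fin.last r) - v k' (Fin.last r) := by
    intro i hi
    have h2 := hZ k hk i (Fin.last r) hi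
    have h3 := hZ k' hk' i (Fin.last r) hi
    simp only [hv]
    rw [h2, h3]
  have hsum : ∑ i, (v k i - v k' i) = 0 := by
    rw [sum_sub_distrib, hv, sum_vext, sum_vext, sub_self]
  have hsum2 : ∑ i, (v k i - v k' i) =
      ((univ.filter fun i => f i = f (Fin.last r)).card : ℤ) *
        (v k (Fin.last r) - v k' (Fin.last r)) := by
    rw [← sum_filter_add_sum_filter_not univ (fun i => f i = f (Fin.last r))]
    have h1 : ∑ i ∈ univ.filter (fun i => ¬ f i = f (Fin.last r)), (v k i - v k' i) = 0 :=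
      sum_eq_zero fun i hi => by rw [hne i (mem_filter.1 hi).2, sub_self]
    rw [h1, add_zero, sum_congr rfl fun i hi => hlast i (mem_filter.1 hi).2, sum_const,
      nsmul_eq_mul]
  have hpos : 0 < (univ.filter fun i => f i = f (Fin.last r)).card :=
    card_pos.2 ⟨Fin.last r, mem_filter.2 ⟨mem_univ _, rfl⟩⟩
  rw [hsum] at hsum2
  have hl0 : v k (Fin.last r) - v k' (Fin.last r) = 0 := by
    rcases mul_eq_zero.1 hsum2.symm with h | h
    · exfalso
      have : (univ.filter fun i => f i = f (Fin.last r)).card = 0 := by exact_mod_cast h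
      omega
    · exact h
  have hall : ∀ i, v k i = v k' i := by
    intro i
    by_cases hi : f i = f (Fin.last r)
    · have := hlast i hi
      omega
    · exact hne i hi
  funext j
  have h1 := hall j.castSucc
  simp only [hv, vext, Fin.snoc_castSucc] at h1
  exact Fin.ext (by omega)

lemma gpos_sub {r : ℕ} {K : ℕ} (D : ℝ) (k z₀ : Fin r → Fin (K + 1)) (i : Fin (r + 1)) :
    gpos D (fun j => ((k j : ℕ) : ℝ)) i - gpos D (fun j => ((z₀ j : ℕ) : ℝ)) i =
      D * (vext (fun j => ((k j : ℕ) : ℤ) - ((z₀ j : ℕ) : ℤ)) i : ℝ) := by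
  refine Fin.lastCases ?_ (fun j => ?_) i
  · simp only [gpos, vext, Fin.snoc_last]
    push_cast
    rw [mul_neg, mul_sum, neg_sub_neg, ← sum_sub_distrib, ← sum_neg_distrib]
    exact sum_congr rfl fun j _ => by ring
  · simp only [gpos, vext, Fin.snoc_castSucc]
    push_cast
    ring

/-- **Degenerate automorphs.** -/
theorem degenerate_card {r m K : ℕ} (hr : 0 < r) {D : ℝ} (hD : Real.log 9 ≤ D)
    (z₀ : Fin r → Fin (K + 1)) (Z : Finset (Fin r → Fin (K + 1)))
    (b : (Fin r → Fin (K + 1)) → Fin (r + 1) → ℝ)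
    (hb : ∀ k ∈ Z, ∀ i, 1 / 3 < b k i ∧ b k i < 3)
    (hc : ∀ k ∈ Z, (univ.image fun i => b k i * Real.exp
      (gpos D (fun j => ((z₀ j : ℕ) : ℝ)) i - gpos D (fun j => ((k j : ℕ) : ℝ)) i)).card ≤ m) :
    Z.card ≤ m ^ (r + 1) * (2 * r * K + 1) ^ (m - 1) := by
  classical
  set Zf : (Fin (r + 1) → Fin m) → Finset (Fin r → Fin (K + 1)) := fun f =>
    Z.filter fun k => ∀ i i', f i = f i' →
      vext (fun j => ((k j : ℕ) : ℤ) - ((z₀ j : ℕ) : ℤ)) i =
        vext (fun j => ((k j : ℕ) : ℤ) - ((z₀ j : ℕ) : ℤ)) i' with hZf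
  have hcov : Z ⊆ (univ : Finset (Fin (r + 1) → Fin m)).biUnion Zf := by
    intro k hk
    obtain ⟨f, w, hw⟩ := exists_factor_fin (hc k hk)
    refine mem_biUnion.2 ⟨f, mem_univ _, mem_filter.2 ⟨hk, fun i i' hii => ?_⟩⟩
    have hlog : ∀ i, w (f i) = Real.log (b k i) -
        D * (vext (fun j => ((k j : ℕ) : ℤ) - ((z₀ j : ℕ) : ℤ)) i : ℝ) := by
      intro i
      have h0 : 0 < b k i := by linarith [(hb k hk i).1]
      rw [hw i, Real.log_mul h0.ne' (Real.exp_pos _).ne', Real.log_exp, ← gpos_sub]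
      ring
    have h1 := hlog i
    rw [hii, hlog i'] at h1
    have h3 : ∀ i, |Real.log (b k i)| < Real.log 3 := by
      intro i
      have h1 := hb k hk i
      have h0 : 0 < b k i := by linarith
      rw [abs_lt]
      constructor
      · rw [← Real.log_inv]
        exact Real.log_lt_log (by norm_num) (by rw [← one_div]; exact h1.1)
      · exact Real.log_lt_log h0 h1.2
    have hl3 : Real.log 9 = 2 * Real.log 3 := by
      rw [show (9 : ℝ) = 3 ^ 2 by norm_num, Real.log_pow]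
      norm_num
    have hl3p : 0 < Real.log 3 := Real.log_pos (by norm_num)
    have hD0 : 0 < D := by linarith
    set A := vext (fun j => ((k j : ℕ) : ℤ) - ((z₀ j : ℕ) : ℤ)) i with hA
    set A' := vext (fun j => ((k j : ℕ) : ℤ) - ((z₀ j : ℕ) : ℤ)) i' with hA'
    have h4 : D * |((A - A' : ℤ) : ℝ)| < D := by
      rw [← abs_of_pos hD0, ← abs_mul, abs_of_pos hD0]
      have h5 : D * ((A - A' : ℤ) : ℝ) = Real.log (b k i) - Real.log (b k i') := by
        push_cast
        linarith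
      rw [h5]
      refine (abs_sub _ _).trans_lt ?_
      linarith [h3 i, h3 i']
    have h6 : |((A - A' : ℤ) : ℝ)| < 1 := by
      by_contra hcon
      have := mul_le_mul_of_nonneg_left (not_lt.1 hcon) hD0.le
      linarith
    have h7 : |A - A'| < 1 := by exact_mod_cast h6
    have h8 := Int.abs_lt_one_iff.1 h7
    omega
  refine (card_le_card hcov).trans ?_
  have hcard : (univ : Finset (Fin (r + 1) → Fin m)).card = m ^ (r + 1) := by
    rw [card_univ, Fintype.card_fun, Fintype.card_fin, Fintype.card_fin]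
  rw [← hcard]
  exact card_biUnion_le_card_mul _ _ _ fun f _ =>
    card_fibres hr K f z₀ (Zf f) fun k hk => (mem_filter.1 hk).2

end Pool.Agent.N759.FV
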