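import Mathlib
import Pool.Agent.H715R2.Orbit

/-! # The Veronese dichotomy -/

open Matrix H715R2

namespace Pool.Agent.N759.FV

open Finset

/-- the exponents of the monomials of degree `n` in `d` variables -/
abbrev Mon (d n : ℕ) : Type := {α : Fin d → Fin (n + 1) // ∑ i, (α i : ℕ) = n}

/-- the exponents -/
def ex {d n : ℕ} (a : Mon d n) (i : Fin d) : ℕ := (a.1 i : ℕ)

lemma ex_injective {d n : ℕ} : Function.Injective (ex (d := d) (n := n)) := by
  intro a b h
  apply Subtype.ext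
  funext i
  exact Fin.ext (congrFun h i)

lemma sum_ex {d n : ℕ} (a : Mon d n) : ∑ i, ex a i = n := a.2

/-- the monomial -/
noncomputable def mo {d n : ℕ} (a : Mon d n) : Fin d →₀ ℕ := Finsupp.equivFunOnFinite.symm (ex a)

lemma mo_apply {d n : ℕ} (a : Mon d n) (i : Fin d) : mo a i = ex a i := rfl

lemma mo_injective {d n : ℕ} : Function.Injective (mo (d := d) (n := n)) := by
  intro a b h
  apply ex_injective
  funext i
  rw [← mo_apply, ← mo_apply, h]

lemma exists_mo {d n : ℕ} (s : Fin d →₀ ℕ) (hs : ∑ i, s i = n) : ∃ a : Mon d n, mo a = s := by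
  have hle : ∀ i, s i < n + 1 := by
    intro i
    have := Finset.single_le_sum (f := fun i => s i) (fun _ _ => Nat.zero_le _) (mem_univ i)
    rw [hs] at this
    omega
  refine ⟨⟨fun i => ⟨s i, hle i⟩, hs⟩, ?_⟩
  ext i
  rfl

lemma eval_homog {d n : ℕ} {P : MvPolynomial (Fin d) ℝ} (hP : P.IsHomogeneous n)
    (x : Fin d → ℝ) :
    MvPolynomial.eval x P = ∑ a : Mon d n, MvPolynomial.coeff (mo a) P * ∏ i, x i ^ ex a i := by
  classical
  rw [MvPolynomial.eval_eq']
  have h1 : ∑ a : Mon d n, MvPolynomial.coeff (mo a) P * ∏ i, x i ^ ex a i =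
      ∑ s ∈ (univ : Finset (Mon d n)).image mo, MvPolynomial.coeff s P * ∏ i, x i ^ s i := by
    rw [sum_image fun a _ b _ h => mo_injective h]
    rfl
  rw [h1]
  refine sum_subset ?_ ?_
  · intro s hs
    have h2 := hP (MvPolynomial.mem_support_iff.1 hs)
    rw [mem_image]
    have h3 : ∑ i, s i = n := by
      rw [← h2, Finsupp.weight_apply, Finsupp.sum_fintype]
      · simp
      · simp
    obtain ⟨a, ha⟩ := exists_mo s h3
    exact ⟨a, mem_univ _, ha⟩
  · intro s _ hs
    rw [MvPolynomial.notMem_support_iff.1 hs, zero_mul]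

/-- change of variables -/
lemma change_vars {d n : ℕ} {g : Matrix (Fin d) (Fin d) ℝ} (hg : g.det ≠ 0) (w : Mon d n → ℝ)
    (hw : w ≠ 0) : ∃ h : Mon d n → ℝ, h ≠ 0 ∧ ∀ x : Fin d → ℝ,
      ∑ a, h a * ∏ i, (g *ᵥ x) i ^ ex a i = ∑ a, w a * ∏ i, x i ^ ex a i := by
  classical
  set Q : MvPolynomial (Fin d) ℝ := ∑ a : Mon d n, MvPolynomial.monomial (mo a) (w a) with hQ
  have hQh : Q.IsHomogeneous n := by
    refine MvPolynomial.IsHomogeneous.sum _ _ _ fun a _ => ?_
    refine MvPolynomial.isHomogeneous_monomial _ ?_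
    rw [Finsupp.degree_eq_sum]
    exact sum_ex a
  have hQc : ∀ a, MvPolynomial.coeff (mo a) Q = w a := by
    intro a
    rw [hQ, MvPolynomial.coeff_sum, sum_eq_single a]
    · rw [MvPolynomial.coeff_monomial, if_pos rfl]
    · intro b _ hb
      rw [MvPolynomial.coeff_monomial, if_neg fun h => hb (mo_injective h)]
    · intro h
      exact absurd (mem_univ _) h
  have hQe : ∀ x : Fin d → ℝ, MvPolynomial.eval x Q = ∑ a, w a * ∏ i, x i ^ ex a i := by
    intro x
    rw [eval_homog hQh]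
    exact sum_congr rfl fun a _ => by rw [hQc]
  set H : MvPolynomial (Fin d) ℝ := MvPolynomial.aeval
    (fun j => ∑ i, MvPolynomial.C (g⁻¹ j i) * MvPolynomial.X i) Q with hH
  have hHh : H.IsHomogeneous n := by
    have h1 := hQh.aeval (fun j => ∑ i, MvPolynomial.C (g⁻¹ j i) * MvPolynomial.X i :
      Fin d → MvPolynomial (Fin d) ℝ) (n := 1) (fun j => ?_)
    · rwa [one_mul] at h1
    · refine MvPolynomial.IsHomogeneous.sum _ _ _ fun i _ => ?_
      exact MvPolynomial.isHomogeneous_C_mul_X _ _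
  have hHe : ∀ y : Fin d → ℝ, MvPolynomial.eval y H = MvPolynomial.eval (g⁻¹ *ᵥ y) Q := by
    intro y
    have h1 := MvPolynomial.aeval_bind₁ y (fun j => (∑ i, MvPolynomial.C (g⁻¹ j i) *
      MvPolynomial.X i : MvPolynomial (Fin d) ℝ)) Q
    have h2 : (fun j => MvPolynomial.aeval y (∑ i, MvPolynomial.C (g⁻¹ j i) * MvPolynomial.X i :
        MvPolynomial (Fin d) ℝ)) = g⁻¹ *ᵥ y := by
      funext j
      simp [mulVec, dotProduct]
    rw [h2] at h1
    exact h1
  have hinv : ∀ x : Fin d → ℝ, g⁻¹ *ᵥ (g *ᵥ x) = x := by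
    intro x
    rw [mulVec_mulVec, Matrix.nonsing_inv_mul _ (isUnit_iff_ne_zero.2 hg), one_mulVec]
  have hfin : ∀ x : Fin d → ℝ,
      ∑ a : Mon d n, MvPolynomial.coeff (mo a) H * ∏ i, (g *ᵥ x) i ^ ex a i =
        ∑ a, w a * ∏ i, x i ^ ex a i := by
    intro x
    rw [← eval_homog hHh, hHe, hinv, hQe]
  refine ⟨fun a => MvPolynomial.coeff (mo a) H, ?_, hfin⟩
  intro h0
  apply hw
  have hQ0 : Q = 0 := by
    apply MvPolynomial.funext
    intro x
    rw [hQe, ← hfin x, map_zero]
    refine sum_eq_zero fun a _ => ?_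
    have := congrFun h0 a
    simp only [Pi.zero_apply] at this
    rw [this, zero_mul]
  funext a
  rw [← hQc a, hQ0]
  simp

/-- the product of the forms in terms of monomials -/
lemma exists_coeffs {d : ℕ} (g : Matrix (Fin d) (Fin d) ℝ) : ∃ f : Mon d d → ℝ,
    ∀ x : Fin d → ℝ, FF g x = ∑ a, f a * ∏ i, x i ^ ex a i := by
  classical
  set P : MvPolynomial (Fin d) ℝ := ∏ i, ∑ j, MvPolynomial.C (g i j) * MvPolynomial.X j with hP
  have hPh : P.IsHomogeneous d := by
    have h1 := MvPolynomial.IsHomogeneous.prod (univ : Finset (Fin d))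
      (fun i => ∑ j, MvPolynomial.C (g i j) * MvPolynomial.X j) (fun _ => 1) (fun i _ =>
        MvPolynomial.IsHomogeneous.sum _ _ _ fun j _ => MvPolynomial.isHomogeneous_C_mul_X _ _)
    simpa using h1
  refine ⟨fun a => MvPolynomial.coeff (mo a) P, fun x => ?_⟩
  rw [← eval_homog hPh, hP, FF, map_prod]
  refine prod_congr rfl fun i _ => ?_
  rw [map_sum]
  refine sum_congr rfl fun j _ => ?_
  simp

/-- **The dichotomy.** -/
theorem veronese {d : ℕ} {g : Matrix (Fin d) (Fin d) ℝ} (hg : g.det ≠ 0) {κ : Type} (V : Finset κ)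
    (p : κ → Fin d → ℤ) (lam : ℝ) (hlam : lam ≠ 0) (hp : ∀ k ∈ V, FF g (iR (p k)) = lam)
    (P : ℝ) (hP : ∀ k ∈ V, ∀ i, |(p k i : ℝ)| ≤ P) :
    (∃ η : ℝ, |lam| / ((Fintype.card (Mon d d)).factorial * (P ^ d) ^ Fintype.card (Mon d d)) ≤ η ∧
      0 < η ∧ ∀ m : Fin d → ℤ, ∃ z : ℤ, FF g (iR m) = η * z) ∨
    ∃ h : Mon d d → ℝ, h ≠ 0 ∧ ∀ k ∈ V, ∑ a, h a * ∏ i, (g *ᵥ iR (p k)) i ^ ex a i = 0 := by
  classical
  set vz : V → Mon d d → ℤ := fun k a => ∏ i, p k.1 i ^ ex a i with hvz
  set v : V → Mon d d → ℝ := fun k a => (vz k a : ℝ) with hv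
  have hvp : ∀ k : V, ∀ a, v k a = ∏ i, iR (p k.1) i ^ ex a i := by
    intro k a
    simp only [hv, hvz, iR]
    push_cast
    rfl
  rcases eq_or_ne (Submodule.span ℝ (Set.range v)) ⊤ with hspan | hspan
  · left
    obtain ⟨κ', s, hs, hspan', hli⟩ := exists_linearIndependent' ℝ v
    have b : Module.Basis κ' ℝ (Mon d d → ℝ) := Module.Basis.mk hli (by rw [hspan', hspan])
    have e : Mon d d ≃ κ' := (b.indexEquiv (Pi.basisFun ℝ (Mon d d))).symm
    set Bz : Matrix (Mon d d) (Mon d d) ℤ := fun a c => vz (s (e a)) c with hBz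
    set B : Matrix (Mon d d) (Mon d d) ℝ := Bz.map (Int.cast : ℤ → ℝ) with hB
    have hBrow : LinearIndependent ℝ B.row := by
      have h1 : B.row = (v ∘ s) ∘ e := by
        funext a c
        rfl
      rw [h1]
      exact hli.comp e e.injective
    have hBunit : IsUnit B := Matrix.linearIndependent_rows_iff_isUnit.1 hBrow
    have hdetB : B.det ≠ 0 := by
      rw [← isUnit_iff_ne_zero]
      exact (Matrix.isUnit_iff_isUnit_det B).1 hBunit
    have hdetBz : B.det = (Bz.det : ℝ) := by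
      have := (Int.castRingHom ℝ).map_det Bz
      simpa [hB] using this.symm
    have hDz : Bz.det ≠ 0 := by
      intro h0
      apply hdetB
      rw [hdetBz, h0, Int.cast_zero]
    obtain ⟨f, hf⟩ := exists_coeffs g
    have hBf : B *ᵥ f = fun _ => lam := by
      funext a
      rw [mulVec, dotProduct, ← hp (s (e a)).1 (s (e a)).2, hf]
      refine sum_congr rfl fun c _ => ?_
      rw [mul_comm, ← hvp]
      rfl
    have hadj : ∀ a, (Bz.det : ℝ) * f a = lam * ((∑ c, Bz.adjugate a c : ℤ) : ℝ) := by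
      intro a
      have h1 : B.adjugate *ᵥ (B *ᵥ f) = B.det • f := by
        rw [mulVec_mulVec, Matrix.adjugate_mul, smul_mulVec, one_mulVec]
      have h2 := congrFun h1 a
      rw [hBf] at h2
      simp only [Pi.smul_apply, smul_eq_mul] at h2
      rw [← hdetBz, ← h2, mulVec, dotProduct]
      have h3 : B.adjugate = Bz.adjugate.map (Int.cast : ℤ → ℝ) := by
        have := (Int.castRingHom ℝ).map_adjugate Bz
        simpa [hB] using this.symm
      rw [h3]
      push_cast
      rw [mul_sum]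
      refine sum_congr rfl fun c _ => ?_
      rw [mul_comm]
      rfl
    have hDpos : (0 : ℝ) < |(Bz.det : ℝ)| := abs_pos.2 (by exact_mod_cast hDz)
    have hDle : |(Bz.det : ℝ)| ≤
        (Fintype.card (Mon d d)).factorial * (P ^ d) ^ Fintype.card (Mon d d) := by
      have h1 := Matrix.det_le (A := B) (abv := AbsoluteValue.abs) (x := P ^ d) (fun a c => ?_)
      · rw [nsmul_eq_mul, AbsoluteValue.abs_apply, hdetBz] at h1
        exact h1
      · have h2 : B a c = ∏ i, iR (p (s (e a)).1) i ^ ex c i := hvp (s (e a)) c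
        rw [AbsoluteValue.abs_apply, h2, abs_prod]
        have h3 : ∏ i, |iR (p (s (e a)).1) i ^ ex c i| ≤ ∏ i, P ^ ex c i := by
          refine prod_le_prod (fun _ _ => abs_nonneg _) fun i _ => ?_
          rw [abs_pow]
          exact pow_le_pow_left₀ (abs_nonneg _) (hP _ (s (e a)).2 i) _
        refine h3.trans ?_
        rw [prod_pow_eq_pow_sum, sum_ex]
    refine ⟨|lam| / |(Bz.det : ℝ)|, ?_, div_pos (abs_pos.2 hlam) hDpos, ?_⟩
    · exact div_le_div_of_nonneg_left (abs_nonneg _) hDpos hDle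
    · intro m
      have h1 : ∃ z : ℤ, (Bz.det : ℝ) * FF g (iR m) = lam * z := by
        refine ⟨∑ a, (∑ c, Bz.adjugate a c) * ∏ i, m i ^ ex a i, ?_⟩
        rw [hf, mul_sum]
        push_cast
        rw [mul_sum]
        refine sum_congr rfl fun a _ => ?_
        have := hadj a
        push_cast at this
        rw [← mul_assoc, this]
        simp only [iR]
        ring
      obtain ⟨z, hz⟩ := h1
      have hDr : (Bz.det : ℝ) ≠ 0 := by exact_mod_cast hDz
      have h2 : FF g (iR m) = lam / (Bz.det : ℝ) * z := by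
        rw [div_mul_eq_mul_div, eq_div_iff hDr, ← hz]
        ring
      rcases le_total 0 (lam / (Bz.det : ℝ)) with h3 | h3
      · refine ⟨z, ?_⟩
        rw [h2, ← abs_div, abs_of_nonneg h3]
      · refine ⟨-z, ?_⟩
        rw [h2, ← abs_div, abs_of_nonpos h3]
        push_cast
        ring
  · right
    obtain ⟨F, hF0, hF⟩ := Submodule.exists_le_ker_of_lt_top _ (lt_top_iff_ne_top.2 hspan)
    set w : Mon d d → ℝ := fun a => F (Pi.single a 1) with hw
    have hFv : ∀ x : Mon d d → ℝ, F x = ∑ a, w a * x a := by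
      intro x
      conv_lhs => rw [← Finset.univ_sum_single x]
      rw [map_sum]
      refine sum_congr rfl fun a _ => ?_
      have : Pi.single a (x a) = x a • (Pi.single a (1 : ℝ) : Mon d d → ℝ) := by
        rw [← Pi.single_smul, smul_eq_mul, mul_one]
      rw [this, map_smul, smul_eq_mul, mul_comm]
    have hw0 : w ≠ 0 := by
      intro h0
      apply hF0
      refine LinearMap.ext fun x => ?_
      rw [hFv x, h0]
      simp
    obtain ⟨h, hh0, hh⟩ := change_vars hg w hw0
    refine ⟨h, hh0, fun k hk => ?_⟩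
    rw [hh]
    have h1 : F (v ⟨k, hk⟩) = 0 := hF (Submodule.subset_span ⟨⟨k, hk⟩, rfl⟩)
    rw [hFv] at h1
    rw [← h1]
    refine sum_congr rfl fun a _ => ?_
    rw [hvp]

end Pool.Agent.N759.FV
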