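import Mathlib
import Pool.Agent.N759.FV.Cover
import Pool.Agent.N759.FV.Veron
import Pool.Agent.N759.NV.Core

/-! # The number of solutions of `F(p) = λ` -/

open Filter Topology Matrix H715R2

namespace Pool.Agent.N759.FV

open Pool.Agent.W777.FV Pool.Agent.N759.UC

/-- a bounded region contains boundedly many lattice points -/
lemma card_near {d : ℕ} (hd0 : 0 < d) {V ν : ℝ} (hV : 0 < V) (hν : 0 < ν) (B : ℝ) (hB : 0 ≤ B) :
    ∃ C₁ : ℕ, ∀ g : Matrix (Fin d) (Fin d) ℝ, |g.det| = V → HasNu g ν →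
      ∀ S : Finset (Fin d → ℤ), (∀ p ∈ S, ∀ i, |(g *ᵥ iR p) i| ≤ B) → S.card ≤ C₁ := by
  classical
  obtain ⟨R, hR⟩ := exists_bound hd0 V ν hV hν
  set G₀ : ℝ := V⁻¹ * (d.factorial * (max R 1) ^ d) with hG₀
  have hR1 : 1 ≤ max R 1 := le_max_right _ _
  have hG₀0 : 0 ≤ G₀ := by positivity
  set Q : ℕ := ⌈(d : ℝ) * (G₀ * B)⌉₊ with hQ
  set box : Finset (Fin d → ℤ) := Fintype.piFinset fun _ => Finset.Icc (-(Q : ℤ)) Q with hbox
  refine ⟨box.card, fun g hgV hnu S hS => ?_⟩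
  obtain ⟨γ, hγ, hγR⟩ := hR g hgV hnu
  have hg'V : |(g * zR γ).det| = V := by
    rw [det_mul, abs_mul, det_zR, abs_det_of_isUnit hγ, mul_one]
    exact hgV
  have hinv : ∀ i j, |(g * zR γ)⁻¹ i j| ≤ G₀ := by
    intro i j
    have h1 := Pool.Agent.N759.NV.inv_bound (g * zR γ) hγR i j
    rw [hg'V] at h1
    exact h1
  have hdet : IsUnit (g * zR γ).det := by
    rw [isUnit_iff_ne_zero]
    intro h0
    rw [h0, abs_zero] at hg'V
    exact hV.ne hg'V
  refine Finset.card_le_card_of_injOn (fun p => γ⁻¹ *ᵥ p) (fun p hp => ?_) ?_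
  · rw [hbox, Finset.mem_coe, Fintype.mem_piFinset]
    intro i
    have h1 : ((γ⁻¹ *ᵥ p) i : ℝ) = ((g * zR γ)⁻¹ *ᵥ (g *ᵥ iR p)) i := by
      have h2 : g *ᵥ iR p = (g * zR γ) *ᵥ iR (γ⁻¹ *ᵥ p) := by
        rw [← mulVec_mulVec, zR_mulVec_iR, mulVec_mulVec, Matrix.mul_nonsing_inv _ hγ, one_mulVec]
      rw [h2, mulVec_mulVec, Matrix.nonsing_inv_mul _ hdet, one_mulVec]
      rfl
    have h3 : |((γ⁻¹ *ᵥ p) i : ℝ)| ≤ (d : ℝ) * (G₀ * B) := by
      rw [h1, mulVec, dotProduct]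
      refine (Finset.abs_sum_le_sum_abs _ _).trans ?_
      have h4 : ∑ j, |(g * zR γ)⁻¹ i j * (g *ᵥ iR p) j| ≤ ∑ _j : Fin d, G₀ * B := by
        refine Finset.sum_le_sum fun j _ => ?_
        rw [abs_mul]
        exact mul_le_mul (hinv i j) (hS p hp j) (abs_nonneg _) hG₀0
      refine h4.trans ?_
      rw [Finset.sum_const, Finset.card_univ, Fintype.card_fin, nsmul_eq_mul]
    have h5 : |((γ⁻¹ *ᵥ p) i : ℝ)| ≤ (Q : ℝ) := h3.trans (Nat.le_ceil _)
    rw [Finset.mem_Icc, ← abs_le]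
    exact_mod_cast h5
  · intro p _ p' _ hpp
    have h1 : γ *ᵥ (γ⁻¹ *ᵥ p) = γ *ᵥ (γ⁻¹ *ᵥ p') := by
      simp only at hpp
      rw [hpp]
    rwa [mulVec_mulVec, mulVec_mulVec, Matrix.mul_nonsing_inv _ hγ, one_mulVec, one_mulVec] at h1

/-- **The number of solutions, reduced case.** -/
theorem mult_core {r : ℕ} (hr : 0 < r) {V ν Λ G₀ : ℝ} (hV : 0 < V) (hν : 0 < ν) (hG₀ : 0 ≤ G₀) :
    ∃ C : ℝ, 0 < C ∧ ∀ g : Matrix (Fin (r + 1)) (Fin (r + 1)) ℝ, |g.det| = V → HasNu g ν →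
      (∀ i j, |g⁻¹ i j| ≤ G₀) → ∀ lam : ℝ, |lam| ≤ Λ → ∀ x : ℝ, 1 ≤ x →
      (∃ η : ℝ, Real.exp (-(C * x)) ≤ η ∧ ∀ m : Fin (r + 1) → ℤ, ∃ z : ℤ,
        FF g (iR m) = η * z) ∨
      ∀ S : Finset (Fin (r + 1) → ℤ), (∀ p ∈ S, p ≠ 0 ∧ FF g (iR p) = lam ∧
        ∀ i, |(g *ᵥ iR p) i| ≤ Real.exp x) → (S.card : ℝ) ≤ C * x ^ (r - 1) := by
  classical
  have hd0 : 0 < r + 1 := Nat.succ_pos r
  set MM : ℕ := Fintype.card (Mon (r + 1) (r + 1)) with hMM
  set B₀ : ℝ := 1 + r + |Real.log ν| + |Real.log Λ| with hB₀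
  have hB₀0 : 0 ≤ B₀ := by positivity
  obtain ⟨C₁, hC₁⟩ := card_near hd0 hV hν (Real.exp B₀) (Real.exp_pos _).le
  have hlM : 0 ≤ Real.log (MM : ℝ) := Real.log_natCast_nonneg _
  set m : ℕ := ⌈2 * (Real.log (MM : ℝ) + 2 * ((r + 1 : ℕ) : ℝ) * B₀)⌉₊ + 1 with hm
  have hm0 : 0 < m := Nat.succ_pos _
  have hmR : 2 * (Real.log (MM : ℝ) + 2 * ((r + 1 : ℕ) : ℝ) * B₀) < (m : ℝ) := by
    rw [hm]
    push_cast
    have := Nat.le_ceil (2 * (Real.log (MM : ℝ) + 2 * ((r + 1 : ℕ) : ℝ) * B₀))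
    push_cast at this
    linarith
  have hmR0 : (0 : ℝ) < m := by exact_mod_cast hm0
  set P₀ : ℝ := ((r + 1 : ℕ) : ℝ) * G₀ + 1 with hP₀
  have hP₀0 : 0 < P₀ := by positivity
  set X₁ : ℝ := MM.factorial * (P₀ ^ (r + 1)) ^ MM / ν with hX₁
  have hX₁0 : 0 < X₁ := by positivity
  set Y₁ : ℝ := C₁ * ((MM : ℝ) ^ 2 * (m : ℝ) ^ r) * (r + 2 + |Real.log ν|) ^ (r - 1) with hY₁
  have hY₁0 : 0 ≤ Y₁ := by positivity
  refine ⟨|Real.log X₁| + (r + 1) * MM + Y₁ + 1, by positivity, ?_⟩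
  intro g hgV hnu hinv lam hlam x hx
  have hg : g.det ≠ 0 := by
    intro h0
    rw [h0, abs_zero] at hgV
    exact hV.ne hgV
  by_cases hη : ∃ η : ℝ, Real.exp (-((|Real.log X₁| + (r + 1) * MM + Y₁ + 1) * x)) ≤ η ∧
      ∀ m : Fin (r + 1) → ℤ, ∃ z : ℤ, FF g (iR m) = η * z
  · exact Or.inl hη
  right
  intro S hS
  have hx0 : 0 ≤ x := by linarith
  rcases S.eq_empty_or_nonempty with hSe | ⟨p₀, hp₀⟩
  · rw [hSe, Finset.card_empty, Nat.cast_zero]
    positivity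
  have hνlam : ν ≤ |lam| := by
    rw [← (hS p₀ hp₀).2.1]
    exact hnu p₀ (hS p₀ hp₀).1
  have hlam0 : lam ≠ 0 := by
    intro h0
    rw [h0, abs_zero] at hνlam
    linarith
  have hlampos : 0 < |lam| := abs_pos.2 hlam0
  -- the coordinates
  set y : (Fin (r + 1) → ℤ) → Fin (r + 1) → ℝ := fun p => g *ᵥ iR p with hy
  have hyprod : ∀ p ∈ S, ∏ i, |y p i| = |lam| := by
    intro p hp
    rw [← (hS p hp).2.1, FF_eq, Finset.abs_prod]
  have hy0 : ∀ p ∈ S, ∀ i, y p i ≠ 0 := by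
    intro p hp i h0
    have h1 := hyprod p hp
    rw [Finset.prod_eq_zero (Finset.mem_univ i) (by rw [h0, abs_zero])] at h1
    linarith
  have hysum : ∀ p ∈ S, ∑ i, Real.log (abs (y p i)) = Real.log |lam| := by
    intro p hp
    rw [← hyprod p hp, Real.log_prod fun i _ => abs_ne_zero.2 (hy0 p hp i)]
  have hyx : ∀ p ∈ S, ∀ i, Real.log (abs (y p i)) ≤ x := by
    intro p hp i
    rw [Real.log_le_iff_le_exp (abs_pos.2 (hy0 p hp i))]
    exact (hS p hp).2.2 i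
  have hloglam1 : Real.log ν ≤ Real.log |lam| := Real.log_le_log hν hνlam
  have hloglam2 : Real.log |lam| ≤ Real.log Λ := Real.log_le_log hlampos hlam
  have hloglam : |Real.log (abs lam)| ≤ |Real.log ν| + |Real.log Λ| := by
    rw [abs_le]
    constructor
    · linarith [neg_abs_le (Real.log ν), abs_nonneg (Real.log Λ)]
    · linarith [le_abs_self (Real.log Λ), abs_nonneg (Real.log ν)]
  have hylow : ∀ p ∈ S, ∀ i, -|Real.log ν| - r * x ≤ Real.log (abs (y p i)) := by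
    intro p hp i
    have h1 := hysum p hp
    rw [← Finset.add_sum_erase Finset.univ _ (Finset.mem_univ i)] at h1
    have h2 : ∑ j ∈ Finset.univ.erase i, Real.log (abs (y p j)) ≤
        ∑ _j ∈ Finset.univ.erase i, x := Finset.sum_le_sum fun j _ => hyx p hp j
    rw [Finset.sum_const, Finset.card_erase_of_mem (Finset.mem_univ i), Finset.card_univ,
      Fintype.card_fin, Nat.add_sub_cancel, nsmul_eq_mul] at h2
    linarith [neg_abs_le (Real.log ν)]
  -- positions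
  set κ : (Fin (r + 1) → ℤ) → Fin r → ℕ :=
    fun p j => ⌊x - Real.log (abs (y p j.castSucc))⌋₊ with hκ
  set K : ℕ := ⌊(r + 1) * x + |Real.log ν|⌋₊ with hK
  have hκK : ∀ p ∈ S, ∀ j, κ p j ≤ K := by
    intro p hp j
    refine Nat.floor_le_floor ?_
    have := hylow p hp j.castSucc
    linarith
  have hκ1 : ∀ p ∈ S, ∀ j, (κ p j : ℝ) ≤ x - Real.log (abs (y p j.castSucc)) := fun p hp j =>
    Nat.floor_le (by linarith [hyx p hp j.castSucc])
  have hκ2 : ∀ p j, x - Real.log (abs (y p j.castSucc)) < (κ p j : ℝ) + 1 := fun p j =>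
    Nat.lt_floor_add_one _
  set pos : (Fin (r + 1) → ℤ) → Fin r → Fin (K + 1) :=
    fun p j => ⟨min (κ p j / m) K, Nat.lt_succ_iff.2 (min_le_right _ _)⟩ with hpos
  set cl : (Fin (r + 1) → ℤ) → Fin r → Fin m := fun p j => ⟨κ p j % m, Nat.mod_lt _ hm0⟩ with hcl
  have hposκ : ∀ p ∈ S, ∀ j, (κ p j : ℝ) = m * ((pos p j : ℕ) : ℝ) + ((cl p j : ℕ) : ℝ) := by
    intro p hp j
    have h1 : κ p j / m ≤ K := (Nat.div_le_self _ _).trans (hκK p hp j)
    have h2 : ((pos p j : ℕ)) = κ p j / m := min_eq_left h1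
    rw [h2]
    have h3 := Nat.div_add_mod (κ p j) m
    exact_mod_cast h3.symm
  -- the shift of a class
  set ψ : (Fin r → Fin m) → Fin (r + 1) → ℝ := fun c =>
    Fin.snoc (α := fun _ => ℝ) (fun j => ((c j : ℕ) : ℝ) - x) (-∑ j, (((c j : ℕ) : ℝ) - x)) with hψ
  have hψsum : ∀ c, ∑ i, ψ c i = 0 := by
    intro c
    rw [Fin.sum_univ_castSucc]
    simp [hψ]
  have hnear : ∀ p ∈ S, ∀ i, |Real.log (abs (y p i)) +
      gpos (m : ℝ) (fun j => ((pos p j : ℕ) : ℝ)) i + ψ (cl p) i| ≤ B₀ := by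
    intro p hp i
    have hj : ∀ j : Fin r, Real.log (abs (y p j.castSucc)) +
        (m * ((pos p j : ℕ) : ℝ)) + (((cl p j : ℕ) : ℝ) - x) ≤ 0 ∧
        -1 ≤ Real.log (abs (y p j.castSucc)) +
        (m * ((pos p j : ℕ) : ℝ)) + (((cl p j : ℕ) : ℝ) - x) := by
      intro j
      have h1 := hκ1 p hp j
      have h2 := hκ2 p j
      rw [hposκ p hp j] at h1 h2
      constructor <;> linarith
    refine Fin.lastCases ?_ (fun j => ?_) i
    · simp only [gpos, hψ, Fin.snoc_last]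
      have h1 := hysum p hp
      rw [Fin.sum_univ_castSucc] at h1
      have h2 : Real.log (abs (y p (Fin.last r))) + -∑ j, (m : ℝ) * ((pos p j : ℕ) : ℝ) +
          -∑ j, (((cl p j : ℕ) : ℝ) - x) = Real.log |lam| -
          ∑ j : Fin r, (Real.log (abs (y p j.castSucc)) +
            (m * ((pos p j : ℕ) : ℝ)) + (((cl p j : ℕ) : ℝ) - x)) := by
        rw [Finset.sum_add_distrib, Finset.sum_add_distrib]
        linarith
      rw [h2]
      have h3 : ∑ j : Fin r, (Real.log (abs (y p j.castSucc)) +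
            (m * ((pos p j : ℕ) : ℝ)) + (((cl p j : ℕ) : ℝ) - x)) ≤ 0 :=
        Finset.sum_nonpos fun j _ => (hj j).1
      have h4 : ∑ _j : Fin r, (-1 : ℝ) ≤ ∑ j : Fin r, (Real.log (abs (y p j.castSucc)) +
            (m * ((pos p j : ℕ) : ℝ)) + (((cl p j : ℕ) : ℝ) - x)) :=
        Finset.sum_le_sum fun j _ => (hj j).2
      rw [Finset.sum_const, Finset.card_univ, Fintype.card_fin, nsmul_eq_mul] at h4
      have h5 := abs_le.1 hloglam
      rw [abs_le, hB₀]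
      constructor <;> linarith [abs_nonneg (Real.log ν), abs_nonneg (Real.log Λ), h5.1, h5.2]
    · simp only [gpos, hψ, Fin.snoc_castSucc]
      have h1 := hj j
      rw [abs_le, hB₀]
      have h6 : (0 : ℝ) ≤ r := Nat.cast_nonneg r
      constructor <;> linarith [abs_nonneg (Real.log ν), abs_nonneg (Real.log Λ), h1.1, h1.2]
  -- the form
  have hPb : ∀ p ∈ S, ∀ i, |(p i : ℝ)| ≤ P₀ * Real.exp x := by
    intro p hp j
    have h1 : (p j : ℝ) = (g⁻¹ *ᵥ (g *ᵥ iR p)) j := by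
      rw [mulVec_mulVec, Matrix.nonsing_inv_mul _ (isUnit_iff_ne_zero.2 hg), one_mulVec]
      rfl
    rw [h1, mulVec, dotProduct]
    refine (Finset.abs_sum_le_sum_abs _ _).trans ?_
    have h2 : ∑ i, |g⁻¹ j i * (g *ᵥ iR p) i| ≤ ∑ _i : Fin (r + 1), G₀ * Real.exp x := by
      refine Finset.sum_le_sum fun i _ => ?_
      rw [abs_mul]
      exact mul_le_mul (hinv j i) ((hS p hp).2.2 i) (abs_nonneg _) hG₀
    refine h2.trans ?_
    rw [Finset.sum_const, Finset.card_univ, Fintype.card_fin, nsmul_eq_mul, hP₀]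
    have h3 : 0 < Real.exp x := Real.exp_pos _
    nlinarith
  obtain ⟨hc, hc0, hck⟩ : ∃ hc : Mon (r + 1) (r + 1) → ℝ, hc ≠ 0 ∧
      ∀ p ∈ S, ∑ a, hc a * ∏ i, (g *ᵥ iR p) i ^ ex a i = 0 := by
    rcases veronese hg S (fun p => p) lam hlam0 (fun p hp => (hS p hp).2.1) (P₀ * Real.exp x) hPb
      with ⟨η, h1, h2, h3⟩ | h
    · exfalso
      refine hη ⟨η, le_trans ?_ h1, h3⟩
      rw [le_div_iff₀ (by positivity), Real.exp_neg, inv_mul_le_iff₀ (Real.exp_pos _)]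
      have h4 : ((P₀ * Real.exp x) ^ (r + 1)) ^ MM =
          (P₀ ^ (r + 1)) ^ MM * Real.exp (((r + 1) * MM : ℕ) * x) := by
        rw [Real.exp_nat_mul, mul_pow, mul_pow, ← pow_mul (Real.exp x)]
      rw [← hMM, h4, ← mul_assoc]
      have h5 : (MM.factorial : ℝ) * (P₀ ^ (r + 1)) ^ MM = X₁ * ν := by
        rw [hX₁, div_mul_cancel₀ _ hν.ne']
      rw [h5]
      have h6 : X₁ ≤ Real.exp (|Real.log X₁| * x) := by
        rw [← Real.log_le_iff_le_exp hX₁0]
        have h7 := le_abs_self (Real.log X₁)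
        have h8 := abs_nonneg (Real.log X₁)
        nlinarith
      have h7 : Real.exp (|Real.log X₁| * x) * Real.exp (((r + 1) * MM : ℕ) * x) ≤
          Real.exp ((|Real.log X₁| + (r + 1) * MM + Y₁ + 1) * x) := by
        rw [← Real.exp_add, Real.exp_le_exp]
        push_cast
        have h8 : 0 ≤ (Y₁ + 1) * x := by positivity
        linarith
      have h8 : 0 < Real.exp (((r + 1) * MM : ℕ) * x) := Real.exp_pos _
      calc X₁ * ν * Real.exp (((r + 1) * MM : ℕ) * x)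
          = X₁ * Real.exp (((r + 1) * MM : ℕ) * x) * ν := by ring
        _ ≤ Real.exp (|Real.log X₁| * x) * Real.exp (((r + 1) * MM : ℕ) * x) * ν :=
            mul_le_mul_of_nonneg_right (mul_le_mul_of_nonneg_right h6 h8.le) hν.le
        _ ≤ Real.exp ((|Real.log X₁| + (r + 1) * MM + Y₁ + 1) * x) * ν :=
            mul_le_mul_of_nonneg_right h7 hν.le
        _ ≤ Real.exp ((|Real.log X₁| + (r + 1) * MM + Y₁ + 1) * x) * |lam| :=
            mul_le_mul_of_nonneg_left hνlam (Real.exp_pos _).le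
    · exact h
  -- the positions of a class
  have hclass : ∀ c : Fin r → Fin m, ((S.filter fun p => cl p = c).image pos).card ≤
      MM ^ 2 * (K + 1) ^ (r - 1) := by
    intro c
    have hex : ∀ k ∈ (S.filter fun p => cl p = c).image pos, ∃ p, p ∈ S ∧ cl p = c ∧ pos p = k := by
      intro k hk
      obtain ⟨p, hp, hpk⟩ := Finset.mem_image.1 hk
      exact ⟨p, (Finset.mem_filter.1 hp).1, (Finset.mem_filter.1 hp).2, hpk⟩
    choose! rep hrep1 hrep2 hrep3 using hex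
    refine level_card (n := r + 1) (ex (d := r + 1) (n := r + 1)) ex_injective sum_ex
      (fun a => hc a * ∏ i, Real.exp (-(ψ c i)) ^ ex a i) ?_ K (m : ℝ) B₀ hmR0 hmR _
      (fun k i => Real.exp (ψ c i) * y (rep k) i) ?_ ?_ ?_
    · intro h0
      apply hc0
      funext a
      have h1 := congrFun h0 a
      simp only [Pi.zero_apply] at h1
      rcases mul_eq_zero.1 h1 with h2 | h2
      · exact h2
      · exfalso
        exact (Finset.prod_ne_zero_iff.2 fun i _ => pow_ne_zero _ (Real.exp_pos _).ne') h2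
    · intro k hk i
      exact mul_ne_zero (Real.exp_pos _).ne' (hy0 _ (hrep1 k hk) i)
    · intro k hk
      have h1 := hck _ (hrep1 k hk)
      rw [← h1]
      refine Finset.sum_congr rfl fun a _ => ?_
      rw [mul_assoc, ← Finset.prod_mul_distrib]
      congr 1
      refine Finset.prod_congr rfl fun i _ => ?_
      rw [← mul_pow]
      congr 1
      rw [← mul_assoc, ← Real.exp_add, neg_add_cancel, Real.exp_zero, one_mul]
    · intro k hk i
      have h1 := hnear _ (hrep1 k hk) i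
      rw [hrep2 k hk, hrep3 k hk] at h1
      rw [abs_mul, abs_of_pos (Real.exp_pos _), Real.log_mul (Real.exp_pos _).ne'
        (abs_ne_zero.2 (hy0 _ (hrep1 k hk) i)), Real.log_exp]
      rwa [show ψ c i + Real.log (abs (y (rep k) i)) +
        gpos (m : ℝ) (fun j => ((k j : ℕ) : ℝ)) i = Real.log (abs (y (rep k) i)) +
        gpos (m : ℝ) (fun j => ((k j : ℕ) : ℝ)) i + ψ c i by ring]
  -- the fibres
  have hfib : S.card ≤ C₁ * (S.image fun p => (cl p, pos p)).card := by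
    refine Finset.card_le_mul_card_image _ _ fun b hb => ?_
    obtain ⟨p₁, hp₁, rfl⟩ := Finset.mem_image.1 hb
    set φ : Fin (r + 1) → ℝ := fun i =>
      gpos (m : ℝ) (fun j => ((pos p₁ j : ℕ) : ℝ)) i + ψ (cl p₁) i with hφ
    have hφ1 : ∏ i, Real.exp (φ i) = 1 := by
      rw [← Real.exp_sum]
      simp only [hφ]
      rw [Finset.sum_add_distrib, sum_gpos, hψsum, add_zero, Real.exp_zero]
    refine hC₁ (diagonal (fun i => Real.exp (φ i)) * g) ?_ ?_ _ fun p hp i => ?_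
    · rw [det_mul, det_diagonal, hφ1, one_mul]
      exact hgV
    · intro q hq
      rw [FF_diag_mul, hφ1, one_mul]
      exact hnu q hq
    · obtain ⟨hpS, hpe⟩ := Finset.mem_filter.1 hp
      rw [Prod.mk.injEq] at hpe
      have h1 := hnear p hpS i
      rw [hpe.1, hpe.2] at h1
      rw [← mulVec_mulVec, mulVec_diagonal, abs_mul, abs_of_pos (Real.exp_pos _)]
      have h2 : |(g *ᵥ iR p) i| = Real.exp (Real.log (abs (y p i))) := by
        rw [Real.exp_log (abs_pos.2 (hy0 p hpS i))]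
      rw [h2, ← Real.exp_add, Real.exp_le_exp]
      simp only [hφ]
      linarith [(abs_le.1 h1).2]
  have himg : (S.image fun p => (cl p, pos p)).card ≤ (MM ^ 2 * (K + 1) ^ (r - 1)) * m ^ r := by
    have h1 := Finset.card_le_mul_card_image (f := fun b : (Fin r → Fin m) × (Fin r → Fin (K + 1)) =>
      b.1) (S.image fun p => (cl p, pos p)) (MM ^ 2 * (K + 1) ^ (r - 1)) (fun c _ => by
        refine le_trans ?_ (hclass c)
        refine Finset.card_le_card_of_injOn (fun b => b.2) (fun b hb => ?_) ?_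
        · obtain ⟨hb1, hb2⟩ := Finset.mem_filter.1 hb
          obtain ⟨p, hp, rfl⟩ := Finset.mem_image.1 hb1
          exact Finset.mem_coe.2 (Finset.mem_image.2 ⟨p, Finset.mem_filter.2 ⟨hp, hb2⟩, rfl⟩)
        · intro b hb b' hb' hbb
          have h2 := (Finset.mem_filter.1 hb).2
          have h3 := (Finset.mem_filter.1 hb').2
          exact Prod.ext (h2.trans h3.symm) hbb)
    refine h1.trans (Nat.mul_le_mul_left _ ?_)
    refine (Finset.card_le_univ _).trans ?_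
    rw [Fintype.card_fun, Fintype.card_fin, Fintype.card_fin]
  have hcount : (S.card : ℝ) ≤ C₁ * (((MM : ℝ) ^ 2 * ((K : ℝ) + 1) ^ (r - 1)) * (m : ℝ) ^ r) := by
    exact_mod_cast hfib.trans (Nat.mul_le_mul_left _ himg)
  have hKx : (K : ℝ) + 1 ≤ (r + 2 + |Real.log ν|) * x := by
    have h1 : (K : ℝ) ≤ (r + 1) * x + |Real.log ν| := Nat.floor_le (by positivity)
    have h2 : |Real.log ν| ≤ |Real.log ν| * x := le_mul_of_one_le_right (abs_nonneg _) hx
    nlinarith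
  have hpow : ((K : ℝ) + 1) ^ (r - 1) ≤ ((r + 2 + |Real.log ν|) * x) ^ (r - 1) :=
    pow_le_pow_left₀ (by positivity) hKx _
  calc (S.card : ℝ) ≤ C₁ * (((MM : ℝ) ^ 2 * ((K : ℝ) + 1) ^ (r - 1)) * (m : ℝ) ^ r) := hcount
    _ ≤ C₁ * (((MM : ℝ) ^ 2 * ((r + 2 + |Real.log ν|) * x) ^ (r - 1)) * (m : ℝ) ^ r) := by
        refine mul_le_mul_of_nonneg_left ?_ (Nat.cast_nonneg _)
        refine mul_le_mul_of_nonneg_right ?_ (pow_nonneg hmR0.le _)
        exact mul_le_mul_of_nonneg_left hpow (sq_nonneg _)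
    _ = Y₁ * x ^ (r - 1) := by rw [hY₁, mul_pow]; ring
    _ ≤ (|Real.log X₁| + (r + 1) * MM + Y₁ + 1) * x ^ (r - 1) := by
        refine mul_le_mul_of_nonneg_right ?_ (pow_nonneg hx0 _)
        have h1 := abs_nonneg (Real.log X₁)
        have h2 : (0 : ℝ) ≤ ((r : ℝ) + 1) * MM := by positivity
        linarith

end Pool.Agent.N759.FV
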