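import Mathlib
import Pool.Agent.N759.FV.Veron

/-! # The Veronese dichotomy for commensurable values -/

open Matrix H715R2

namespace Pool.Agent.N759.FV

open Finset

/-- **The dichotomy for commensurable values.** -/
theorem veronese2 {d : ℕ} {g : Matrix (Fin d) (Fin d) ℝ} (hg : g.det ≠ 0) {κ : Type}
    (V : Finset κ) (p : κ → Fin d → ℤ) (lam : ℝ) (hlam : lam ≠ 0) (Y : ℝ)
    (hp : ∀ k ∈ V, ∃ m n : ℤ, n ≠ 0 ∧ |(n : ℝ)| ≤ Y ∧ (n : ℝ) * FF g (iR (p k)) = m * lam)
    (P : ℝ) (hP : ∀ k ∈ V, ∀ i, |(p k i : ℝ)| ≤ P) :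
    (∃ η : ℝ, |lam| / (((Fintype.card (Mon d d)).factorial *
        (P ^ d) ^ Fintype.card (Mon d d)) * Y ^ Fintype.card (Mon d d)) ≤ η ∧
      0 < η ∧ ∀ m : Fin d → ℤ, ∃ z : ℤ, FF g (iR m) = η * z) ∨
    ∃ h : Mon d d → ℝ, h ≠ 0 ∧ ∀ k ∈ V, ∑ a, h a * ∏ i, (g *ᵥ iR (p k)) i ^ ex a i = 0 := by
  classical
  set vz : V → Mon d d → ℤ := fun k a => ∏ i, p k.1 i ^ ex a i with hvz
  set v : V → Mon d d → ℝ := fun k a => (vz k a : ℝ) with hv
  have hvp : ∀ k : V, ∀ a, v k a = ∏ i, iR (p k.1) i ^ ex a i := by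
    intro k a
    simp only [hv, hvz, iR]
    push_cast
    rfl
  rcases eq_or_ne (Submodule.span ℝ (Set.range v)) ⊤ with hspan | hspan
  · left
    obtain ⟨κ', s, hs, hspan', hli⟩ := exists_linearIndependent' ℝ v
    have b : Module.Basis κ' ℝ (Mon d d → ℝ) := Module.Basis.mk hli (by rw [hspan', hspan])
    have e : Mon d d ≃ κ' := (b.indexEquiv (Pi.basisFun ℝ (Mon d d))).symm
    set Bz : Matrix (Mon d d) (Mon d d) ℤ := fun a c => vz (s (e a)) c with hBz
    set B : Matrix (Mon d d) (Mon d d) ℝ := Bz.map (Int.cast : ℤ → ℝ) with hB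
    have hBrow : LinearIndependent ℝ B.row := by
      have h1 : B.row = (v ∘ s) ∘ e := by
        funext a c
        rfl
      rw [h1]
      exact hli.comp e e.injective
    have hBunit : IsUnit B := Matrix.linearIndependent_rows_iff_isUnit.1 hBrow
    have hdetB : B.det ≠ 0 := by
      rw [← isUnit_iff_ne_zero]
      exact (Matrix.isUnit_iff_isUnit_det B).1 hBunit
    have hdetBz : B.det = (Bz.det : ℝ) := by
      have := (Int.castRingHom ℝ).map_det Bz
      simpa [hB] using this.symm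
    have hDz : Bz.det ≠ 0 := by
      intro h0
      apply hdetB
      rw [hdetBz, h0, Int.cast_zero]
    obtain ⟨f, hf⟩ := exists_coeffs g
    choose! mm nn hnn0 hnnY hmn using hp
    set N' : Mon d d → ℤ := fun a => nn (s (e a)).1 with hN'
    set M' : Mon d d → ℤ := fun a => mm (s (e a)).1 with hM'
    set Nn : ℤ := ∏ a, N' a with hNn
    have hNn0 : Nn ≠ 0 := Finset.prod_ne_zero_iff.2 fun a _ => hnn0 _ (s (e a)).2
    set q : Mon d d → ℤ := fun a => M' a * ∏ b ∈ univ.erase a, N' b with hq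
    have hBf : ∀ a, (Nn : ℝ) * (B *ᵥ f) a = lam * (q a : ℝ) := by
      intro a
      have h1 : (B *ᵥ f) a = FF g (iR (p (s (e a)).1)) := by
        rw [mulVec, dotProduct, hf]
        refine sum_congr rfl fun c _ => ?_
        rw [mul_comm, ← hvp]
        rfl
      have h2 : (N' a : ℝ) * FF g (iR (p (s (e a)).1)) = M' a * lam := hmn _ (s (e a)).2
      have h3 : Nn = N' a * ∏ b ∈ univ.erase a, N' b := by
        rw [hNn, ← Finset.mul_prod_erase univ N' (mem_univ a)]
      rw [h1, h3]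
      simp only [hq]
      push_cast
      calc (N' a : ℝ) * (∏ b ∈ univ.erase a, (N' b : ℝ)) * FF g (iR (p (s (e a)).1))
          = ((N' a : ℝ) * FF g (iR (p (s (e a)).1))) * ∏ b ∈ univ.erase a, (N' b : ℝ) := by ring
        _ = _ := by rw [h2]; ring
    have hadj : ∀ a, ((Bz.det * Nn : ℤ) : ℝ) * f a =
        lam * ((∑ c, Bz.adjugate a c * q c : ℤ) : ℝ) := by
      intro a
      have h1 : B.adjugate *ᵥ (B *ᵥ f) = B.det • f := by
        rw [mulVec_mulVec, Matrix.adjugate_mul, smul_mulVec, one_mulVec]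
      have h2 := congrFun h1 a
      simp only [Pi.smul_apply, smul_eq_mul] at h2
      have h4 : ((Bz.det * Nn : ℤ) : ℝ) * f a = (Nn : ℝ) * (B.det * f a) := by
        rw [hdetBz]
        push_cast
        ring
      rw [h4, ← h2, mulVec, dotProduct]
      have h3 : B.adjugate = Bz.adjugate.map (Int.cast : ℤ → ℝ) := by
        have := (Int.castRingHom ℝ).map_adjugate Bz
        simpa [hB] using this.symm
      rw [h3]
      push_cast
      rw [mul_sum, mul_sum]
      refine sum_congr rfl fun c _ => ?_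
      rw [Matrix.map_apply]
      have h5 := hBf c
      calc (Nn : ℝ) * ((Bz.adjugate a c : ℝ) * (B *ᵥ f) c)
          = (Bz.adjugate a c : ℝ) * ((Nn : ℝ) * (B *ᵥ f) c) := by ring
        _ = lam * ((Bz.adjugate a c : ℝ) * (q c : ℝ)) := by rw [h5]; ring
    have hDpos : (0 : ℝ) < |(Bz.det : ℝ)| := abs_pos.2 (by exact_mod_cast hDz)
    have hDle : |(Bz.det : ℝ)| ≤
        (Fintype.card (Mon d d)).factorial * (P ^ d) ^ Fintype.card (Mon d d) := by
      have h1 := Matrix.det_le (A := B) (abv := AbsoluteValue.abs) (x := P ^ d) (fun a c => ?_)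
      · rw [nsmul_eq_mul, AbsoluteValue.abs_apply, hdetBz] at h1
        exact h1
      · have h2 : B a c = ∏ i, iR (p (s (e a)).1) i ^ ex c i := hvp (s (e a)) c
        rw [AbsoluteValue.abs_apply, h2, abs_prod]
        have h3 : ∏ i, |iR (p (s (e a)).1) i ^ ex c i| ≤ ∏ i, P ^ ex c i := by
          refine prod_le_prod (fun _ _ => abs_nonneg _) fun i _ => ?_
          rw [abs_pow]
          exact pow_le_pow_left₀ (abs_nonneg _) (hP _ (s (e a)).2 i) _
        refine h3.trans ?_
        rw [prod_pow_eq_pow_sum, sum_ex]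
    have hNpos : (0 : ℝ) < |(Nn : ℝ)| := abs_pos.2 (by exact_mod_cast hNn0)
    have hNle : |(Nn : ℝ)| ≤ Y ^ Fintype.card (Mon d d) := by
      have h1 : |(Nn : ℝ)| = ∏ a, |(N' a : ℝ)| := by
        rw [hNn]
        push_cast
        rw [abs_prod]
      rw [h1]
      refine (prod_le_prod (fun _ _ => abs_nonneg _) fun a _ => hnnY _ (s (e a)).2).trans ?_
      rw [prod_const, card_univ]
    have hDN : |((Bz.det * Nn : ℤ) : ℝ)| = |(Bz.det : ℝ)| * |(Nn : ℝ)| := by
      push_cast
      rw [abs_mul]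
    have hDNpos : 0 < |((Bz.det * Nn : ℤ) : ℝ)| := by
      rw [hDN]
      exact mul_pos hDpos hNpos
    refine ⟨|lam| / |((Bz.det * Nn : ℤ) : ℝ)|, ?_, div_pos (abs_pos.2 hlam) hDNpos, ?_⟩
    · refine div_le_div_of_nonneg_left (abs_nonneg _) hDNpos ?_
      rw [hDN]
      exact mul_le_mul hDle hNle (abs_nonneg _) (hDpos.le.trans hDle)
    · intro m
      have h1 : ∃ z : ℤ, ((Bz.det * Nn : ℤ) : ℝ) * FF g (iR m) = lam * z := by
        refine ⟨∑ a, (∑ c, Bz.adjugate a c * q c) * ∏ i, m i ^ ex a i, ?_⟩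
        rw [hf, mul_sum, Int.cast_sum, mul_sum]
        refine sum_congr rfl fun a _ => ?_
        rw [← mul_assoc, hadj a, Int.cast_mul, mul_assoc]
        congr 2
        simp only [iR]
        push_cast
        rfl
      obtain ⟨z, hz⟩ := h1
      have hDr : ((Bz.det * Nn : ℤ) : ℝ) ≠ 0 := by exact_mod_cast mul_ne_zero hDz hNn0
      have h2 : FF g (iR m) = lam / ((Bz.det * Nn : ℤ) : ℝ) * z := by
        rw [div_mul_eq_mul_div, eq_div_iff hDr, ← hz]
        ring
      rcases le_total 0 (lam / ((Bz.det * Nn : ℤ) : ℝ)) with h3 | h3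
      · refine ⟨z, ?_⟩
        rw [h2, ← abs_div, abs_of_nonneg h3]
      · refine ⟨-z, ?_⟩
        rw [h2, ← abs_div, abs_of_nonpos h3]
        push_cast
        ring
  · right
    obtain ⟨F, hF0, hF⟩ := Submodule.exists_le_ker_of_lt_top _ (lt_top_iff_ne_top.2 hspan)
    set w : Mon d d → ℝ := fun a => F (Pi.single a 1) with hw
    have hFv : ∀ x : Mon d d → ℝ, F x = ∑ a, w a * x a := by
      intro x
      conv_lhs => rw [← Finset.univ_sum_single x]
      rw [map_sum]
      refine sum_congr rfl fun a _ => ?_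
      have : Pi.single a (x a) = x a • (Pi.single a (1 : ℝ) : Mon d d → ℝ) := by
        rw [← Pi.single_smul, smul_eq_mul, mul_one]
      rw [this, map_smul, smul_eq_mul, mul_comm]
    have hw0 : w ≠ 0 := by
      intro h0
      apply hF0
      refine LinearMap.ext fun x => ?_
      rw [hFv x, h0]
      simp
    obtain ⟨h, hh0, hh⟩ := change_vars hg w hw0
    refine ⟨h, hh0, fun k hk => ?_⟩
    rw [hh]
    have h1 : F (v ⟨k, hk⟩) = 0 := hF (Submodule.subset_span ⟨⟨k, hk⟩, rfl⟩)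
    rw [hFv] at h1
    rw [← h1]
    refine sum_congr rfl fun a _ => ?_
    rw [hvp]

end Pool.Agent.N759.FV
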