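import Mathlib
import Pool.Agent.N759.FV.Mult
import Pool.Agent.H715R2.NormForm

/-! # The number of solutions of `F(p) = λ`: final form -/

open Filter Topology Matrix H715R2

namespace Pool.Agent.N759.FV

open Pool.Agent.W777.FV Pool.Agent.N759.UC Finset

/-- integral multiples: proportional to an integral form -/
theorem propInt_of_multiples {d : ℕ} {g : Matrix (Fin d) (Fin d) ℝ} {η : ℝ} (hη : η ≠ 0)
    (h : ∀ p : Fin d → ℤ, ∃ z : ℤ, FF g (iR p) = η * z) : PropInt g := by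
  classical
  have hPh : (polyF g).IsHomogeneous d := by
    have h1 := MvPolynomial.IsHomogeneous.prod (univ : Finset (Fin d))
      (fun i => ∑ j, MvPolynomial.C (g i j) * MvPolynomial.X j) (fun _ => 1) (fun i _ =>
        MvPolynomial.IsHomogeneous.sum _ _ _ fun j _ => MvPolynomial.isHomogeneous_C_mul_X _ _)
    have h2 : polyF g = ∏ i : Fin d, ∑ j : Fin d,
      MvPolynomial.C (g i j) * MvPolynomial.X j := rfl
    rw [h2]
    simpa using h1
  set f : Mon d d → ℝ := fun a => MvPolynomial.coeff (mo a) (polyF g) with hf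
  have hFf : ∀ p : Fin d → ℤ, FF g (iR p) = ∑ a, f a * ∏ i, iR p i ^ ex a i := by
    intro p
    rw [← eval_homog hPh, eval_polyF]
    rfl
  set vz : (Fin d → ℤ) → Mon d d → ℤ := fun p a => ∏ i, p i ^ ex a i with hvz
  set v : (Fin d → ℤ) → Mon d d → ℝ := fun p a => (vz p a : ℝ) with hv
  have hvp : ∀ p a, v p a = ∏ i, iR p i ^ ex a i := by
    intro p a
    simp only [hv, hvz, iR]
    push_cast
    rfl
  have hspan : Submodule.span ℝ (Set.range v) = ⊤ := by
    by_contra hspan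
    obtain ⟨F, hF0, hF⟩ := Submodule.exists_le_ker_of_lt_top _ (lt_top_iff_ne_top.2 hspan)
    set w : Mon d d → ℝ := fun a => F (Pi.single a 1) with hw
    have hFv : ∀ x : Mon d d → ℝ, F x = ∑ a, w a * x a := by
      intro x
      conv_lhs => rw [← Finset.univ_sum_single x]
      rw [map_sum]
      refine sum_congr rfl fun a _ => ?_
      have : Pi.single a (x a) = x a • (Pi.single a (1 : ℝ) : Mon d d → ℝ) := by
        rw [← Pi.single_smul, smul_eq_mul, mul_one]
      rw [this, map_smul, smul_eq_mul, mul_comm]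
    set Q : MvPolynomial (Fin d) ℝ := ∑ a : Mon d d, MvPolynomial.monomial (mo a) (w a) with hQ
    have hQc : ∀ a, MvPolynomial.coeff (mo a) Q = w a := by
      intro a
      rw [hQ, MvPolynomial.coeff_sum, sum_eq_single a]
      · rw [MvPolynomial.coeff_monomial, if_pos rfl]
      · intro b _ hb
        rw [MvPolynomial.coeff_monomial, if_neg fun h => hb (mo_injective h)]
      · intro h
        exact absurd (mem_univ _) h
    have hQe : ∀ x : Fin d → ℝ, MvPolynomial.eval x Q = ∑ a, w a * ∏ i, x i ^ ex a i := by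
      intro x
      rw [hQ, map_sum]
      refine sum_congr rfl fun a _ => ?_
      rw [MvPolynomial.eval_monomial, Finsupp.prod_fintype _ _ (by simp)]
      rfl
    have hQ0 : Q = 0 := by
      refine MvPolynomial.funext_set (fun _ => Set.range (Int.cast : ℤ → ℝ))
        (fun _ => Set.infinite_range_of_injective Int.cast_injective) fun x hx => ?_
      have hx' : ∀ i, ∃ z : ℤ, (z : ℝ) = x i := fun i => hx i (Set.mem_univ i)
      choose p hp using hx'
      have hxp : x = iR p := by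
        funext i
        exact (hp i).symm
      have h1 : F (v p) = 0 := hF (Submodule.subset_span ⟨p, rfl⟩)
      rw [hFv] at h1
      rw [hQe, map_zero, hxp, ← h1]
      exact sum_congr rfl fun a _ => by rw [hvp]
    apply hF0
    refine LinearMap.ext fun x => ?_
    rw [hFv x]
    have h2 : ∀ a, w a = 0 := fun a => by rw [← hQc a, hQ0]; simp
    simp [h2]
  obtain ⟨κ', s, hs, hspan', hli⟩ := exists_linearIndependent' ℝ v
  have b : Module.Basis κ' ℝ (Mon d d → ℝ) := Module.Basis.mk hli (by rw [hspan', hspan])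
  have e : Mon d d ≃ κ' := (b.indexEquiv (Pi.basisFun ℝ (Mon d d))).symm
  set Bz : Matrix (Mon d d) (Mon d d) ℤ := fun a c => vz (s (e a)) c with hBz
  set B : Matrix (Mon d d) (Mon d d) ℝ := Bz.map (Int.cast : ℤ → ℝ) with hB
  have hBrow : LinearIndependent ℝ B.row := by
    have h1 : B.row = (v ∘ s) ∘ e := by
      funext a c
      rfl
    rw [h1]
    exact hli.comp e e.injective
  have hBunit : IsUnit B := Matrix.linearIndependent_rows_iff_isUnit.1 hBrow
  have hdetB : B.det ≠ 0 := by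
    rw [← isUnit_iff_ne_zero]
    exact (Matrix.isUnit_iff_isUnit_det B).1 hBunit
  have hdetBz : B.det = (Bz.det : ℝ) := by
    have := (Int.castRingHom ℝ).map_det Bz
    simpa [hB] using this.symm
  choose z hz using h
  have hBf : B *ᵥ f = fun a => η * (z (s (e a)) : ℝ) := by
    funext a
    rw [mulVec, dotProduct, ← hz, hFf]
    refine sum_congr rfl fun c _ => ?_
    rw [mul_comm, ← hvp]
    rfl
  refine ⟨B.det / η, div_ne_zero hdetB hη, fun m => ?_⟩
  rw [MvPolynomial.coeff_smul, smul_eq_mul]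
  by_cases hm : MvPolynomial.coeff m (polyF g) = 0
  · exact ⟨0, by rw [hm, mul_zero, Int.cast_zero]⟩
  have h2 := hPh hm
  have h3 : ∑ i, m i = d := by
    have h4 : (Finsupp.weight (1 : Fin d → ℕ)) m = ∑ i, m i := by
      rw [Finsupp.weight_apply, Finsupp.sum_fintype]
      · simp
      · simp
    rw [← h4]
    exact h2
  obtain ⟨a, rfl⟩ := exists_mo m h3
  refine ⟨∑ c, Bz.adjugate a c * z (s (e c)), ?_⟩
  have h1 : B.adjugate *ᵥ (B *ᵥ f) = B.det • f := by
    rw [mulVec_mulVec, Matrix.adjugate_mul, smul_mulVec, one_mulVec]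
  have h2 := congrFun h1 a
  rw [hBf] at h2
  simp only [Pi.smul_apply, smul_eq_mul] at h2
  have h3 : B.adjugate = Bz.adjugate.map (Int.cast : ℤ → ℝ) := by
    have := (Int.castRingHom ℝ).map_adjugate Bz
    simpa [hB] using this.symm
  rw [div_mul_eq_mul_div]
  change B.det * f a / η = _
  rw [← h2, mulVec, dotProduct, h3]
  push_cast
  rw [div_eq_iff hη, sum_mul]
  refine sum_congr rfl fun c _ => ?_
  rw [Matrix.map_apply]
  ring

/-- **The number of solutions.** -/
theorem multiplicity {r : ℕ} (hr : 0 < r) {V ν Λ : ℝ} (hV : 0 < V) (hν : 0 < ν) :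
    ∃ C : ℝ, 0 < C ∧ ∀ g : Matrix (Fin (r + 1)) (Fin (r + 1)) ℝ, |g.det| = V → HasNu g ν →
      ∀ lam : ℝ, |lam| ≤ Λ → ∀ x : ℝ, 1 ≤ x →
      (∃ η : ℝ, Real.exp (-(C * x)) ≤ η ∧ ∀ m : Fin (r + 1) → ℤ, ∃ z : ℤ,
        FF g (iR m) = η * z) ∨
      ∀ a : Fin (r + 1) → ℝ, (∀ i, 0 < a i) → ∏ i, a i = 1 →
      ∀ S : Finset (Fin (r + 1) → ℤ), (∀ p ∈ S, p ≠ 0 ∧ FF g (iR p) = lam ∧
        ∀ i, |a i * (g *ᵥ iR p) i| ≤ Real.exp x) → (S.card : ℝ) ≤ C * x ^ (r - 1) := by
  classical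
  have hd0 : 0 < r + 1 := Nat.succ_pos r
  obtain ⟨R, hR⟩ := exists_bound hd0 V ν hV hν
  set R1 : ℝ := max R 1 with hR1
  set G₀ : ℝ := V⁻¹ * ((r + 1).factorial * R1 ^ (r + 1)) with hG₀
  have hR11 : 1 ≤ R1 := le_max_right _ _
  have hG₀0 : 0 ≤ G₀ := by positivity
  obtain ⟨C, hC, H⟩ := mult_core (Λ := Λ) hr hV hν hG₀0
  refine ⟨C, hC, fun g hgV hnu lam hlam x hx => ?_⟩
  by_cases hη : ∃ η : ℝ, Real.exp (-(C * x)) ≤ η ∧ ∀ m : Fin (r + 1) → ℤ, ∃ z : ℤ,
        FF g (iR m) = η * z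
  · exact Or.inl hη
  refine Or.inr fun a ha0 ha1 S hS => ?_
  have hag : |(diagonal a * g).det| = V := by
    rw [Matrix.det_mul, Matrix.det_diagonal, ha1, one_mul]
    exact hgV
  have hagnu : HasNu (diagonal a * g) ν := fun m hm => by
    rw [FF_diag_mul, ha1, one_mul]
    exact hnu m hm
  obtain ⟨γ, hγ, hγR⟩ := hR _ hag hagnu
  set g' : Matrix (Fin (r + 1)) (Fin (r + 1)) ℝ := diagonal a * g * zR γ with hg'
  have horb : g' ∈ Orb g := ⟨a, γ, ha0, ha1, hγ, rfl⟩
  have hg'V : |g'.det| = V := (abs_det_orb horb).trans hgV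
  have hg'nu : HasNu g' ν := hasNu_orb hnu horb
  have hg'inv : ∀ i j, |g'⁻¹ i j| ≤ G₀ := by
    intro i j
    have h1 := Pool.Agent.N759.NV.inv_bound g' hγR i j
    rw [hg'V] at h1
    exact h1
  have hFF : ∀ p : Fin (r + 1) → ℤ, FF g' (iR p) = FF g (iR (γ *ᵥ p)) := fun p => by
    rw [hg', FF_orb ha1]
  have hback : ∀ p : Fin (r + 1) → ℤ, γ *ᵥ (γ⁻¹ *ᵥ p) = p := fun p => by
    rw [mulVec_mulVec, Matrix.mul_nonsing_inv _ hγ, one_mulVec]
  rcases H g' hg'V hg'nu hg'inv lam hlam x hx with ⟨η, h1, h2⟩ | h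
  · exfalso
    refine hη ⟨η, h1, fun m => ?_⟩
    obtain ⟨z, hz⟩ := h2 (γ⁻¹ *ᵥ m)
    exact ⟨z, by rw [← hz, hFF, hback]⟩
  · have hinj : Set.InjOn (fun p : Fin (r + 1) → ℤ => γ⁻¹ *ᵥ p) (S : Set (Fin (r + 1) → ℤ)) := by
      intro p _ p' _ hpp
      simp only at hpp
      rw [← hback p, hpp, hback]
    rw [← card_image_of_injOn hinj]
    refine h _ fun q hq => ?_
    obtain ⟨p, hp, rfl⟩ := mem_image.1 hq
    obtain ⟨hp0, hpl, hpx⟩ := hS p hp
    refine ⟨?_, ?_, fun i => ?_⟩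
    · intro h0
      apply hp0
      rw [← hback p, h0, mulVec_zero]
    · rw [hFF, hback, hpl]
    · have h1 : (g' *ᵥ iR (γ⁻¹ *ᵥ p)) i = a i * (g *ᵥ iR p) i := by
        rw [hg', ← mulVec_mulVec, zR_mulVec_iR, hback, ← mulVec_mulVec, mulVec_diagonal]
      rw [h1]
      exact hpx i

end Pool.Agent.N759.FV
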