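import Mathlib
import Pool.Agent.N759.FV.Mult2
import Pool.Agent.N759.FV.MultFin

/-! # The number of points whose value is commensurable with a given one: final form -/

open Filter Topology Matrix H715R2

namespace Pool.Agent.N759.FV

open Pool.Agent.W777.FV Pool.Agent.N759.UC Finset

/-- **The number of points with value commensurable with `lam`.** -/
theorem multiplicity2 {r : ℕ} (hr : 0 < r) {V ν Λ : ℝ} (hV : 0 < V) (hν : 0 < ν) :
    ∃ C : ℝ, 0 < C ∧ ∀ g : Matrix (Fin (r + 1)) (Fin (r + 1)) ℝ, |g.det| = V → HasNu g ν →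
      ∀ lam : ℝ, ∀ x w : ℝ, 1 ≤ x → 0 ≤ w →
      (∃ η : ℝ, Real.exp (-(C * (x + w))) ≤ η ∧ ∀ m : Fin (r + 1) → ℤ, ∃ z : ℤ,
        FF g (iR m) = η * z) ∨
      ∀ a : Fin (r + 1) → ℝ, (∀ i, 0 < a i) → ∏ i, a i = 1 →
      ∀ S : Finset (Fin (r + 1) → ℤ), (∀ p ∈ S, p ≠ 0 ∧ |FF g (iR p)| ≤ Λ ∧
        (∃ m n : ℤ, n ≠ 0 ∧ |(m : ℝ)| ≤ Real.exp w ∧ |(n : ℝ)| ≤ Real.exp w ∧
          (n : ℝ) * FF g (iR p) = m * lam) ∧
        ∀ i, |a i * (g *ᵥ iR p) i| ≤ Real.exp x) → (S.card : ℝ) ≤ C * x ^ (r - 1) := by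
  classical
  have hd0 : 0 < r + 1 := Nat.succ_pos r
  obtain ⟨R, hR⟩ := exists_bound hd0 V ν hV hν
  set R1 : ℝ := max R 1 with hR1
  set G₀ : ℝ := V⁻¹ * ((r + 1).factorial * R1 ^ (r + 1)) with hG₀
  have hR11 : 1 ≤ R1 := le_max_right _ _
  have hG₀0 : 0 ≤ G₀ := by positivity
  obtain ⟨C, hC, H⟩ := mult_core2 (Λ := Λ) hr hV hν hG₀0
  refine ⟨C, hC, fun g hgV hnu lam x w hx hw => ?_⟩
  by_cases hη : ∃ η : ℝ, Real.exp (-(C * (x + w))) ≤ η ∧ ∀ m : Fin (r + 1) → ℤ, ∃ z : ℤ,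
        FF g (iR m) = η * z
  · exact Or.inl hη
  refine Or.inr fun a ha0 ha1 S hS => ?_
  have hag : |(diagonal a * g).det| = V := by
    rw [Matrix.det_mul, Matrix.det_diagonal, ha1, one_mul]
    exact hgV
  have hagnu : HasNu (diagonal a * g) ν := fun m hm => by
    rw [FF_diag_mul, ha1, one_mul]
    exact hnu m hm
  obtain ⟨γ, hγ, hγR⟩ := hR _ hag hagnu
  set g' : Matrix (Fin (r + 1)) (Fin (r + 1)) ℝ := diagonal a * g * zR γ with hg'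
  have horb : g' ∈ Orb g := ⟨a, γ, ha0, ha1, hγ, rfl⟩
  have hg'V : |g'.det| = V := (abs_det_orb horb).trans hgV
  have hg'nu : HasNu g' ν := hasNu_orb hnu horb
  have hg'inv : ∀ i j, |g'⁻¹ i j| ≤ G₀ := by
    intro i j
    have h1 := Pool.Agent.N759.NV.inv_bound g' hγR i j
    rw [hg'V] at h1
    exact h1
  have hFF : ∀ p : Fin (r + 1) → ℤ, FF g' (iR p) = FF g (iR (γ *ᵥ p)) := fun p => by
    rw [hg', FF_orb ha1]
  have hback : ∀ p : Fin (r + 1) → ℤ, γ *ᵥ (γ⁻¹ *ᵥ p) = p := fun p => by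
    rw [mulVec_mulVec, Matrix.mul_nonsing_inv _ hγ, one_mulVec]
  rcases H g' hg'V hg'nu hg'inv lam x w hx hw with ⟨η, h1, h2⟩ | h
  · exfalso
    refine hη ⟨η, h1, fun m => ?_⟩
    obtain ⟨z, hz⟩ := h2 (γ⁻¹ *ᵥ m)
    exact ⟨z, by rw [← hz, hFF, hback]⟩
  · have hinj : Set.InjOn (fun p : Fin (r + 1) → ℤ => γ⁻¹ *ᵥ p) (S : Set (Fin (r + 1) → ℤ)) := by
      intro p _ p' _ hpp
      simp only at hpp
      rw [← hback p, hpp, hback]
    rw [← card_image_of_injOn hinj]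
    refine h _ fun q hq => ?_
    obtain ⟨p, hp, rfl⟩ := mem_image.1 hq
    obtain ⟨hp0, hpΛ, hpl, hpx⟩ := hS p hp
    refine ⟨?_, ?_, ?_, fun i => ?_⟩
    · intro h0
      apply hp0
      rw [← hback p, h0, mulVec_zero]
    · rw [hFF, hback]
      exact hpΛ
    · rw [hFF, hback]
      exact hpl
    · have h1 : (g' *ᵥ iR (γ⁻¹ *ᵥ p)) i = a i * (g *ᵥ iR p) i := by
        rw [hg', ← mulVec_mulVec, zR_mulVec_iR, hback, ← mulVec_mulVec, mulVec_diagonal]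
      rw [h1]
      exact hpx i

end Pool.Agent.N759.FV
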