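import Mathlib
import Pool.Agent.N759.FV.Veron

/-! # The Veronese dichotomy for the coefficients of all forms of degree `n` -/

open Matrix H715R2

namespace Pool.Agent.N759.FV

open Finset

/-- **The dichotomy for the coefficients of all forms of degree `n`.** -/
theorem veronese4 {d n : ℕ} {κ : Type} (V : Finset κ) (p : κ → Fin d → ℤ)
    (P : ℝ) (hP : ∀ k ∈ V, ∀ i, |(p k i : ℝ)| ≤ P) :
    (∃ s : Mon d n → V, ∃ N : ℕ, 0 < N ∧ (N : ℝ) ≤ (Fintype.card (Mon d n)).factorial *
        (P ^ n) ^ Fintype.card (Mon d n) ∧ ∀ (f : Mon d n → ℝ) (b : Mon d n),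
        ∃ z : Mon d n → ℤ, (N : ℝ) * f b =
          ∑ c, (z c : ℝ) * ∑ a, f a * ∏ i, iR (p (s c).1) i ^ ex a i) ∨
    ∃ w : Mon d n → ℝ, w ≠ 0 ∧ ∀ k ∈ V, ∑ a, w a * ∏ i, iR (p k) i ^ ex a i = 0 := by
  classical
  set vz : V → Mon d n → ℤ := fun k a => ∏ i, p k.1 i ^ ex a i with hvz
  set v : V → Mon d n → ℝ := fun k a => (vz k a : ℝ) with hv
  have hvp : ∀ k : V, ∀ a, v k a = ∏ i, iR (p k.1) i ^ ex a i := by
    intro k a
    simp only [hv, hvz, iR]
    push_cast
    rfl
  rcases eq_or_ne (Submodule.span ℝ (Set.range v)) ⊤ with hspan | hspan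
  · left
    obtain ⟨κ', s, hs, hspan', hli⟩ := exists_linearIndependent' ℝ v
    have b : Module.Basis κ' ℝ (Mon d n → ℝ) := Module.Basis.mk hli (by rw [hspan', hspan])
    have e : Mon d n ≃ κ' := (b.indexEquiv (Pi.basisFun ℝ (Mon d n))).symm
    set Bz : Matrix (Mon d n) (Mon d n) ℤ := fun a c => vz (s (e a)) c with hBz
    set B : Matrix (Mon d n) (Mon d n) ℝ := Bz.map (Int.cast : ℤ → ℝ) with hB
    have hBrow : LinearIndependent ℝ B.row := by
      have h1 : B.row = (v ∘ s) ∘ e := by
        funext a c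
        rfl
      rw [h1]
      exact hli.comp e e.injective
    have hBunit : IsUnit B := Matrix.linearIndependent_rows_iff_isUnit.1 hBrow
    have hdetB : B.det ≠ 0 := by
      rw [← isUnit_iff_ne_zero]
      exact (Matrix.isUnit_iff_isUnit_det B).1 hBunit
    have hdetBz : B.det = (Bz.det : ℝ) := by
      have := (Int.castRingHom ℝ).map_det Bz
      simpa [hB] using this.symm
    have hDz : Bz.det ≠ 0 := by
      intro h0
      apply hdetB
      rw [hdetBz, h0, Int.cast_zero]
    have hDle : |(Bz.det : ℝ)| ≤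
        (Fintype.card (Mon d n)).factorial * (P ^ n) ^ Fintype.card (Mon d n) := by
      have h1 := Matrix.det_le (A := B) (abv := AbsoluteValue.abs) (x := P ^ n) (fun a c => ?_)
      · rw [nsmul_eq_mul, AbsoluteValue.abs_apply, hdetBz] at h1
        exact h1
      · have h2 : B a c = ∏ i, iR (p (s (e a)).1) i ^ ex c i := hvp (s (e a)) c
        rw [AbsoluteValue.abs_apply, h2, abs_prod]
        have h3 : ∏ i, |iR (p (s (e a)).1) i ^ ex c i| ≤ ∏ i, P ^ ex c i := by
          refine prod_le_prod (fun _ _ => abs_nonneg _) fun i _ => ?_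
          rw [abs_pow]
          exact pow_le_pow_left₀ (abs_nonneg _) (hP _ (s (e a)).2 i) _
        refine h3.trans ?_
        rw [prod_pow_eq_pow_sum, sum_ex]
    have hNc : ((Bz.det.natAbs : ℕ) : ℝ) = |(Bz.det : ℝ)| := Nat.cast_natAbs _ |>.trans (by push_cast; rfl)
    refine ⟨fun a => s (e a), Bz.det.natAbs, Int.natAbs_pos.2 hDz, by rw [hNc]; exact hDle, ?_⟩
    intro f b
    -- the value at a point of the basis
    have hBf : ∀ a, (B *ᵥ f) a = ∑ c, f c * ∏ i, iR (p (s (e a)).1) i ^ ex c i := by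
      intro a
      rw [mulVec, dotProduct]
      refine sum_congr rfl fun c _ => ?_
      rw [mul_comm, ← hvp]
      rfl
    have hadj : ∀ a, B.det * f a = ∑ c, (Bz.adjugate a c : ℝ) * (B *ᵥ f) c := by
      intro a
      have h1 : B.adjugate *ᵥ (B *ᵥ f) = B.det • f := by
        rw [mulVec_mulVec, Matrix.adjugate_mul, smul_mulVec, one_mulVec]
      have h2 := congrFun h1 a
      simp only [Pi.smul_apply, smul_eq_mul] at h2
      rw [← h2, mulVec, dotProduct]
      have h3 : B.adjugate = Bz.adjugate.map (Int.cast : ℤ → ℝ) := by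
        have := (Int.castRingHom ℝ).map_adjugate Bz
        simpa [hB] using this.symm
      rw [h3]
      rfl
    rcases le_total 0 Bz.det with h0 | h0
    · refine ⟨fun c => Bz.adjugate b c, ?_⟩
      rw [hNc, abs_of_nonneg (by exact_mod_cast h0), ← hdetBz, hadj b]
      exact sum_congr rfl fun c _ => by rw [hBf c]
    · refine ⟨fun c => -Bz.adjugate b c, ?_⟩
      rw [hNc, abs_of_nonpos (by exact_mod_cast h0), neg_mul, ← hdetBz, hadj b, ← sum_neg_distrib]
      refine sum_congr rfl fun c _ => ?_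
      rw [hBf c, Int.cast_neg, neg_mul]
  · right
    obtain ⟨F, hF0, hF⟩ := Submodule.exists_le_ker_of_lt_top _ (lt_top_iff_ne_top.2 hspan)
    set w : Mon d n → ℝ := fun a => F (Pi.single a 1) with hw
    have hFv : ∀ x : Mon d n → ℝ, F x = ∑ a, w a * x a := by
      intro x
      conv_lhs => rw [← Finset.univ_sum_single x]
      rw [map_sum]
      refine sum_congr rfl fun a _ => ?_
      have : Pi.single a (x a) = x a • (Pi.single a (1 : ℝ) : Mon d n → ℝ) := by
        rw [← Pi.single_smul, smul_eq_mul, mul_one]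
      rw [this, map_smul, smul_eq_mul, mul_comm]
    have hw0 : w ≠ 0 := by
      intro h0
      apply hF0
      refine LinearMap.ext fun x => ?_
      rw [hFv x, h0]
      simp
    refine ⟨w, hw0, fun k hk => ?_⟩
    have h1 : F (v ⟨k, hk⟩) = 0 := hF (Submodule.subset_span ⟨⟨k, hk⟩, rfl⟩)
    rw [hFv] at h1
    rw [← h1]
    refine sum_congr rfl fun a _ => ?_
    rw [hvp]

end Pool.Agent.N759.FV
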