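import Mathlib
import Pool.Agent.N759.FV.Mult
import Pool.Agent.N759.FV.Veron2

/-! # The number of small points on a hypersurface -/

open Filter Topology Matrix H715R2

namespace Pool.Agent.N759.FV

open Pool.Agent.W777.FV Pool.Agent.N759.UC

/-- **Small points on a hypersurface of degree `n`, in the coordinates `l_i`.** -/
theorem zeros_core {r : ℕ} (hr : 0 < r) (n : ℕ) {V ν Λ : ℝ} (hV : 0 < V) (hν : 0 < ν) :
    ∃ C : ℝ, 0 < C ∧ ∀ g : Matrix (Fin (r + 1)) (Fin (r + 1)) ℝ, |g.det| = V → HasNu g ν →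
      ∀ x : ℝ, 1 ≤ x → ∀ hc : Mon (r + 1) n → ℝ, hc ≠ 0 →
      ∀ S : Finset (Fin (r + 1) → ℤ), (∀ p ∈ S, p ≠ 0 ∧ |FF g (iR p)| ≤ Λ ∧
        ∑ a, hc a * ∏ i, (g *ᵥ iR p) i ^ ex a i = 0 ∧
        ∀ i, |(g *ᵥ iR p) i| ≤ Real.exp x) → (S.card : ℝ) ≤ C * x ^ (r - 1) := by
  classical
  have hd0 : 0 < r + 1 := Nat.succ_pos r
  set MM : ℕ := Fintype.card (Mon (r + 1) n) with hMM
  set B₀ : ℝ := 1 + r + |Real.log ν| + |Real.log Λ| with hB₀
  have hB₀0 : 0 ≤ B₀ := by positivity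
  obtain ⟨C₁, hC₁⟩ := card_near hd0 hV hν (Real.exp B₀) (Real.exp_pos _).le
  have hlM : 0 ≤ Real.log (MM : ℝ) := Real.log_natCast_nonneg _
  set m : ℕ := ⌈2 * (Real.log (MM : ℝ) + 2 * (n : ℝ) * B₀)⌉₊ + 1 with hm
  have hm0 : 0 < m := Nat.succ_pos _
  have hmR : 2 * (Real.log (MM : ℝ) + 2 * (n : ℝ) * B₀) < (m : ℝ) := by
    rw [hm]
    push_cast
    have := Nat.le_ceil (2 * (Real.log (MM : ℝ) + 2 * (n : ℝ) * B₀))
    linarith
  have hmR0 : (0 : ℝ) < m := by exact_mod_cast hm0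
  set Y₁ : ℝ := C₁ * ((MM : ℝ) ^ 2 * (m : ℝ) ^ r) * (r + 2 + |Real.log ν|) ^ (r - 1) with hY₁
  have hY₁0 : 0 ≤ Y₁ := by positivity
  set CC : ℝ := Y₁ + 1 with hCC
  refine ⟨CC, by positivity, ?_⟩
  intro g hgV hnu x hx hc hc0 S hS
  have hg : g.det ≠ 0 := by
    intro h0
    rw [h0, abs_zero] at hgV
    exact hV.ne hgV
  have hx0 : 0 ≤ x := by linarith
  have hck : ∀ p ∈ S, ∑ a, hc a * ∏ i, (g *ᵥ iR p) i ^ ex a i = 0 := fun p hp => (hS p hp).2.2.1
  have hFν : ∀ p ∈ S, ν ≤ |FF g (iR p)| := fun p hp => hnu p (hS p hp).1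
  have hFpos : ∀ p ∈ S, 0 < |FF g (iR p)| := fun p hp => hν.trans_le (hFν p hp)
  -- the coordinates
  set y : (Fin (r + 1) → ℤ) → Fin (r + 1) → ℝ := fun p => g *ᵥ iR p with hy
  have hyprod : ∀ p ∈ S, ∏ i, |y p i| = |FF g (iR p)| := by
    intro p hp
    rw [FF_eq, Finset.abs_prod]
  have hy0 : ∀ p ∈ S, ∀ i, y p i ≠ 0 := by
    intro p hp i h0
    have h1 := hyprod p hp
    rw [Finset.prod_eq_zero (Finset.mem_univ i) (by rw [h0, abs_zero])] at h1
    linarith [hFpos p hp]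
  have hysum : ∀ p ∈ S, ∑ i, Real.log (abs (y p i)) = Real.log |FF g (iR p)| := by
    intro p hp
    rw [← hyprod p hp, Real.log_prod fun i _ => abs_ne_zero.2 (hy0 p hp i)]
  have hyx : ∀ p ∈ S, ∀ i, Real.log (abs (y p i)) ≤ x := by
    intro p hp i
    rw [Real.log_le_iff_le_exp (abs_pos.2 (hy0 p hp i))]
    exact (hS p hp).2.2.2 i
  have hloglam1 : ∀ p ∈ S, Real.log ν ≤ Real.log |FF g (iR p)| := fun p hp =>
    Real.log_le_log hν (hFν p hp)
  have hloglam2 : ∀ p ∈ S, Real.log |FF g (iR p)| ≤ Real.log Λ := fun p hp =>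
    Real.log_le_log (hFpos p hp) (hS p hp).2.1
  have hloglam : ∀ p ∈ S, |Real.log (abs (FF g (iR p)))| ≤ |Real.log ν| + |Real.log Λ| := by
    intro p hp
    have hloglam1 := hloglam1 p hp
    have hloglam2 := hloglam2 p hp
    rw [abs_le]
    constructor
    · linarith [neg_abs_le (Real.log ν), abs_nonneg (Real.log Λ)]
    · linarith [le_abs_self (Real.log Λ), abs_nonneg (Real.log ν)]
  have hylow : ∀ p ∈ S, ∀ i, -|Real.log ν| - r * x ≤ Real.log (abs (y p i)) := by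
    intro p hp i
    have h1 := hysum p hp
    rw [← Finset.add_sum_erase Finset.univ _ (Finset.mem_univ i)] at h1
    have h2 : ∑ j ∈ Finset.univ.erase i, Real.log (abs (y p j)) ≤
        ∑ _j ∈ Finset.univ.erase i, x := Finset.sum_le_sum fun j _ => hyx p hp j
    rw [Finset.sum_const, Finset.card_erase_of_mem (Finset.mem_univ i), Finset.card_univ,
      Fintype.card_fin, Nat.add_sub_cancel, nsmul_eq_mul] at h2
    linarith [neg_abs_le (Real.log ν), hloglam1 p hp]
  -- positions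
  set κ : (Fin (r + 1) → ℤ) → Fin r → ℕ :=
    fun p j => ⌊x - Real.log (abs (y p j.castSucc))⌋₊ with hκ
  set K : ℕ := ⌊(r + 1) * x + |Real.log ν|⌋₊ with hK
  have hκK : ∀ p ∈ S, ∀ j, κ p j ≤ K := by
    intro p hp j
    refine Nat.floor_le_floor ?_
    have := hylow p hp j.castSucc
    linarith
  have hκ1 : ∀ p ∈ S, ∀ j, (κ p j : ℝ) ≤ x - Real.log (abs (y p j.castSucc)) := fun p hp j =>
    Nat.floor_le (by linarith [hyx p hp j.castSucc])
  have hκ2 : ∀ p j, x - Real.log (abs (y p j.castSucc)) < (κ p j : ℝ) + 1 := fun p j =>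
    Nat.lt_floor_add_one _
  set pos : (Fin (r + 1) → ℤ) → Fin r → Fin (K + 1) :=
    fun p j => ⟨min (κ p j / m) K, Nat.lt_succ_iff.2 (min_le_right _ _)⟩ with hpos
  set cl : (Fin (r + 1) → ℤ) → Fin r → Fin m := fun p j => ⟨κ p j % m, Nat.mod_lt _ hm0⟩ with hcl
  have hposκ : ∀ p ∈ S, ∀ j, (κ p j : ℝ) = m * ((pos p j : ℕ) : ℝ) + ((cl p j : ℕ) : ℝ) := by
    intro p hp j
    have h1 : κ p j / m ≤ K := (Nat.div_le_self _ _).trans (hκK p hp j)
    have h2 : ((pos p j : ℕ)) = κ p j / m := min_eq_left h1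
    rw [h2]
    have h3 := Nat.div_add_mod (κ p j) m
    exact_mod_cast h3.symm
  -- the shift of a class
  set ψ : (Fin r → Fin m) → Fin (r + 1) → ℝ := fun c =>
    Fin.snoc (α := fun _ => ℝ) (fun j => ((c j : ℕ) : ℝ) - x) (-∑ j, (((c j : ℕ) : ℝ) - x)) with hψ
  have hψsum : ∀ c, ∑ i, ψ c i = 0 := by
    intro c
    rw [Fin.sum_univ_castSucc]
    simp [hψ]
  have hnear : ∀ p ∈ S, ∀ i, |Real.log (abs (y p i)) +
      gpos (m : ℝ) (fun j => ((pos p j : ℕ) : ℝ)) i + ψ (cl p) i| ≤ B₀ := by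
    intro p hp i
    have hj : ∀ j : Fin r, Real.log (abs (y p j.castSucc)) +
        (m * ((pos p j : ℕ) : ℝ)) + (((cl p j : ℕ) : ℝ) - x) ≤ 0 ∧
        -1 ≤ Real.log (abs (y p j.castSucc)) +
        (m * ((pos p j : ℕ) : ℝ)) + (((cl p j : ℕ) : ℝ) - x) := by
      intro j
      have h1 := hκ1 p hp j
      have h2 := hκ2 p j
      rw [hposκ p hp j] at h1 h2
      constructor <;> linarith
    refine Fin.lastCases ?_ (fun j => ?_) i
    · simp only [gpos, hψ, Fin.snoc_last]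
      have h1 := hysum p hp
      rw [Fin.sum_univ_castSucc] at h1
      have h2 : Real.log (abs (y p (Fin.last r))) + -∑ j, (m : ℝ) * ((pos p j : ℕ) : ℝ) +
          -∑ j, (((cl p j : ℕ) : ℝ) - x) = Real.log |FF g (iR p)| -
          ∑ j : Fin r, (Real.log (abs (y p j.castSucc)) +
            (m * ((pos p j : ℕ) : ℝ)) + (((cl p j : ℕ) : ℝ) - x)) := by
        rw [Finset.sum_add_distrib, Finset.sum_add_distrib]
        linarith
      rw [h2]
      have h3 : ∑ j : Fin r, (Real.log (abs (y p j.castSucc)) +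
            (m * ((pos p j : ℕ) : ℝ)) + (((cl p j : ℕ) : ℝ) - x)) ≤ 0 :=
        Finset.sum_nonpos fun j _ => (hj j).1
      have h4 : ∑ _j : Fin r, (-1 : ℝ) ≤ ∑ j : Fin r, (Real.log (abs (y p j.castSucc)) +
            (m * ((pos p j : ℕ) : ℝ)) + (((cl p j : ℕ) : ℝ) - x)) :=
        Finset.sum_le_sum fun j _ => (hj j).2
      rw [Finset.sum_const, Finset.card_univ, Fintype.card_fin, nsmul_eq_mul] at h4
      have h5 := abs_le.1 (hloglam p hp)
      rw [abs_le, hB₀]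
      constructor <;> linarith [abs_nonneg (Real.log ν), abs_nonneg (Real.log Λ), h5.1, h5.2]
    · simp only [gpos, hψ, Fin.snoc_castSucc]
      have h1 := hj j
      rw [abs_le, hB₀]
      have h6 : (0 : ℝ) ≤ r := Nat.cast_nonneg r
      constructor <;> linarith [abs_nonneg (Real.log ν), abs_nonneg (Real.log Λ), h1.1, h1.2]
  -- the positions of a class
  have hclass : ∀ c : Fin r → Fin m, ((S.filter fun p => cl p = c).image pos).card ≤
      MM ^ 2 * (K + 1) ^ (r - 1) := by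
    intro c
    have hex : ∀ k ∈ (S.filter fun p => cl p = c).image pos, ∃ p, p ∈ S ∧ cl p = c ∧ pos p = k := by
      intro k hk
      obtain ⟨p, hp, hpk⟩ := Finset.mem_image.1 hk
      exact ⟨p, (Finset.mem_filter.1 hp).1, (Finset.mem_filter.1 hp).2, hpk⟩
    choose! rep hrep1 hrep2 hrep3 using hex
    refine level_card (n := n) (ex (d := r + 1) (n := n)) ex_injective sum_ex
      (fun a => hc a * ∏ i, Real.exp (-(ψ c i)) ^ ex a i) ?_ K (m : ℝ) B₀ hmR0 hmR _
      (fun k i => Real.exp (ψ c i) * y (rep k) i) ?_ ?_ ?_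
    · intro h0
      apply hc0
      funext a
      have h1 := congrFun h0 a
      simp only [Pi.zero_apply] at h1
      rcases mul_eq_zero.1 h1 with h2 | h2
      · exact h2
      · exfalso
        exact (Finset.prod_ne_zero_iff.2 fun i _ => pow_ne_zero _ (Real.exp_pos _).ne') h2
    · intro k hk i
      exact mul_ne_zero (Real.exp_pos _).ne' (hy0 _ (hrep1 k hk) i)
    · intro k hk
      have h1 := hck _ (hrep1 k hk)
      rw [← h1]
      refine Finset.sum_congr rfl fun a _ => ?_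
      rw [mul_assoc, ← Finset.prod_mul_distrib]
      congr 1
      refine Finset.prod_congr rfl fun i _ => ?_
      rw [← mul_pow]
      congr 1
      rw [← mul_assoc, ← Real.exp_add, neg_add_cancel, Real.exp_zero, one_mul]
    · intro k hk i
      have h1 := hnear _ (hrep1 k hk) i
      rw [hrep2 k hk, hrep3 k hk] at h1
      rw [abs_mul, abs_of_pos (Real.exp_pos _), Real.log_mul (Real.exp_pos _).ne'
        (abs_ne_zero.2 (hy0 _ (hrep1 k hk) i)), Real.log_exp]
      rwa [show ψ c i + Real.log (abs (y (rep k) i)) +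
        gpos (m : ℝ) (fun j => ((k j : ℕ) : ℝ)) i = Real.log (abs (y (rep k) i)) +
        gpos (m : ℝ) (fun j => ((k j : ℕ) : ℝ)) i + ψ c i by ring]
  -- the fibres
  have hfib : S.card ≤ C₁ * (S.image fun p => (cl p, pos p)).card := by
    refine Finset.card_le_mul_card_image _ _ fun b hb => ?_
    obtain ⟨p₁, hp₁, rfl⟩ := Finset.mem_image.1 hb
    set φ : Fin (r + 1) → ℝ := fun i =>
      gpos (m : ℝ) (fun j => ((pos p₁ j : ℕ) : ℝ)) i + ψ (cl p₁) i with hφ
    have hφ1 : ∏ i, Real.exp (φ i) = 1 := by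
      rw [← Real.exp_sum]
      simp only [hφ]
      rw [Finset.sum_add_distrib, sum_gpos, hψsum, add_zero, Real.exp_zero]
    refine hC₁ (diagonal (fun i => Real.exp (φ i)) * g) ?_ ?_ _ fun p hp i => ?_
    · rw [det_mul, det_diagonal, hφ1, one_mul]
      exact hgV
    · intro q hq
      rw [FF_diag_mul, hφ1, one_mul]
      exact hnu q hq
    · obtain ⟨hpS, hpe⟩ := Finset.mem_filter.1 hp
      rw [Prod.mk.injEq] at hpe
      have h1 := hnear p hpS i
      rw [hpe.1, hpe.2] at h1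
      rw [← mulVec_mulVec, mulVec_diagonal, abs_mul, abs_of_pos (Real.exp_pos _)]
      have h2 : |(g *ᵥ iR p) i| = Real.exp (Real.log (abs (y p i))) := by
        rw [Real.exp_log (abs_pos.2 (hy0 p hpS i))]
      rw [h2, ← Real.exp_add, Real.exp_le_exp]
      simp only [hφ]
      linarith [(abs_le.1 h1).2]
  have himg : (S.image fun p => (cl p, pos p)).card ≤ (MM ^ 2 * (K + 1) ^ (r - 1)) * m ^ r := by
    have h1 := Finset.card_le_mul_card_image (f := fun b : (Fin r → Fin m) × (Fin r → Fin (K + 1)) =>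
      b.1) (S.image fun p => (cl p, pos p)) (MM ^ 2 * (K + 1) ^ (r - 1)) (fun c _ => by
        refine le_trans ?_ (hclass c)
        refine Finset.card_le_card_of_injOn (fun b => b.2) (fun b hb => ?_) ?_
        · obtain ⟨hb1, hb2⟩ := Finset.mem_filter.1 hb
          obtain ⟨p, hp, rfl⟩ := Finset.mem_image.1 hb1
          exact Finset.mem_coe.2 (Finset.mem_image.2 ⟨p, Finset.mem_filter.2 ⟨hp, hb2⟩, rfl⟩)
        · intro b hb b' hb' hbb
          have h2 := (Finset.mem_filter.1 hb).2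
          have h3 := (Finset.mem_filter.1 hb').2
          exact Prod.ext (h2.trans h3.symm) hbb)
    refine h1.trans (Nat.mul_le_mul_left _ ?_)
    refine (Finset.card_le_univ _).trans ?_
    rw [Fintype.card_fun, Fintype.card_fin, Fintype.card_fin]
  have hcount : (S.card : ℝ) ≤ C₁ * (((MM : ℝ) ^ 2 * ((K : ℝ) + 1) ^ (r - 1)) * (m : ℝ) ^ r) := by
    exact_mod_cast hfib.trans (Nat.mul_le_mul_left _ himg)
  have hKx : (K : ℝ) + 1 ≤ (r + 2 + |Real.log ν|) * x := by
    have h1 : (K : ℝ) ≤ (r + 1) * x + |Real.log ν| := Nat.floor_le (by positivity)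
    have h2 : |Real.log ν| ≤ |Real.log ν| * x := le_mul_of_one_le_right (abs_nonneg _) hx
    nlinarith
  have hpow : ((K : ℝ) + 1) ^ (r - 1) ≤ ((r + 2 + |Real.log ν|) * x) ^ (r - 1) :=
    pow_le_pow_left₀ (by positivity) hKx _
  calc (S.card : ℝ) ≤ C₁ * (((MM : ℝ) ^ 2 * ((K : ℝ) + 1) ^ (r - 1)) * (m : ℝ) ^ r) := hcount
    _ ≤ C₁ * (((MM : ℝ) ^ 2 * ((r + 2 + |Real.log ν|) * x) ^ (r - 1)) * (m : ℝ) ^ r) := by
        refine mul_le_mul_of_nonneg_left ?_ (Nat.cast_nonneg _)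
        refine mul_le_mul_of_nonneg_right ?_ (pow_nonneg hmR0.le _)
        exact mul_le_mul_of_nonneg_left hpow (sq_nonneg _)
    _ = Y₁ * x ^ (r - 1) := by rw [hY₁, mul_pow]; ring
    _ ≤ CC * x ^ (r - 1) := by
        refine mul_le_mul_of_nonneg_right ?_ (pow_nonneg hx0 _)
        rw [hCC]
        linarith

end Pool.Agent.N759.FV
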