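import Mathlib
import Pool.Agent.N759.FV.Zeros
import Pool.Agent.N759.FV.Veron4
import Pool.Agent.N759.FV.MultFin2

/-! # More than `C x ^ (r - 1)` small points determine all forms of degree `n` -/

open Filter Topology Matrix H715R2

namespace Pool.Agent.N759.FV

open Pool.Agent.W777.FV Pool.Agent.N759.UC Finset

/-- **Small points determine all forms of degree `n`.** -/
theorem small_points_coeffs {r : ℕ} (hr : 0 < r) (n : ℕ) {V ν Λ : ℝ} (hV : 0 < V) (hν : 0 < ν) :
    ∃ C : ℝ, 0 < C ∧ ∀ g : Matrix (Fin (r + 1)) (Fin (r + 1)) ℝ, |g.det| = V → HasNu g ν →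
      ∀ x : ℝ, 1 ≤ x → ∀ a : Fin (r + 1) → ℝ, (∀ i, 0 < a i) → ∏ i, a i = 1 →
      ∀ S : Finset (Fin (r + 1) → ℤ), (∀ p ∈ S, p ≠ 0 ∧ |FF g (iR p)| ≤ Λ ∧
        ∀ i, |a i * (g *ᵥ iR p) i| ≤ Real.exp x) → C * x ^ (r - 1) < (S.card : ℝ) →
      ∃ T ⊆ S, (T.card : ℝ) ≤ C ∧ ∃ N : ℕ, 0 < N ∧ (N : ℝ) ≤ Real.exp (C * x) ∧
        ∀ P : MvPolynomial (Fin (r + 1)) ℝ, P.IsHomogeneous n → ∀ m : Fin (r + 1) →₀ ℕ,
          (N : ℝ) * MvPolynomial.coeff m P ∈ AddSubgroup.closure
            ((fun p : Fin (r + 1) → ℤ => MvPolynomial.eval (iR p) P) ''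
              (T : Set (Fin (r + 1) → ℤ))) := by
  classical
  have hd0 : 0 < r + 1 := Nat.succ_pos r
  obtain ⟨R, hR⟩ := exists_bound hd0 V ν hV hν
  set R1 : ℝ := max R 1 with hR1
  set G₀ : ℝ := V⁻¹ * ((r + 1).factorial * R1 ^ (r + 1)) with hG₀
  have hR11 : 1 ≤ R1 := le_max_right _ _
  have hG₀0 : 0 ≤ G₀ := by positivity
  obtain ⟨C₀, hC₀, H⟩ := zeros_core (Λ := Λ) hr n hV hν
  set MM : ℕ := Fintype.card (Mon (r + 1) n) with hMM
  set P₀ : ℝ := ((r + 1 : ℕ) : ℝ) * G₀ + 1 with hP₀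
  have hP₀0 : 0 < P₀ := by positivity
  set X₁ : ℝ := MM.factorial * (P₀ ^ n) ^ MM with hX₁
  have hX₁0 : 0 < X₁ := by positivity
  set C : ℝ := C₀ + |Real.log X₁| + n * MM + MM with hC
  have hC₀C : C₀ ≤ C := by
    rw [hC]
    have h1 := abs_nonneg (Real.log X₁)
    have h2 : (0 : ℝ) ≤ n * MM := by positivity
    have h3 : (0 : ℝ) ≤ MM := Nat.cast_nonneg _
    linarith
  refine ⟨C, by linarith, fun g hgV hnu x hx a ha0 ha1 S hS hcard => ?_⟩
  have hx0 : 0 ≤ x := by linarith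
  have hag : |(diagonal a * g).det| = V := by
    rw [Matrix.det_mul, Matrix.det_diagonal, ha1, one_mul]
    exact hgV
  have hagnu : HasNu (diagonal a * g) ν := fun m hm => by
    rw [FF_diag_mul, ha1, one_mul]
    exact hnu m hm
  have hagp : ∀ p : Fin (r + 1) → ℤ, ∀ i,
      ((diagonal a * g) *ᵥ iR p) i = a i * (g *ᵥ iR p) i := fun p i => by
    rw [← mulVec_mulVec, mulVec_diagonal]
  obtain ⟨γ, hγ, hγR⟩ := hR _ hag hagnu
  set g' : Matrix (Fin (r + 1)) (Fin (r + 1)) ℝ := diagonal a * g * zR γ with hg'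
  have horb : g' ∈ Orb g := ⟨a, γ, ha0, ha1, hγ, rfl⟩
  have hg'V : |g'.det| = V := (abs_det_orb horb).trans hgV
  have hg'0 : g'.det ≠ 0 := by
    intro h0
    rw [h0, abs_zero] at hg'V
    exact hV.ne hg'V
  have hg'inv : ∀ i j, |g'⁻¹ i j| ≤ G₀ := by
    intro i j
    have h1 := Pool.Agent.N759.NV.inv_bound g' hγR i j
    rw [hg'V] at h1
    exact h1
  have hback : ∀ p : Fin (r + 1) → ℤ, γ *ᵥ (γ⁻¹ *ᵥ p) = p := fun p => by
    rw [mulVec_mulVec, Matrix.mul_nonsing_inv _ hγ, one_mulVec]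
  have hg'p : ∀ p : Fin (r + 1) → ℤ, g' *ᵥ iR (γ⁻¹ *ᵥ p) = (diagonal a * g) *ᵥ iR p := by
    intro p
    rw [hg', ← mulVec_mulVec, zR_mulVec_iR, hback]
  have hPb : ∀ p ∈ S, ∀ i, |((γ⁻¹ *ᵥ p) i : ℝ)| ≤ P₀ * Real.exp x := by
    intro p hp j
    have h1 : ((γ⁻¹ *ᵥ p) j : ℝ) = (g'⁻¹ *ᵥ (g' *ᵥ iR (γ⁻¹ *ᵥ p))) j := by
      rw [mulVec_mulVec, Matrix.nonsing_inv_mul _ (isUnit_iff_ne_zero.2 hg'0), one_mulVec]
      rfl
    rw [h1, hg'p, mulVec, dotProduct]
    refine (Finset.abs_sum_le_sum_abs _ _).trans ?_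
    have h2 : ∑ i, |g'⁻¹ j i * ((diagonal a * g) *ᵥ iR p) i| ≤
        ∑ _i : Fin (r + 1), G₀ * Real.exp x := by
      refine Finset.sum_le_sum fun i _ => ?_
      rw [abs_mul, hagp]
      exact mul_le_mul (hg'inv j i) ((hS p hp).2.2 i) (abs_nonneg _) hG₀0
    refine h2.trans ?_
    rw [Finset.sum_const, Finset.card_univ, Fintype.card_fin, nsmul_eq_mul, hP₀]
    have h3 : 0 < Real.exp x := Real.exp_pos _
    nlinarith
  rcases veronese4 (n := n) S (fun p => γ⁻¹ *ᵥ p) (P₀ * Real.exp x) hPb with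
    ⟨s, N, hN0, hN, hz⟩ | ⟨w, hw0, hw⟩
  · refine ⟨univ.image fun c => (s c).1, ?_, ?_, N, hN0, hN.trans ?_, ?_⟩
    · intro p hp
      obtain ⟨c, _, rfl⟩ := mem_image.1 hp
      exact (s c).2
    · have h1 : ((univ.image fun c => (s c).1).card : ℝ) ≤ (MM : ℝ) := by
        exact_mod_cast (card_image_le.trans (le_of_eq card_univ))
      refine h1.trans ?_
      rw [hC]
      have h1 := abs_nonneg (Real.log X₁)
      have h2 : (0 : ℝ) ≤ n * MM := by positivity
      linarith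
    · rw [← hMM]
      have h4 : ((P₀ * Real.exp x) ^ n) ^ MM =
          (P₀ ^ n) ^ MM * Real.exp ((n * MM : ℕ) * x) := by
        rw [Real.exp_nat_mul, mul_pow, mul_pow, ← pow_mul (Real.exp x)]
      rw [h4, ← mul_assoc, ← hX₁]
      have h6 : X₁ ≤ Real.exp (|Real.log X₁| * x) := by
        rw [← Real.log_le_iff_le_exp hX₁0]
        have h7 := le_abs_self (Real.log X₁)
        have h8 := abs_nonneg (Real.log X₁)
        nlinarith
      calc X₁ * Real.exp ((n * MM : ℕ) * x)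
          ≤ Real.exp (|Real.log X₁| * x) * Real.exp ((n * MM : ℕ) * x) :=
            mul_le_mul_of_nonneg_right h6 (Real.exp_pos _).le
        _ ≤ Real.exp (C * x) := by
            rw [← Real.exp_add, Real.exp_le_exp, hC]
            push_cast
            have h8 : 0 ≤ C₀ * x := mul_nonneg hC₀.le hx0
            have h9 : 0 ≤ (MM : ℝ) * x := mul_nonneg (Nat.cast_nonneg _) hx0
            nlinarith
    · intro P hP m
      set w : Mon (r + 1) n → ℝ := fun a => MvPolynomial.coeff (mo a) P with hw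
      have hPe : ∀ y : Fin (r + 1) → ℝ, MvPolynomial.eval y P =
          ∑ a, w a * ∏ i, y i ^ ex a i := fun y => eval_homog hP y
      by_cases hP0 : P = 0
      · rw [hP0, MvPolynomial.coeff_zero, mul_zero]
        exact AddSubgroup.zero_mem _
      have hw0 : w ≠ 0 := by
        intro hw0
        apply hP0
        refine MvPolynomial.funext fun y => ?_
        rw [hPe, hw0]
        simp
      have hγi : (zR γ⁻¹).det ≠ 0 := by
        rw [det_zR]
        have h1 : γ.det * (γ⁻¹).det = 1 := by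
          rw [← det_mul, Matrix.mul_nonsing_inv _ hγ, det_one]
        have h2 : (γ⁻¹).det ≠ 0 := by
          intro h0
          rw [h0, mul_zero] at h1
          exact zero_ne_one h1
        exact_mod_cast h2
      obtain ⟨f, -, hf⟩ := change_vars hγi w hw0
      have hfe : ∀ p : Fin (r + 1) → ℤ,
          ∑ a, f a * ∏ i, iR (γ⁻¹ *ᵥ p) i ^ ex a i = MvPolynomial.eval (iR p) P := by
        intro p
        rw [hPe, ← hf, zR_mulVec_iR]
      have hfc : ∀ b, (N : ℝ) * f b ∈ AddSubgroup.closure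
            ((fun p : Fin (r + 1) → ℤ => MvPolynomial.eval (iR p) P) ''
              ((univ.image fun c => (s c).1 : Finset (Fin (r + 1) → ℤ)) :
                Set (Fin (r + 1) → ℤ))) := by
        intro b
        obtain ⟨z, hz⟩ := hz f b
        rw [hz]
        refine AddSubgroup.sum_mem _ fun c _ => ?_
        rw [hfe, ← zsmul_eq_mul]
        refine AddSubgroup.zsmul_mem _ (AddSubgroup.subset_closure ?_) _
        exact ⟨(s c).1, Finset.mem_coe.2 (mem_image.2 ⟨c, mem_univ _, rfl⟩), rfl⟩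
      set Z : Mon (r + 1) n → MvPolynomial (Fin (r + 1)) ℤ := fun b =>
        ∏ j, (∑ i, MvPolynomial.C (γ⁻¹ j i) * MvPolynomial.X i) ^ ex b j with hZ
      have hPZ : P = ∑ b, MvPolynomial.C (f b) * MvPolynomial.map (Int.castRingHom ℝ) (Z b) := by
        refine MvPolynomial.funext fun y => ?_
        rw [hPe, ← hf, map_sum]
        refine sum_congr rfl fun b _ => ?_
        rw [map_mul, MvPolynomial.eval_C, hZ, map_prod, map_prod]
        congr 1
        refine prod_congr rfl fun j _ => ?_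
        rw [map_pow, map_pow]
        congr 1
        rw [map_sum, map_sum, mulVec, dotProduct]
        refine sum_congr rfl fun i _ => ?_
        rw [map_mul, MvPolynomial.map_C, MvPolynomial.map_X, map_mul, MvPolynomial.eval_C,
          MvPolynomial.eval_X]
        rfl
      have hco : (N : ℝ) * MvPolynomial.coeff m P =
          ∑ b, ((MvPolynomial.coeff m (Z b) : ℤ) : ℝ) * ((N : ℝ) * f b) := by
        conv_lhs => rw [hPZ]
        rw [MvPolynomial.coeff_sum, mul_sum]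
        refine sum_congr rfl fun b _ => ?_
        rw [MvPolynomial.coeff_C_mul, MvPolynomial.coeff_map]
        simp only [eq_intCast]
        ring
      rw [hco]
      refine AddSubgroup.sum_mem _ fun b _ => ?_
      rw [← zsmul_eq_mul]
      exact AddSubgroup.zsmul_mem _ (hfc b) _
  · exfalso
    obtain ⟨h, hh0, hh⟩ := change_vars hg'0 w hw0
    have h1 := H (diagonal a * g) hag hagnu x hx h hh0 S fun p hp => by
      refine ⟨(hS p hp).1, ?_, ?_, fun i => ?_⟩
      · rw [FF_diag_mul, ha1, one_mul]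
        exact (hS p hp).2.1
      · rw [← hg'p, hh]
        exact hw p hp
      · rw [hagp]
        exact (hS p hp).2.2 i
    have h2 : C₀ * x ^ (r - 1) ≤ C * x ^ (r - 1) :=
      mul_le_mul_of_nonneg_right hC₀C (pow_nonneg hx0 _)
    linarith

end Pool.Agent.N759.FV
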