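import Mathlib
import Pool.Agent.N759.FV.Cover
import Pool.Agent.N759.FV.Comb
import Pool.Agent.N759.FV.Veron
import Pool.Agent.N759.FV.Degen

/-! # The grid -/

open Filter Topology Matrix H715R2

namespace Pool.Agent.N759.FV

open Pool.Agent.W777.FV Pool.Agent.N759.UC

lemma gpos_abs_le {r : ℕ} {D : ℝ} (hD : 0 ≤ D) (hr : 0 < r) {K : ℝ} (k : Fin r → ℝ)
    (hk : ∀ j, 0 ≤ k j ∧ k j ≤ K) (i : Fin (r + 1)) : |gpos D k i| ≤ D * r * K := by
  have hK : 0 ≤ K := (hk ⟨0, hr⟩).1.trans (hk ⟨0, hr⟩).2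
  have hr1 : (1 : ℝ) ≤ r := by exact_mod_cast hr
  refine Fin.lastCases ?_ (fun j => ?_) i
  · simp only [gpos, Fin.snoc_last]
    rw [abs_neg, abs_of_nonneg (Finset.sum_nonneg fun j _ => mul_nonneg hD (hk j).1)]
    have h1 : ∑ j, D * k j ≤ ∑ _j : Fin r, D * K :=
      Finset.sum_le_sum fun j _ => mul_le_mul_of_nonneg_left (hk j).2 hD
    rw [Finset.sum_const, Finset.card_univ, Fintype.card_fin, nsmul_eq_mul] at h1
    linarith
  · simp only [gpos, Fin.snoc_castSucc]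
    rw [abs_of_nonneg (mul_nonneg hD (hk j).1)]
    have h1 : D * k j ≤ D * K := mul_le_mul_of_nonneg_left (hk j).2 hD
    have h2 : D * K * 1 ≤ D * K * r := mul_le_mul_of_nonneg_left hr1 (mul_nonneg hD hK)
    linarith

/-- the relation between two positions with the same state -/
lemma rel_of_state {d : ℕ} {g : Matrix (Fin d) (Fin d) ℝ} {φ φ' b : Fin d → ℝ}
    {γ γ' : Matrix (Fin d) (Fin d) ℤ} (hγ : IsUnit γ.det)
    (h : diagonal (fun i => Real.exp (φ' i)) * g * zR γ' =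
      diagonal b * (diagonal (fun i => Real.exp (φ i)) * g * zR γ)) :
    g * zR (γ' * γ⁻¹) = diagonal (fun i => b i * Real.exp (φ i - φ' i)) * g := by
  have h1 : diagonal (fun i => (Real.exp (φ' i))⁻¹) * diagonal (fun i => Real.exp (φ' i)) =
      (1 : Matrix (Fin d) (Fin d) ℝ) := by
    rw [diagonal_mul_diagonal, ← diagonal_one]
    congr 1
    funext i
    exact inv_mul_cancel₀ (Real.exp_pos _).ne'
  have h2 : g * zR γ' = diagonal (fun i => (Real.exp (φ' i))⁻¹) *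
      (diagonal b * (diagonal (fun i => Real.exp (φ i)) * g * zR γ)) := by
    rw [← h, Matrix.mul_assoc (diagonal fun i => Real.exp (φ' i)), ← Matrix.mul_assoc, h1,
      Matrix.one_mul]
  rw [zR_mul, ← Matrix.mul_assoc, h2]
  have h3 : diagonal (fun i => (Real.exp (φ' i))⁻¹) *
      (diagonal b * (diagonal (fun i => Real.exp (φ i)) * g * zR γ)) * zR γ⁻¹ =
      (diagonal (fun i => (Real.exp (φ' i))⁻¹) * diagonal b *
        diagonal (fun i => Real.exp (φ i))) * g * (zR γ * zR γ⁻¹) := by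
    simp only [Matrix.mul_assoc]
  rw [h3, zR_inv hγ, Matrix.mul_one, diagonal_mul_diagonal, diagonal_mul_diagonal]
  congr 2
  funext i
  rw [← Real.exp_neg, mul_right_comm, ← Real.exp_add, mul_comm]
  congr 2
  ring

theorem grid {r : ℕ} (hr : 0 < r) {V ν T : ℝ} (hV : 0 < V) (hν : 0 < ν)
    (hT : ∀ h : Matrix (Fin (r + 1)) (Fin (r + 1)) ℝ, |h.det| = V →
      ∃ m : Fin (r + 1) → ℤ, m ≠ 0 ∧ |FF h (iR m)| < T) {G₀ : ℝ} (hG₀ : 0 ≤ G₀) :
    ∃ D₁ N₁ P₁ κ : ℝ, 0 ≤ D₁ ∧ 0 < N₁ ∧ 0 < P₁ ∧ 0 < κ ∧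
      ∀ g : Matrix (Fin (r + 1)) (Fin (r + 1)) ℝ, |g.det| = V → HasNu g ν →
      (∀ i j, |g⁻¹ i j| ≤ G₀) → ∀ K : ℕ,
      (∃ η : ℝ, ν / ((Fintype.card (Mon (r + 1) (r + 1))).factorial *
          ((P₁ * Real.exp (D₁ * K)) ^ (r + 1)) ^ Fintype.card (Mon (r + 1) (r + 1))) ≤ η ∧ 0 < η ∧
          ∀ m : Fin (r + 1) → ℤ, ∃ z : ℤ, FF g (iR m) = η * z) ∨
      ∃ (E : Finset ℝ) (C : Finset (Fin (r + 1) → ℝ)),
        (∀ t ∈ E, |t| < T ∧ ∃ p : Fin (r + 1) → ℤ, p ≠ 0 ∧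
          (∀ i, |(g *ᵥ iR p) i| ≤ N₁ * Real.exp (D₁ * K)) ∧ FF g (iR p) = t) ∧
        (∀ c ∈ C, (∀ i, 0 < c i ∧ c i ≤ 3 * Real.exp (2 * (D₁ * K)) ∧
            (c i)⁻¹ ≤ 3 * Real.exp (2 * (D₁ * K))) ∧
          ∃ δ : Matrix (Fin (r + 1)) (Fin (r + 1)) ℤ, IsUnit δ.det ∧ g * zR δ = diagonal c * g) ∧
        κ * ((K : ℝ) + 1) ≤ E.card ∧
        κ * ((K : ℝ) + 1) ^ (Fintype.card (Od (r + 1)) + r - 1) ≤
          C.card * (E.card : ℝ) ^ Fintype.card (Od (r + 1)) ∧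
        ∀ m' : ℕ, (∀ c ∈ C, (Finset.univ.image c).card ≤ m') →
          C.card ≤ m' ^ (r + 1) * (2 * r * K + 1) ^ (m' - 1) := by
  classical
  obtain ⟨L, Rp, M, t, m, W, hRp, hM, hmM, hm0, hmT, hcol, hcov⟩ :=
    cover hr hV hν hT (Mon (r + 1) (r + 1) × Mon (r + 1) (r + 1))
  set MM : ℕ := Fintype.card (Mon (r + 1) (r + 1)) with hMM
  set N : ℕ := Fintype.card (Od (r + 1)) with hN
  set N₁ : ℝ := ((r + 1 : ℕ) : ℝ) * (Rp * M) + 1 with hN₁
  have hN₁0 : 0 < N₁ := by positivity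
  set B₁ : ℝ := |Real.log N₁| + |Real.log (ν / N₁ ^ r)| with hB₁
  have hB₁0 : 0 ≤ B₁ := by positivity
  have hl9 : 0 ≤ Real.log 9 := Real.log_nonneg (by norm_num)
  have hlM : 0 ≤ Real.log (MM : ℝ) := Real.log_natCast_nonneg _
  set D' : ℝ := 2 * (Real.log (MM : ℝ) + 2 * ((r + 1 : ℕ) : ℝ) * B₁) + 1 + Real.log 9 with hD'
  have hD'0 : 0 < D' := by positivity
  have hD'9 : Real.log 9 ≤ D' := by
    have : 0 ≤ 2 * (Real.log (MM : ℝ) + 2 * ((r + 1 : ℕ) : ℝ) * B₁) := by positivity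
    linarith
  set S : Finset (Matrix (Fin (r + 1)) (Fin (r + 1)) ℝ ×
      ((Mon (r + 1) (r + 1) × Mon (r + 1) (r + 1)) × (Od (r + 1) → (Fin r → Fin (L + 1))))) :=
    t ×ˢ Finset.univ with hS
  set X₁ : ℝ := (S.card : ℝ) ^ (N + 1) * (2 * (4 * (r + 1) * r + 1) * (2 * N) ^ N) with hX₁
  have hX₁0 : 0 ≤ X₁ := by positivity
  set X₂ : ℝ := (MM : ℝ) ^ 2 + 1 with hX₂
  have hX₂0 : 0 < X₂ := by positivity
  refine ⟨D' * r, N₁, ((r + 1 : ℕ) : ℝ) * (G₀ * N₁) + 1, 1 / (X₁ + X₂), by positivity, hN₁0,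
    by positivity, by positivity, ?_⟩
  intro g hgV hnu hinv K
  have hg : g.det ≠ 0 := by
    intro h0
    rw [h0, abs_zero] at hgV
    exact hV.ne hgV
  set φ : (Fin r → Fin (K + 1)) → Fin (r + 1) → ℝ :=
    fun k => gpos D' (fun j => ((k j : ℕ) : ℝ)) with hφ
  have hφsum : ∀ k, ∑ i, φ k i = 0 := fun k => sum_gpos D' _
  have hφ1 : ∀ k, ∏ i, Real.exp (φ k i) = 1 := fun k => by
    rw [← Real.exp_sum, hφsum, Real.exp_zero]
  have hφb : ∀ k i, |φ k i| ≤ D' * r * K := by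
    intro k i
    refine gpos_abs_le hD'0.le hr _ (fun j => ⟨Nat.cast_nonneg _, ?_⟩) i
    exact_mod_cast Nat.lt_succ_iff.1 (k j).2
  have hpt : ∀ k, ∃ γ : Matrix (Fin (r + 1)) (Fin (r + 1)) ℤ, IsUnit γ.det ∧
      (∀ i j, |(diagonal (fun i => Real.exp (φ k i)) * g * zR γ) i j| ≤ Rp) ∧
      ∃ x ∈ t, diagonal (fun i => Real.exp (φ k i)) * g * zR γ ∈ W x := by
    intro k
    refine hcov _ ?_ ?_
    · rw [det_mul, det_diagonal, hφ1, one_mul]
      exact hgV
    · intro m hm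
      rw [FF_diag_mul, hφ1, one_mul]
      exact hnu m hm
  choose γ hγ hγR x hxt hxW using hpt
  set P : (Fin r → Fin (K + 1)) → (Fin r → Fin (L + 1)) → Fin (r + 1) → ℤ :=
    fun k l => γ k *ᵥ m (x k) l with hP
  have hP0 : ∀ k l, P k l ≠ 0 := by
    intro k l h0
    apply hm0 _ (hxt k) l
    have h2 : (γ k)⁻¹ *ᵥ (γ k *ᵥ m (x k) l) = m (x k) l := by
      rw [mulVec_mulVec, Matrix.nonsing_inv_mul _ (hγ k), one_mulVec]
    rw [← h2]
    simp only [hP] at h0
    rw [h0, mulVec_zero]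
  have hz : ∀ k l i, Real.exp (φ k i) * (g *ᵥ iR (P k l)) i =
      ((diagonal (fun i => Real.exp (φ k i)) * g * zR (γ k)) *ᵥ iR (m (x k) l)) i := by
    intro k l i
    rw [← mulVec_mulVec, zR_mulVec_iR, ← mulVec_mulVec, mulVec_diagonal]
  have hzN : ∀ k l i, |Real.exp (φ k i) * (g *ᵥ iR (P k l)) i| ≤ N₁ := by
    intro k l i
    rw [hz, mulVec, dotProduct]
    refine (Finset.abs_sum_le_sum_abs _ _).trans ?_
    have h2 : ∑ j, |(diagonal (fun i => Real.exp (φ k i)) * g * zR (γ k)) i j *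
        iR (m (x k) l) j| ≤ ∑ _j : Fin (r + 1), Rp * M := by
      refine Finset.sum_le_sum fun j _ => ?_
      rw [abs_mul]
      exact mul_le_mul (hγR k i j) (hmM _ (hxt k) l j) (abs_nonneg _) hRp
    refine h2.trans ?_
    rw [Finset.sum_const, Finset.card_univ, Fintype.card_fin, nsmul_eq_mul, hN₁]
    linarith
  have hlamν : ∀ k l, ν ≤ |FF g (iR (P k l))| := fun k l => hnu _ (hP0 k l)
  have hzb : ∀ k l i, (g *ᵥ iR (P k l)) i ≠ 0 ∧
      |Real.log (abs ((g *ᵥ iR (P k l)) i)) + φ k i| ≤ B₁ := by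
    intro k l
    refine log_bound hN₁0 hν (g *ᵥ iR (P k l)) (φ k) (hφsum k) (hzN k l) ?_
    rw [← FF_eq]
    exact hlamν k l
  have hzs : ∀ k l i, |(g *ᵥ iR (P k l)) i| ≤ N₁ * Real.exp (D' * r * K) := by
    intro k l i
    have h1 : |(g *ᵥ iR (P k l)) i| =
        |Real.exp (φ k i) * (g *ᵥ iR (P k l)) i| * Real.exp (-(φ k i)) := by
      rw [abs_mul, abs_of_pos (Real.exp_pos _), mul_right_comm, ← Real.exp_add, add_neg_cancel,
        Real.exp_zero, one_mul]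
    rw [h1]
    refine mul_le_mul (hzN k l i) ?_ (Real.exp_pos _).le hN₁0.le
    rw [Real.exp_le_exp]
    exact (neg_le_abs _).trans (hφb k i)
  have hPb : ∀ k l j, |(P k l j : ℝ)| ≤
      (((r + 1 : ℕ) : ℝ) * (G₀ * N₁) + 1) * Real.exp (D' * r * K) := by
    intro k l j
    have h1 : (P k l j : ℝ) = (g⁻¹ *ᵥ (g *ᵥ iR (P k l))) j := by
      rw [mulVec_mulVec, Matrix.nonsing_inv_mul _ (isUnit_iff_ne_zero.2 hg), one_mulVec]
      rfl
    rw [h1, mulVec, dotProduct]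
    refine (Finset.abs_sum_le_sum_abs _ _).trans ?_
    have h2 : ∑ i, |g⁻¹ j i * (g *ᵥ iR (P k l)) i| ≤
        ∑ _i : Fin (r + 1), G₀ * (N₁ * Real.exp (D' * r * K)) := by
      refine Finset.sum_le_sum fun i _ => ?_
      rw [abs_mul]
      exact mul_le_mul (hinv j i) (hzs k l i) (abs_nonneg _) hG₀
    refine h2.trans ?_
    rw [Finset.sum_const, Finset.card_univ, Fintype.card_fin, nsmul_eq_mul]
    have h3 : 0 < Real.exp (D' * r * K) := Real.exp_pos _
    nlinarith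
  set lam : (Fin r → Fin (K + 1)) → (Fin r → Fin (L + 1)) → ℝ :=
    fun k l => FF g (iR (P k l)) with hlam
  have hlamh : ∀ k l, lam k l =
      FF (diagonal (fun i => Real.exp (φ k i)) * g * zR (γ k)) (iR (m (x k) l)) :=
    fun k l => (FF_orb (hφ1 k) g (γ k) _).symm
  have hlamT : ∀ k l, |lam k l| < T := by
    intro k l
    rw [hlamh]
    exact hmT _ (hxt k) _ (hxW k) l
  by_cases hη : ∃ η : ℝ, ν / ((MM).factorial *
          (((((r + 1 : ℕ) : ℝ) * (G₀ * N₁) + 1) * Real.exp (D' * r * K)) ^ (r + 1)) ^ MM) ≤ η ∧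
          0 < η ∧ ∀ m : Fin (r + 1) → ℤ, ∃ z : ℤ, FF g (iR m) = η * z
  · exact Or.inl hη
  right
  have hform : ∀ l (v : ℝ), ν ≤ |v| → ∃ hc : Mon (r + 1) (r + 1) → ℝ, hc ≠ 0 ∧
      ∀ k ∈ Finset.univ.filter (fun k => lam k l = v),
        ∑ a, hc a * ∏ i, (g *ᵥ iR (P k l)) i ^ ex a i = 0 := by
    intro l v hv
    have hv0 : v ≠ 0 := by
      intro h0
      rw [h0, abs_zero] at hv
      linarith
    rcases veronese hg (Finset.univ.filter (fun k => lam k l = v)) (fun k => P k l) v hv0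
      (fun k hk => (Finset.mem_filter.1 hk).2)
      ((((r + 1 : ℕ) : ℝ) * (G₀ * N₁) + 1) * Real.exp (D' * r * K)) (fun k _ => hPb k l)
      with ⟨η, h1, h2, h3⟩ | h
    · exfalso
      refine hη ⟨η, le_trans ?_ h1, h2, h3⟩
      exact div_le_div_of_nonneg_right hv (by positivity)
    · exact h
  have hDMM : 2 * (Real.log (MM : ℝ) + 2 * ((r + 1 : ℕ) : ℝ) * B₁) < D' := by
    rw [hD']
    linarith
  have hlevel : ∀ l (v : ℝ), (Finset.univ.filter (fun k => lam k l = v)).card ≤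
      MM ^ 2 * (K + 1) ^ (r - 1) := by
    intro l v
    rcases (Finset.univ.filter (fun k => lam k l = v)).eq_empty_or_nonempty with h0 | ⟨k₀, hk₀⟩
    · rw [h0]
      simp
    · have hv : ν ≤ |v| := by
        rw [← (Finset.mem_filter.1 hk₀).2]
        exact hlamν k₀ l
      obtain ⟨hc, hc0, hck⟩ := hform l v hv
      exact level_card (n := r + 1) (ex (d := r + 1) (n := r + 1)) ex_injective sum_ex hc hc0 K D' B₁
        hD'0 hDMM _ (fun k => g *ᵥ iR (P k l)) (fun k _ i => (hzb k l i).1) hck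
        (fun k _ i => (hzb k l i).2)
  have hnear : ∀ l (v : ℝ), ∃ τ : Mon (r + 1) (r + 1) × Mon (r + 1) (r + 1) → ℝ, ∀ k,
      lam k l = v → ∃ ab : Mon (r + 1) (r + 1) × Mon (r + 1) (r + 1), ab.1 ≠ ab.2 ∧
      |∑ j, (cc ex ab j : ℝ) * ((k j : ℕ) : ℝ) - τ ab| < 1 / 2 := by
    intro l v
    by_cases hv : ν ≤ |v|
    · obtain ⟨hc, hc0, hck⟩ := hform l v hv
      obtain ⟨τ, hτ⟩ := level_near (n := r + 1) (ex (d := r + 1) (n := r + 1)) sum_ex hc hc0 K D' B₁
        hD'0 hDMM _ (fun k => g *ᵥ iR (P k l)) (fun k _ i => (hzb k l i).1) hck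
        (fun k _ i => (hzb k l i).2)
      exact ⟨τ, fun k hk => hτ k (Finset.mem_filter.2 ⟨Finset.mem_univ _, hk⟩)⟩
    · refine ⟨fun _ => 0, fun k hk => absurd ?_ hv⟩
      rw [← hk]
      exact hlamν k l
  choose τ hτ using hnear
  have hτ' : ∀ l k, ∃ ab : Mon (r + 1) (r + 1) × Mon (r + 1) (r + 1), ab.1 ≠ ab.2 ∧
      |∑ j, (cc ex ab j : ℝ) * ((k j : ℕ) : ℝ) - τ l (lam k l) ab| < 1 / 2 :=
    fun l k => hτ l _ k rfl
  choose χ hχ1 hχ2 using hτ'
  have hcol' : ∀ k, _ := fun k => hcol (x k) (hxt k) (fun l => χ l k)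
  choose ω q hωq hdt using hcol'
  -- the values
  set E : Finset ℝ := (Finset.univ : Finset ((Fin r → Fin (K + 1)) × (Fin r → Fin (L + 1)))).image
    (fun kl => lam kl.1 kl.2) with hE
  have hEmem : ∀ k l, lam k l ∈ E := fun k l =>
    Finset.mem_image.2 ⟨(k, l), Finset.mem_univ _, rfl⟩
  have hcardu : (Finset.univ : Finset (Fin r → Fin (K + 1))).card = (K + 1) ^ r := by
    rw [Finset.card_univ, Fintype.card_fun, Fintype.card_fin, Fintype.card_fin]
  have hpr : (K + 1) ^ r = (K + 1) * (K + 1) ^ (r - 1) := by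
    rw [← pow_succ']
    congr 1
    omega
  have hbasic : (K + 1) ≤ MM ^ 2 * E.card := by
    have h1 := Finset.card_le_mul_card_image (f := fun k => lam k (fun _ => 0))
      (Finset.univ : Finset (Fin r → Fin (K + 1))) (MM ^ 2 * (K + 1) ^ (r - 1))
      (fun v _ => hlevel _ v)
    rw [hcardu, hpr] at h1
    have h2 : ((Finset.univ : Finset (Fin r → Fin (K + 1))).image
        (fun k => lam k (fun _ => 0))).card ≤ E.card := by
      refine Finset.card_le_card fun v hv => ?_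
      obtain ⟨k, -, rfl⟩ := Finset.mem_image.1 hv
      exact hEmem _ _
    have h3 : (K + 1) * (K + 1) ^ (r - 1) ≤ MM ^ 2 * E.card * (K + 1) ^ (r - 1) :=
      calc (K + 1) * (K + 1) ^ (r - 1) ≤ MM ^ 2 * (K + 1) ^ (r - 1) * _ := h1
        _ ≤ MM ^ 2 * (K + 1) ^ (r - 1) * E.card := Nat.mul_le_mul_left _ h2
        _ = _ := by ring
    exact Nat.le_of_mul_le_mul_right h3 (by positivity)
  -- the classes
  have hSmem : ∀ k, (x k, (ω k, q k)) ∈ S := fun k =>
    Finset.mem_product.2 ⟨hxt k, Finset.mem_univ _⟩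
  have hSne : S.Nonempty := ⟨_, hSmem (fun _ => 0)⟩
  have hS0 : (0 : ℝ) < S.card := by exact_mod_cast hSne.card_pos
  obtain ⟨s, hs, hfib⟩ := Finset.exists_le_card_fiber_of_nsmul_le_card_of_maps_to
    (s := (Finset.univ : Finset (Fin r → Fin (K + 1)))) (t := S) (f := fun k => (x k, (ω k, q k)))
    (b := ((K : ℝ) + 1) ^ r / S.card)
    (fun z _ => hSmem z) hSne (by
      rw [nsmul_eq_mul, mul_div_cancel₀ _ hS0.ne', hcardu]
      push_cast
      exact le_refl _)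
  set G := Finset.univ.filter fun k => (x k, (ω k, q k)) = s with hG
  have hGpos : (0 : ℝ) < (G.card : ℕ) := lt_of_lt_of_le (by positivity) hfib
  have hGne : G.Nonempty := Finset.card_pos.1 (by exact_mod_cast hGpos)
  have hGx : ∀ k ∈ G, x k = s.1 ∧ ω k = s.2.1 ∧ q k = s.2.2 := by
    intro k hk
    have h1 := (Finset.mem_filter.1 hk).2
    rw [← h1]
    exact ⟨rfl, rfl, rfl⟩
  set u : (Fin r → Fin (K + 1)) → ℤ := fun k => ∑ j, cc ex s.2.1 j * ((k j : ℕ) : ℤ) with hu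
  have huR : ∀ k, (u k : ℝ) = ∑ j, (cc ex s.2.1 j : ℝ) * ((k j : ℕ) : ℝ) := by
    intro k
    simp only [hu]
    push_cast
    rfl
  obtain ⟨z₀, hz₀, hz₀max⟩ := Finset.exists_max_image G
    (fun k₀ => (G.filter fun k => ∀ p, lam k (s.2.2 p) = lam k₀ (s.2.2 p)).card) hGne
  set Z := G.filter fun k => ∀ p, lam k (s.2.2 p) = lam z₀ (s.2.2 p) with hZ
  -- a pair exists
  have hOd : Nonempty (Od (r + 1)) := by
    refine ⟨⟨(⟨0, by omega⟩, ⟨1, by omega⟩), ?_⟩⟩
    intro h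
    have := congrArg Fin.val h
    simp at this
  obtain ⟨p₀⟩ := hOd
  have hs21 : s.2.1.1 ≠ s.2.1.2 := by
    obtain ⟨h1, h2, h3⟩ := hGx z₀ hz₀
    have h4 := hωq z₀ p₀
    rw [← h2, ← h4]
    exact hχ1 _ _
  have hcomb := comb G u (fun (p : Od (r + 1)) k => lam k (s.2.2 p)) E
    (fun k _ p => hEmem _ _)
    (fun p k hk k' hk' hkk => by
      obtain ⟨-, h2, h3⟩ := hGx k hk
      obtain ⟨-, h2', h3'⟩ := hGx k' hk'
      have e1 := hχ2 (s.2.2 p) k
      have e2 := hχ2 (s.2.2 p) k'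
      have e3 : χ (s.2.2 p) k = s.2.1 := by rw [← h3, ← h2]; exact hωq k p
      have e4 : χ (s.2.2 p) k' = s.2.1 := by rw [← h3', ← h2']; exact hωq k' p
      rw [e3, ← huR] at e1
      rw [e4, ← huR, ← hkk] at e2
      have e5 : |((u k - u k' : ℤ) : ℝ)| < 1 := by
        push_cast
        have h5 := abs_sub ((u k : ℝ) - τ (s.2.2 p) (lam k (s.2.2 p)) s.2.1)
          ((u k' : ℝ) - τ (s.2.2 p) (lam k (s.2.2 p)) s.2.1)
        rw [sub_sub_sub_cancel_right] at h5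
        linarith
      have e6 : |u k - u k'| < 1 := by exact_mod_cast e5
      have e7 := Int.abs_lt_one_iff.1 e6
      omega)
    Z.card ((4 * (r + 1) * r + 1) * (K + 1)) ((K + 1) ^ (r - 1))
    (fun k₀ hk₀ => hz₀max k₀ hk₀)
    (by
      have h1 : G.image u ⊆ Finset.Icc (-((2 * (r + 1) * r * K : ℕ) : ℤ))
          ((2 * (r + 1) * r * K : ℕ) : ℤ) := by
        intro v hv
        obtain ⟨k, -, rfl⟩ := Finset.mem_image.1 hv
        rw [Finset.mem_Icc, ← abs_le]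
        simp only [hu]
        refine (Finset.abs_sum_le_sum_abs _ _).trans ?_
        have h2 : ∑ j, |cc (ex (d := r + 1) (n := r + 1)) s.2.1 j * ((k j : ℕ) : ℤ)| ≤
            ∑ _j : Fin r, (2 * ((r + 1 : ℕ) : ℤ)) * K := by
          refine Finset.sum_le_sum fun j _ => ?_
          rw [abs_mul]
          refine mul_le_mul (cc_abs_le sum_ex _ _) ?_ (abs_nonneg _) (by positivity)
          rw [abs_of_nonneg (Int.natCast_nonneg _)]
          exact_mod_cast Nat.lt_succ_iff.1 (k j).2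
        refine h2.trans (le_of_eq ?_)
        rw [Finset.sum_const, Finset.card_univ, Fintype.card_fin, nsmul_eq_mul]
        push_cast
        ring
      refine (Finset.card_le_card h1).trans ?_
      rw [Int.card_Icc]
      have h3 : ((2 * (r + 1) * r * K : ℕ) : ℤ) + 1 - -((2 * (r + 1) * r * K : ℕ) : ℤ) =
          ((4 * (r + 1) * r * K + 1 : ℕ) : ℤ) := by
        push_cast
        ring
      rw [h3, Int.toNat_natCast]
      nlinarith)
    (fun v => card_hyperplane K (cc ex s.2.1) (cc_ne_zero ex_injective sum_ex hs21) (v : ℝ) _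
      (fun k hk => by
        have h1 := (Finset.mem_filter.1 hk).2
        rw [← huR, h1, sub_self, abs_zero]
        norm_num))
  -- the automorphs
  have haut : ∀ k ∈ Z, ∃ b : Fin (r + 1) → ℝ, (∀ i, 1 / 3 < b i ∧ b i < 3) ∧
      diagonal (fun i => Real.exp (φ k i)) * g * zR (γ k) =
        diagonal b * (diagonal (fun i => Real.exp (φ z₀ i)) * g * zR (γ z₀)) := by
    intro k hk
    have hkG := (Finset.mem_filter.1 hk).1
    have hkv := (Finset.mem_filter.1 hk).2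
    obtain ⟨a1, a2, a3⟩ := hGx z₀ hz₀
    obtain ⟨b1, b2, b3⟩ := hGx k hkG
    have hdetk : ∀ k, |(diagonal (fun i => Real.exp (φ k i)) * g * zR (γ k)).det| = V := by
      intro k
      rw [det_mul, det_mul, det_diagonal, hφ1, one_mul, abs_mul, det_zR,
        abs_det_of_isUnit (hγ k), mul_one]
      exact hgV
    refine hdt z₀ _ (hxW z₀) _ (by rw [a1, ← b1]; exact hxW k) (by rw [hdetk, hdetk]) (fun p => ?_)
    have h1 := hkv p
    rw [hlamh, hlamh, b1] at h1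
    rw [a3, ← h1, a1]
  choose! b hb hbe using haut
  set cf : (Fin r → Fin (K + 1)) → Fin (r + 1) → ℝ :=
    fun k i => b k i * Real.exp (φ z₀ i - φ k i) with hcf
  have hlb : ∀ z ∈ Z, ∀ i, |Real.log (b z i)| < Real.log 3 := by
    intro z hz i
    have h1 := hb z hz i
    have h0 : 0 < b z i := by linarith
    rw [abs_lt]
    constructor
    · rw [← Real.log_inv]
      exact Real.log_lt_log (by norm_num) (by rw [← one_div]; exact h1.1)
    · exact Real.log_lt_log h0 h1.2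
  have hinj : Set.InjOn cf (Z : Set (Fin r → Fin (K + 1))) := by
    intro z hz z' hz' heq
    by_contra hne
    obtain ⟨j, hj⟩ := Function.ne_iff.1 hne
    have h1 := congrFun heq j.castSucc
    simp only [hcf] at h1
    have hbz := hb z hz j.castSucc
    have hbz' := hb z' hz' j.castSucc
    have h2 := congrArg Real.log h1
    rw [Real.log_mul (by linarith) (Real.exp_pos _).ne', Real.log_mul (by linarith)
      (Real.exp_pos _).ne', Real.log_exp, Real.log_exp] at h2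
    have h3 : φ z j.castSucc - φ z' j.castSucc =
        Real.log (b z j.castSucc) - Real.log (b z' j.castSucc) := by linarith
    have h4 := abs_sub (Real.log (b z j.castSucc)) (Real.log (b z' j.castSucc))
    have h5 := hlb z hz j.castSucc
    have h6 := hlb z' hz' j.castSucc
    have hl3 : Real.log 9 = 2 * Real.log 3 := by
      rw [show (9 : ℝ) = 3 ^ 2 by norm_num, Real.log_pow]
      norm_num
    have h7 : φ z j.castSucc - φ z' j.castSucc =
        D' * ((((z j : ℕ) : ℤ) - ((z' j : ℕ) : ℤ) : ℤ) : ℝ) := by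
      simp only [hφ, gpos, Fin.snoc_castSucc]
      push_cast
      ring
    have h8 : (1 : ℝ) ≤ |((((z j : ℕ) : ℤ) - ((z' j : ℕ) : ℤ) : ℤ) : ℝ)| := by
      have h9 : ((z j : ℕ) : ℤ) - ((z' j : ℕ) : ℤ) ≠ 0 := by
        intro h0
        apply hj
        exact Fin.ext (by omega)
      have h10 := Int.one_le_abs h9
      exact_mod_cast h10
    have h11 : D' ≤ |φ z j.castSucc - φ z' j.castSucc| := by
      rw [h7, abs_mul, abs_of_pos hD'0]
      nlinarith
    rw [h3] at h11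
    linarith
  refine ⟨E, Z.image cf, fun v hv => ?_, fun c hc => ?_, ?_, ?_, fun m' hm' => ?_⟩
  · obtain ⟨⟨k, l⟩, -, rfl⟩ := Finset.mem_image.1 hv
    exact ⟨hlamT k l, P k l, hP0 k l, hzs k l, rfl⟩
  · obtain ⟨k, hk, rfl⟩ := Finset.mem_image.1 hc
    refine ⟨fun i => ?_, γ k * (γ z₀)⁻¹, ?_, rel_of_state (hγ z₀) (hbe k hk)⟩
    · have h1 := hb k hk i
      have h0 : 0 < b k i := by linarith
      have h2 : |φ z₀ i - φ k i| ≤ 2 * (D' * r * K) := by
        refine (abs_sub _ _).trans ?_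
        linarith [hφb z₀ i, hφb k i]
      refine ⟨mul_pos h0 (Real.exp_pos _), ?_, ?_⟩
      · refine mul_le_mul h1.2.le ?_ (Real.exp_pos _).le (by norm_num)
        exact Real.exp_le_exp.2 (le_trans (le_abs_self _) h2)
      · have h3 : (b k i)⁻¹ ≤ 3 := by
          rw [inv_le_comm₀ h0 (by norm_num)]
          linarith
        simp only [hcf]
        rw [mul_inv, ← Real.exp_neg]
        refine mul_le_mul h3 ?_ (Real.exp_pos _).le (by norm_num)
        exact Real.exp_le_exp.2 (le_trans (neg_le_abs _) h2)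
    · rw [det_mul]
      refine (hγ k).mul ?_
      rw [Matrix.det_nonsing_inv]
      exact (hγ z₀).ringInverse
  · have h1 : ((K : ℝ) + 1) ≤ (MM : ℝ) ^ 2 * E.card := by exact_mod_cast hbasic
    have h2 : (MM : ℝ) ^ 2 * E.card ≤ (X₁ + X₂) * E.card :=
      mul_le_mul_of_nonneg_right (by rw [hX₂]; linarith) (Nat.cast_nonneg _)
    rw [one_div, inv_mul_le_iff₀ (by positivity)]
    linarith
  · rw [Finset.card_image_of_injOn hinj, one_div, inv_mul_le_iff₀ (by positivity)]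
    have hK0 : (0 : ℝ) < (K : ℝ) + 1 := by positivity
    have h1 : (((K : ℝ) + 1) ^ r / S.card) ^ (N + 1) ≤ (G.card : ℝ) ^ (N + 1) :=
      pow_le_pow_left₀ (by positivity) hfib _
    have h2 := h1.trans hcomb
    rw [div_pow, div_le_iff₀ (by positivity)] at h2
    push_cast at h2
    rw [← hN] at h2
    have h3 : (((K : ℝ) + 1) ^ r) ^ (N + 1) =
        ((K : ℝ) + 1) ^ (N + r - 1) * (((K : ℝ) + 1) * (((K : ℝ) + 1) ^ (r - 1)) ^ N) := by
      rw [← pow_mul, ← pow_mul, ← pow_succ', ← pow_add]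
      congr 1
      obtain ⟨r', rfl⟩ : ∃ r', r = r' + 1 := ⟨r - 1, by omega⟩
      simp only [Nat.add_sub_cancel]
      have : N + (r' + 1) - 1 = N + r' := by omega
      rw [this]
      ring
    have h4 : 2 * ((4 * ((r : ℝ) + 1) * r + 1) * ((K : ℝ) + 1)) * Z.card *
        (2 * ((K : ℝ) + 1) ^ (r - 1) * N * E.card) ^ N * (S.card : ℝ) ^ (N + 1) =
        (X₁ * (Z.card * (E.card : ℝ) ^ N)) * (((K : ℝ) + 1) * (((K : ℝ) + 1) ^ (r - 1)) ^ N) := by
      rw [hX₁]
      ring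
    rw [h3, h4] at h2
    have h6 : (0 : ℝ) < ((K : ℝ) + 1) * (((K : ℝ) + 1) ^ (r - 1)) ^ N :=
      mul_pos hK0 (pow_pos (pow_pos hK0 _) _)
    have h5 := le_of_mul_le_mul_right h2 h6
    refine h5.trans ?_
    have h7 : X₁ ≤ X₁ + X₂ := le_add_of_nonneg_right hX₂0.le
    exact mul_le_mul_of_nonneg_right h7
      (mul_nonneg (Nat.cast_nonneg _) (pow_nonneg (Nat.cast_nonneg _) _))
  · rw [Finset.card_image_of_injOn hinj]
    exact degenerate_card hr hD'9 z₀ Z b hb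
      (fun k hk => hm' (cf k) (Finset.mem_image_of_mem _ hk))

end Pool.Agent.N759.FV
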