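import Mathlib
import Pool.Agent.N759.FV.Grid
import Pool.Agent.N759.FV.Auto
import Pool.Agent.N759.UC.FewQ

/-! # Many small values, if the form is not proportional to an integral form -/

open Filter Topology Matrix H715R2

namespace Pool.Agent.N759.FV

open Pool.Agent.W777.FV Pool.Agent.N759.UC

/-- a small automorph with different eigenvalues gives a denominator -/
lemma eta_of_automorph {d : ℕ} {g : Matrix (Fin d) (Fin d) ℝ} {A : Matrix (Fin d) (Fin d) ℤ}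
    {c : Fin d → ℝ} (hrel : g * zR A = diagonal c * g) (hc : Function.Injective c) {B x : ℝ}
    (hcB : ∀ i, 0 < c i ∧ c i ≤ B) (hB : B ^ (d * (d - 1) / 2) ≤ |g.det| * Real.exp x) :
    ∃ η : ℝ, Real.exp (-x) ≤ η ∧ ∀ p : Fin d → ℤ, ∃ z : ℤ, FF g (iR p) = η * z := by
  have hvand : (Matrix.vandermonde c).det ≠ 0 := Matrix.det_vandermonde_ne_zero_iff.2 hc
  have hvb : |(Matrix.vandermonde c).det| ≤ B ^ (d * (d - 1) / 2) := vandermonde_bound hcB
  refine ⟨|g.det| / |(Matrix.vandermonde c).det|, ?_, fun p => ?_⟩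
  · rw [le_div_iff₀ (abs_pos.2 hvand), Real.exp_neg, inv_mul_le_iff₀ (Real.exp_pos _), mul_comm]
    exact hvb.trans hB
  · have h1 := values_multiple hrel p
    set k : ℤ := (Matrix.of fun i (s : Fin d) => ((A ^ (s : ℕ)) *ᵥ p) i : Matrix _ _ ℤ).det with hk
    have h2 : FF g (iR p) = g.det / (Matrix.vandermonde c).det * k := by
      rw [div_mul_eq_mul_div, eq_div_iff hvand]
      exact h1
    rw [h2, ← abs_div]
    rcases abs_choice (g.det / (Matrix.vandermonde c).det) with h3 | h3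
    · exact ⟨k, by rw [h3]⟩
    · exact ⟨-k, by rw [h3]; push_cast; ring⟩

/-- conjugating back -/
lemma conj_back {d : ℕ} {g : Matrix (Fin d) (Fin d) ℝ} {a c : Fin d → ℝ}
    {γ δ : Matrix (Fin d) (Fin d) ℤ} (ha0 : ∀ i, 0 < a i) (hγ : IsUnit γ.det)
    (hrel : (diagonal a * g * zR γ) * zR δ = diagonal c * (diagonal a * g * zR γ)) :
    g * zR (γ * δ * γ⁻¹) = diagonal c * g := by
  set g' := diagonal a * g * zR γ with hg'
  have h1 : diagonal (fun i => (a i)⁻¹) * diagonal a = (1 : Matrix (Fin d) (Fin d) ℝ) := by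
    rw [diagonal_mul_diagonal, ← diagonal_one]
    congr 1
    funext i
    exact inv_mul_cancel₀ (ha0 i).ne'
  have h2 : g = diagonal (fun i => (a i)⁻¹) * g' * zR γ⁻¹ := by
    rw [hg', Matrix.mul_assoc, Matrix.mul_assoc (diagonal a * g), zR_inv hγ, Matrix.mul_one,
      ← Matrix.mul_assoc, h1, Matrix.one_mul]
  calc g * zR (γ * δ * γ⁻¹)
      = diagonal (fun i => (a i)⁻¹) * g' * (zR γ⁻¹ * zR γ) * zR δ * zR γ⁻¹ := by
        conv_lhs => rw [h2]
        rw [zR_mul, zR_mul]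
        simp only [Matrix.mul_assoc]
    _ = diagonal (fun i => (a i)⁻¹) * (g' * zR δ) * zR γ⁻¹ := by
        rw [zR_inv' hγ, Matrix.mul_one, Matrix.mul_assoc (diagonal fun i => (a i)⁻¹)]
    _ = diagonal c * (diagonal (fun i => (a i)⁻¹) * g' * zR γ⁻¹) := by
        rw [hrel]
        simp only [← Matrix.mul_assoc, diagonal_mul_diagonal]
        congr 3
        funext i
        ring
    _ = diagonal c * g := by rw [← h2]

/-- the determinant of an automorph is one if the factors are positive -/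
lemma det_eq_one {d : ℕ} {g : Matrix (Fin d) (Fin d) ℝ} {A : Matrix (Fin d) (Fin d) ℤ}
    {c : Fin d → ℝ} (hg : g.det ≠ 0) (hA : IsUnit A.det) (hrel : g * zR A = diagonal c * g)
    (hc : ∀ i, 0 < c i) : A.det = 1 := by
  have h1 := congrArg Matrix.det hrel
  rw [det_mul, det_mul, det_diagonal, det_zR, mul_comm] at h1
  have h2 := mul_right_cancel₀ hg h1
  have h3 : 0 < ∏ i, c i := Finset.prod_pos fun i _ => hc i
  rw [← h2] at h3
  have h4 : 0 < A.det := by exact_mod_cast h3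
  rcases Int.isUnit_iff.1 hA with h5 | h5
  · exact h5
  · omega

theorem many_values {r : ℕ} (hr : 0 < r) {V ν T : ℝ} (hV : 0 < V) (hν : 0 < ν)
    (hT : ((r + 1).factorial : ℝ) * V < ((r + 1 : ℕ) : ℝ) ^ (r + 1) * T ∨
      ∀ h : Matrix (Fin (r + 1)) (Fin (r + 1)) ℝ, |h.det| = V →
        ∃ m : Fin (r + 1) → ℤ, m ≠ 0 ∧ |FF h (iR m)| < T) :
    ∃ κ : ℝ, 0 < κ ∧ ∃ x₀ : ℝ, ∀ g : Matrix (Fin (r + 1)) (Fin (r + 1)) ℝ, |g.det| = V →
      HasNu g ν → ∀ x : ℝ, x₀ ≤ x →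
      (∃ η : ℝ, Real.exp (-x) ≤ η ∧ ∀ m : Fin (r + 1) → ℤ, ∃ z : ℤ, FF g (iR m) = η * z) ∨
      ∀ a : Fin (r + 1) → ℝ, (∀ i, 0 < a i) → ∏ i, a i = 1 →
        ∃ E : Finset ℝ,
          (∀ t ∈ E, ∃ p : Fin (r + 1) → ℤ, p ≠ 0 ∧ (∀ i, |a i * (g *ᵥ iR p) i| ≤ Real.exp x) ∧
            |FF g (iR p)| = t ∧ t < T) ∧
          κ * x ^ (Fintype.card (Od (r + 1)) + r - (r + 1) / (r + 1).minFac) ≤
            (E.card : ℝ) ^ Fintype.card (Od (r + 1)) := by
  classical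
  have hd0 : 0 < r + 1 := Nat.succ_pos r
  have hT' : ∀ h : Matrix (Fin (r + 1)) (Fin (r + 1)) ℝ, |h.det| = V →
      ∃ m : Fin (r + 1) → ℤ, m ≠ 0 ∧ |FF h (iR m)| < T := by
    rcases hT with hT | hT
    · exact fun h hh => mink_prod hd0 V T hV hT h hh
    · exact hT
  obtain ⟨R, hR⟩ := exists_bound hd0 V ν hV hν
  set R1 : ℝ := max R 1 with hR1
  set G₀ : ℝ := V⁻¹ * ((r + 1).factorial * R1 ^ (r + 1)) with hG₀
  have hR11 : 1 ≤ R1 := le_max_right _ _
  have hG₀0 : 0 ≤ G₀ := by positivity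
  obtain ⟨D₁, N₁, P₁, κ₀, hD₁, hN₁, hP₁, hκ₀, hgrid⟩ := grid hr hV hν hT' hG₀0
  set MM : ℕ := Fintype.card (Mon (r + 1) (r + 1)) with hMM
  set N : ℕ := Fintype.card (Od (r + 1)) with hN
  set e : ℕ := (r + 1) * (r + 1 - 1) / 2 with he
  set Γ : ℝ := (((r + 1) * MM + 2 * e + 2 : ℕ) : ℝ) with hΓ
  have hΓ0 : 0 < Γ := by
    rw [hΓ]
    exact_mod_cast Nat.succ_pos _
  set ε : ℝ := 1 / (2 * (D₁ + 1) * Γ) with hε
  have hε0 : 0 < ε := by positivity
  set Q₀ : ℝ := N₁ + (MM.factorial * (P₁ ^ (r + 1)) ^ MM) / ν + 3 + 3 ^ e / V + 1 with hQ₀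
  have q1 : 0 ≤ (MM.factorial * (P₁ ^ (r + 1)) ^ MM) / ν := by positivity
  have q2 : 0 ≤ (3 : ℝ) ^ e / V := by positivity
  have hQ1 : 1 ≤ Q₀ := by linarith
  set m' : ℕ := (r + 1) / (r + 1).minFac with hm'
  have hm'1 : 1 ≤ m' := div_minFac_pos hd0
  have hm'2 : m' ≤ r + 1 := Nat.div_le_self _ _
  have hN1 : 1 ≤ N := by
    rw [hN, card_Od, pow_two]
    have : (r + 1) * 2 ≤ (r + 1) * (r + 1) := Nat.mul_le_mul_left _ (by omega)
    omega
  set Y : ℝ := (m' : ℝ) ^ (r + 1) * (2 * r + 1) ^ (m' - 1) with hY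
  have hm'0 : (0 : ℝ) < m' := by exact_mod_cast hm'1
  have hY0 : 0 < Y := by positivity
  refine ⟨κ₀ * ε ^ (N + r - m') / (Y * 2 ^ N), by positivity, 2 * Real.log Q₀, ?_⟩
  intro g hgV hnu x hx
  have hg : g.det ≠ 0 := by
    intro h0
    rw [h0, abs_zero] at hgV
    exact hV.ne hgV
  have hlogQ : 0 ≤ Real.log Q₀ := Real.log_nonneg hQ1
  have hx0 : 0 ≤ x := le_trans (by positivity) hx
  have hQx : Q₀ ≤ Real.exp (x / 2) := by
    rw [← Real.exp_log (by linarith : 0 < Q₀), Real.exp_le_exp]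
    linarith
  have hexpx : Real.exp x = Real.exp (x / 2) * Real.exp (x / 2) := by
    rw [← Real.exp_add]; congr 1; ring
  by_cases hη : ∃ η : ℝ, Real.exp (-x) ≤ η ∧ ∀ m : Fin (r + 1) → ℤ, ∃ z : ℤ,
      FF g (iR m) = η * z
  · exact Or.inl hη
  right
  intro a ha0 ha1
  set K : ℕ := ⌊ε * x⌋₊ with hK
  have hK1 : (K : ℝ) ≤ ε * x := Nat.floor_le (by positivity)
  have hK2 : ε * x ≤ (K : ℝ) + 1 := (Nat.lt_floor_add_one _).le
  have hDK0 : 0 ≤ D₁ * K := by positivity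
  have hDK : D₁ * K * Γ ≤ x / 2 := by
    have h1 : (D₁ + 1) * K * Γ ≤ (D₁ + 1) * (ε * x) * Γ :=
      mul_le_mul_of_nonneg_right (mul_le_mul_of_nonneg_left hK1 (by linarith)) hΓ0.le
    have h2 : (D₁ + 1) * (ε * x) * Γ = x / 2 := by
      rw [hε]
      field_simp
    have h3 : 0 ≤ (K : ℝ) * Γ := by positivity
    nlinarith
  have hmul : ∀ n : ℕ, n ≤ (r + 1) * MM + 2 * e + 2 → Real.exp (n * (D₁ * K)) ≤ Real.exp (x / 2) := by
    intro n hn
    rw [Real.exp_le_exp]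
    have h1 : (n : ℝ) ≤ Γ := by
      rw [hΓ]
      exact_mod_cast hn
    calc (n : ℝ) * (D₁ * K) ≤ Γ * (D₁ * K) := mul_le_mul_of_nonneg_right h1 hDK0
      _ = D₁ * K * Γ := by ring
      _ ≤ x / 2 := hDK
  have hmul1 : Real.exp (D₁ * K) ≤ Real.exp (x / 2) := by
    have := hmul 1 (by omega)
    simpa using this
  have hmul2 : Real.exp (2 * (D₁ * K)) ≤ Real.exp (x / 2) := by
    have := hmul 2 (by omega)
    simpa using this
  -- reduction
  have hag : |(diagonal a * g).det| = V := by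
    rw [Matrix.det_mul, Matrix.det_diagonal, ha1, one_mul]
    exact hgV
  have hagnu : HasNu (diagonal a * g) ν := fun m hm => by
    rw [FF_diag_mul, ha1, one_mul]
    exact hnu m hm
  obtain ⟨γ, hγ, hγR⟩ := hR _ hag hagnu
  set g' : Matrix (Fin (r + 1)) (Fin (r + 1)) ℝ := diagonal a * g * zR γ with hg'
  have horb : g' ∈ Orb g := ⟨a, γ, ha0, ha1, hγ, rfl⟩
  have hg'V : |g'.det| = V := (abs_det_orb horb).trans hgV
  have hg'nu : HasNu g' ν := hasNu_orb hnu horb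
  have hg'inv : ∀ i j, |g'⁻¹ i j| ≤ G₀ := by
    intro i j
    have h1 := Pool.Agent.N759.NV.inv_bound g' hγR i j
    rw [hg'V] at h1
    exact h1
  have hFF : ∀ p : Fin (r + 1) → ℤ, FF g' (iR p) = FF g (iR (γ *ᵥ p)) := fun p => by
    rw [hg', FF_orb ha1]
  rcases hgrid g' hg'V hg'nu hg'inv K with ⟨η, h1, h2, h3⟩ | ⟨E, C, hE, hC, -, hCE, hCm⟩
  · exfalso
    refine hη ⟨η, le_trans ?_ h1, fun m => ?_⟩
    · rw [le_div_iff₀ (by positivity), Real.exp_neg, inv_mul_le_iff₀ (Real.exp_pos _)]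
      have h4 : ((P₁ * Real.exp (D₁ * K)) ^ (r + 1)) ^ MM =
          (P₁ ^ (r + 1)) ^ MM * Real.exp (((r + 1) * MM : ℕ) * (D₁ * K)) := by
        rw [Real.exp_nat_mul, mul_pow, mul_pow, ← pow_mul (Real.exp (D₁ * K))]
      rw [h4, ← mul_assoc, hexpx]
      have h5 : (MM.factorial : ℝ) * (P₁ ^ (r + 1)) ^ MM ≤ Real.exp (x / 2) * ν := by
        have h6 : ((MM.factorial : ℝ) * (P₁ ^ (r + 1)) ^ MM) / ν ≤ Real.exp (x / 2) := by
          linarith
        rwa [div_le_iff₀ hν] at h6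
      calc (MM.factorial : ℝ) * (P₁ ^ (r + 1)) ^ MM * Real.exp (((r + 1) * MM : ℕ) * (D₁ * K))
          ≤ (Real.exp (x / 2) * ν) * Real.exp (x / 2) :=
            mul_le_mul h5 (hmul _ (by omega)) (Real.exp_pos _).le
              (mul_nonneg (Real.exp_pos _).le hν.le)
        _ = _ := by ring
    · obtain ⟨z, hz⟩ := h3 (γ⁻¹ *ᵥ m)
      refine ⟨z, ?_⟩
      rw [← hz, hFF, mulVec_mulVec, Matrix.mul_nonsing_inv _ hγ, one_mulVec]
  -- bounds
  have h3x : 3 * Real.exp (2 * (D₁ * K)) ≤ Real.exp x := by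
    rw [hexpx]
    exact mul_le_mul (by linarith) hmul2 (Real.exp_pos _).le (Real.exp_pos _).le
  have hCg : ∀ c ∈ C, (∀ i, 0 < c i) ∧ (∀ i, c i ≤ 3 * Real.exp (2 * (D₁ * K))) ∧
      (∀ i, Real.exp (-x) ≤ c i) ∧
      ∃ M : Matrix (Fin (r + 1)) (Fin (r + 1)) ℤ, M.det = 1 ∧ g * zR M = diagonal c * g := by
    intro c hc
    obtain ⟨hcb, δ, hδ, hrel⟩ := hC c hc
    have hrel' := conj_back ha0 hγ hrel
    refine ⟨fun i => (hcb i).1, fun i => (hcb i).2.1, fun i => ?_, γ * δ * γ⁻¹, ?_, hrel'⟩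
    · rw [Real.exp_neg, inv_le_comm₀ (Real.exp_pos _) (hcb i).1]
      exact (hcb i).2.2.trans h3x
    · refine det_eq_one hg ?_ hrel' (fun i => (hcb i).1)
      rw [det_mul, det_mul]
      refine (hγ.mul hδ).mul ?_
      rw [Matrix.det_nonsing_inv]
      exact hγ.ringInverse
  set E' : Finset ℝ := E.image fun t => |t| with hE'
  have hcard : E.card ≤ 2 * E'.card := by
    have h1 : E ⊆ E' ∪ E'.image fun t => -t := by
      intro t ht
      rw [Finset.mem_union]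
      have h2 : |t| ∈ E' := Finset.mem_image_of_mem _ ht
      rcases abs_choice t with h3 | h3
      · left; rwa [h3] at h2
      · right
        refine Finset.mem_image.2 ⟨|t|, h2, ?_⟩
        rw [h3, neg_neg]
    refine (Finset.card_le_card h1).trans ((Finset.card_union_le _ _).trans ?_)
    have h2 := Finset.card_image_le (s := E') (f := fun t => -t)
    omega
  have hcardR : (E.card : ℝ) ≤ 2 * E'.card := by exact_mod_cast hcard
  have hCimg : ∀ c ∈ C, (Finset.univ.image c).card ≤ m' := by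
    intro c hc
    obtain ⟨h1, h2, h3, M, hM1, hrel⟩ := hCg c hc
    obtain ⟨D, hDd, hDc, hDi⟩ := automorph_structure hd0 hg hν hnu hrel
    by_cases hDr : D = r + 1
    · exfalso
      apply hη
      refine eta_of_automorph hrel (hDi hDr).2 (fun i => ⟨h1 i, h2 i⟩) ?_
      rw [mul_pow, hgV, hexpx, ← Real.exp_nat_mul]
      have h4 : (3 : ℝ) ^ e ≤ V * Real.exp (x / 2) := by
        have h5 : (3 : ℝ) ^ e / V ≤ Real.exp (x / 2) := by linarith
        rw [div_le_iff₀ hV] at h5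
        linarith
      have h5 : Real.exp ((e : ℕ) * (2 * (D₁ * K))) ≤ Real.exp (x / 2) := by
        have := hmul (2 * e) (by omega)
        push_cast at this
        rwa [show (2 : ℝ) * e * (D₁ * K) = e * (2 * (D₁ * K)) by ring] at this
      calc (3 : ℝ) ^ e * Real.exp ((e : ℕ) * (2 * (D₁ * K)))
          ≤ (V * Real.exp (x / 2)) * Real.exp (x / 2) :=
            mul_le_mul h4 h5 (Real.exp_pos _).le (mul_nonneg hV.le (Real.exp_pos _).le)
        _ = _ := by ring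
    · exact hDc.trans (le_div_minFac hd0 hDd hDr)
  have hCY : (C.card : ℝ) ≤ Y * ((K : ℝ) + 1) ^ (m' - 1) := by
    have h1 : (C.card : ℝ) ≤ (m' : ℝ) ^ (r + 1) * (2 * r * K + 1) ^ (m' - 1) := by
      exact_mod_cast hCm m' hCimg
    have h2 : (0 : ℝ) ≤ K := Nat.cast_nonneg _
    have h3 : (0 : ℝ) ≤ r := Nat.cast_nonneg _
    have h4 : (2 * (r : ℝ) * K + 1) ^ (m' - 1) ≤ ((2 * (r : ℝ) + 1) * ((K : ℝ) + 1)) ^ (m' - 1) :=
      pow_le_pow_left₀ (by positivity) (by nlinarith) _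
    calc (C.card : ℝ) ≤ (m' : ℝ) ^ (r + 1) * (2 * r * K + 1) ^ (m' - 1) := h1
      _ ≤ (m' : ℝ) ^ (r + 1) * ((2 * (r : ℝ) + 1) * ((K : ℝ) + 1)) ^ (m' - 1) :=
          mul_le_mul_of_nonneg_left h4 (by positivity)
      _ = Y * ((K : ℝ) + 1) ^ (m' - 1) := by rw [hY, mul_pow]; ring
  have hmain : κ₀ * ((K : ℝ) + 1) ^ (N + r - m') ≤ Y * (E.card : ℝ) ^ N := by
    have hK0 : (0 : ℝ) < (K : ℝ) + 1 := by positivity
    have h1 : ((K : ℝ) + 1) ^ (N + r - 1) =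
        ((K : ℝ) + 1) ^ (N + r - m') * ((K : ℝ) + 1) ^ (m' - 1) := by
      rw [← pow_add]
      congr 1
      omega
    have h2 : κ₀ * ((K : ℝ) + 1) ^ (N + r - m') * ((K : ℝ) + 1) ^ (m' - 1) ≤
        Y * (E.card : ℝ) ^ N * ((K : ℝ) + 1) ^ (m' - 1) := by
      calc κ₀ * ((K : ℝ) + 1) ^ (N + r - m') * ((K : ℝ) + 1) ^ (m' - 1)
          = κ₀ * ((K : ℝ) + 1) ^ (N + r - 1) := by rw [h1]; ring
        _ ≤ C.card * (E.card : ℝ) ^ N := hCE
        _ ≤ (Y * ((K : ℝ) + 1) ^ (m' - 1)) * (E.card : ℝ) ^ N :=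
            mul_le_mul_of_nonneg_right hCY (pow_nonneg (Nat.cast_nonneg _) _)
        _ = _ := by ring
    exact le_of_mul_le_mul_right h2 (pow_pos hK0 _)
  refine ⟨E', fun t ht => ?_, ?_⟩
  · obtain ⟨v, hv, rfl⟩ := Finset.mem_image.1 ht
    obtain ⟨hvT, p, hp, hpb, hpv⟩ := hE v hv
    refine ⟨γ *ᵥ p, ?_, fun i => ?_, ?_, hvT⟩
    · intro h0
      apply hp
      have h3 : (γ)⁻¹ *ᵥ (γ *ᵥ p) = 0 := by rw [h0, mulVec_zero]
      rwa [mulVec_mulVec, Matrix.nonsing_inv_mul _ hγ, one_mulVec] at h3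
    · have h1 : a i * (g *ᵥ iR (γ *ᵥ p)) i = (g' *ᵥ iR p) i := by
        rw [hg', ← mulVec_mulVec, zR_mulVec_iR, ← mulVec_mulVec, mulVec_diagonal]
      rw [h1]
      refine (hpb i).trans ?_
      rw [hexpx]
      exact mul_le_mul (by linarith) hmul1 (Real.exp_pos _).le (Real.exp_pos _).le
    · rw [← hFF, hpv]
  · have h2 : κ₀ * (ε * x) ^ (N + r - m') ≤ κ₀ * ((K : ℝ) + 1) ^ (N + r - m') :=
      mul_le_mul_of_nonneg_left (pow_le_pow_left₀ (mul_nonneg hε0.le hx0) hK2 _) hκ₀.le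
    have h3 : Y * (E.card : ℝ) ^ N ≤ Y * (2 * E'.card : ℝ) ^ N :=
      mul_le_mul_of_nonneg_left (pow_le_pow_left₀ (Nat.cast_nonneg _) hcardR _) hY0.le
    have h4 : κ₀ * (ε * x) ^ (N + r - m') ≤ Y * (2 * E'.card : ℝ) ^ N :=
      h2.trans (hmain.trans h3)
    rw [mul_pow, mul_pow] at h4
    rw [div_mul_eq_mul_div, div_le_iff₀ (by positivity)]
    linarith

end Pool.Agent.N759.FV
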