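import Mathlib
import Pool.Agent.N759.FV.Aut

/-! # The regulator and the number of small values -/

open Filter Topology Matrix H715R2 MeasureTheory Pointwise

namespace Pool.Agent.N759.FV

open Pool.Agent.W777.FV Pool.Agent.N759.UC

variable {d : ℕ}

/-- positive automorphs have determinant one -/
lemma prod_eq_one {g : Matrix (Fin d) (Fin d) ℝ} (hg : g.det ≠ 0) {M : Matrix (Fin d) (Fin d) ℤ}
    (hM : M.det = 1) {c : Fin d → ℝ} (h : g * zR M = diagonal c * g) : ∏ i, c i = 1 := by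
  have h2 := congrArg Matrix.det h
  rw [det_mul, det_mul, det_diagonal, det_zR, hM, Int.cast_one, mul_one] at h2
  have h3 : 1 * g.det = (∏ i, c i) * g.det := by rw [one_mul]; exact h2
  exact (mul_right_cancel₀ hg h3).symm

/-- the first `d - 1` coordinates of the logarithm determine the automorph -/
lemma log_inj (hd : 1 ≤ d) {c c' : Fin d → ℝ} (hc : ∀ i, 0 < c i) (hc' : ∀ i, 0 < c' i)
    (h1 : ∏ i, c i = 1) (h1' : ∏ i, c' i = 1)
    (h : ∀ j : Fin (d - 1), Real.log (c (Fin.castLE (Nat.sub_le d 1) j)) =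
      Real.log (c' (Fin.castLE (Nat.sub_le d 1) j))) : c = c' := by
  obtain ⟨e, rfl⟩ : ∃ e, d = e + 1 := ⟨d - 1, by omega⟩
  have hcast : ∀ j : Fin e, c j.castSucc = c' j.castSucc := by
    intro j
    have h2 := h j
    exact Real.log_injOn_pos (hc _) (hc' _) h2
  funext i
  refine Fin.lastCases ?_ (fun j => hcast j) i
  rw [Fin.prod_univ_castSucc] at h1 h1'
  have h3 : ∏ j : Fin e, c j.castSucc = ∏ j : Fin e, c' j.castSucc :=
    Finset.prod_congr rfl fun j _ => hcast j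
  rw [← h1', h3] at h1
  have h4 : (∏ j : Fin e, c' j.castSucc) ≠ 0 := Finset.prod_ne_zero_iff.2 fun j _ => (hc' _).ne'
  exact mul_left_cancel₀ h4 h1

/-- **The regulator.** -/
theorem regulator (hd : 3 ≤ d) {T κ x₀ : ℝ} (hκ : 0 < κ)
    {g : Matrix (Fin d) (Fin d) ℝ} (hg : g.det ≠ 0)
    (H : ∀ x : ℝ, x₀ ≤ x →
        ∃ (E : Finset ℝ) (A : Finset (Fin d → ℝ)),
          κ * x ^ (d - 1) ≤ A.card * (E.card : ℝ) ^ (d ^ 2 - d) ∧
          (∀ t ∈ E, t < T ∧ ∃ p : Fin d → ℤ, p ≠ 0 ∧ |FF g (iR p)| = t) ∧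
          ∀ c ∈ A, (∀ i, Real.exp (-x) ≤ c i ∧ c i ≤ Real.exp x) ∧
            ∃ M : Matrix (Fin d) (Fin d) ℤ, M.det = 1 ∧ g * zR M = diagonal c * g)
    (Λ : Submodule ℤ (Fin (d - 1) → ℝ)) [DiscreteTopology Λ] [IsZLattice ℝ Λ]
    (hΛ : ∀ c : Fin d → ℝ, (∀ i, 0 < c i) →
      (∃ M : Matrix (Fin d) (Fin d) ℤ, M.det = 1 ∧ g * zR M = diagonal c * g) →
      (fun j : Fin (d - 1) => Real.log (c (Fin.castLE (Nat.sub_le d 1) j))) ∈ Λ) :
    ∃ E : Finset ℝ, (∀ t ∈ E, t < T ∧ ∃ p : Fin d → ℤ, p ≠ 0 ∧ |FF g (iR p)| = t) ∧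
      κ / 2 ^ (d - 1) * ZLattice.covolume Λ ≤ (E.card : ℝ) ^ (d ^ 2 - d) := by
  classical
  have hD : d ^ 2 - d ≠ 0 := by
    have : d * 3 ≤ d ^ 2 := by nlinarith
    omega
  have hcov : 0 < ZLattice.covolume Λ := ZLattice.covolume_pos Λ volume
  set S : Set ℝ := {t | t < T ∧ ∃ p : Fin d → ℤ, p ≠ 0 ∧ |FF g (iR p)| = t} with hS
  by_cases hSf : S.Finite
  swap
  · obtain ⟨n, hn⟩ := exists_nat_ge (κ / 2 ^ (d - 1) * ZLattice.covolume Λ)
    obtain ⟨E, hES, hEn⟩ := (Set.not_finite.1 hSf : S.Infinite).exists_subset_card_eq (n + 1)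
    refine ⟨E, fun t ht => hES ht, ?_⟩
    rw [hEn]
    push_cast
    have h1 : (1 : ℝ) ≤ (n : ℝ) + 1 := by
      have : (0 : ℝ) ≤ n := Nat.cast_nonneg n
      linarith
    have h2 := le_self_pow₀ h1 hD
    linarith
  set E : Finset ℝ := hSf.toFinset with hE
  refine ⟨E, fun t ht => by rw [hE, Set.Finite.mem_toFinset] at ht; exact ht, ?_⟩
  -- counting
  set s : Set (Fin (d - 1) → ℝ) := Metric.closedBall 0 1 with hs
  have hlim := ZLattice.covolume.tendsto_card_div_pow (ι := Fin (d - 1)) Λ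
    (Module.Free.chooseBasis ℤ Λ |>.reindex (Fintype.equivOfCardEq (by
      rw [← Module.finrank_eq_card_chooseBasisIndex, ZLattice.rank ℝ Λ]; simp)))
    (s := s) Metric.isBounded_closedBall Metric.isClosed_closedBall.measurableSet
    ((convex_closedBall 0 1).addHaar_frontier volume)
  have hvol : volume.real s = 2 ^ (d - 1) := by
    rw [hs, measureReal_def, Real.volume_pi_closedBall _ zero_le_one, ENNReal.toReal_ofReal
      (by positivity)]
    simp
  rw [hvol, Fintype.card_fin] at hlim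
  have hpos : (0 : ℝ) < 2 ^ (d - 1) / ZLattice.covolume Λ := by positivity
  have hev := (hlim.eventually (lt_mem_nhds hpos)).and
    ((tendsto_natCast_atTop_atTop (R := ℝ)).eventually_ge_atTop (max x₀ 1))
  have hkey : ∀ᶠ n : ℕ in atTop, κ / (E.card : ℝ) ^ (d ^ 2 - d) ≤
      (Nat.card (s ∩ (n : ℝ)⁻¹ • (Λ : Set (Fin (d - 1) → ℝ)) : Set (Fin (d - 1) → ℝ)) : ℝ) /
        n ^ (d - 1) := by
    filter_upwards [hev] with n hn
    obtain ⟨hn1, hn2⟩ := hn
    have hn0 : (0 : ℝ) < n := lt_of_lt_of_le one_pos ((le_max_right _ _).trans hn2)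
    obtain ⟨En, A, hineq, hEn, hA⟩ := H n ((le_max_left _ _).trans hn2)
    have hEsub : En ⊆ E := by
      intro t ht
      rw [hE, Set.Finite.mem_toFinset]
      exact hEn t ht
    have hEcard : (En.card : ℝ) ≤ E.card := by exact_mod_cast Finset.card_le_card hEsub
    set W : Set (Fin (d - 1) → ℝ) := s ∩ (n : ℝ)⁻¹ • (Λ : Set (Fin (d - 1) → ℝ)) with hW
    have hWf : W.Finite := by
      by_contra hinf
      have h0 : Nat.card W = 0 := by
        have : Infinite W := (Set.not_finite.1 hinf : W.Infinite).to_subtype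
        exact Nat.card_eq_zero_of_infinite
      rw [h0] at hn1
      simp at hn1
    set ψ : (Fin d → ℝ) → (Fin (d - 1) → ℝ) := fun c =>
      (n : ℝ)⁻¹ • fun j : Fin (d - 1) => Real.log (c (Fin.castLE (Nat.sub_le d 1) j)) with hψ
    have hcpos : ∀ c ∈ A, ∀ i, 0 < c i := fun c hc i =>
      (Real.exp_pos _).trans_le ((hA c hc).1 i).1
    have hmaps : ∀ c ∈ A, ψ c ∈ hWf.toFinset := by
      intro c hc
      rw [Set.Finite.mem_toFinset, hW]
      refine ⟨?_, Set.smul_mem_smul_set (hΛ c (hcpos c hc) (hA c hc).2)⟩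
      rw [hs, mem_closedBall_zero_iff, pi_norm_le_iff_of_nonneg zero_le_one]
      intro j
      simp only [hψ, Pi.smul_apply, smul_eq_mul, Real.norm_eq_abs]
      rw [abs_mul, abs_of_pos (inv_pos.2 hn0), inv_mul_le_iff₀ hn0, mul_one, abs_le]
      have h1 := (hA c hc).1 (Fin.castLE (Nat.sub_le d 1) j)
      constructor
      · rw [Real.le_log_iff_exp_le (hcpos c hc _)]
        exact h1.1
      · rw [Real.log_le_iff_le_exp (hcpos c hc _)]
        exact h1.2
    have hinj : Set.InjOn ψ (A : Set (Fin d → ℝ)) := by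
      intro c hc c' hc' heq
      obtain ⟨M, hM, hMr⟩ := (hA c hc).2
      obtain ⟨M', hM', hMr'⟩ := (hA c' hc').2
      refine log_inj (by omega) (hcpos c hc) (hcpos c' hc') (prod_eq_one hg hM hMr)
        (prod_eq_one hg hM' hMr') fun j => ?_
      have h1 := congrFun heq j
      simp only [hψ, Pi.smul_apply, smul_eq_mul] at h1
      exact mul_left_cancel₀ (inv_ne_zero hn0.ne') h1
    have hcardA : (A.card : ℝ) ≤ Nat.card W := by
      have h1 := Finset.card_le_card_of_injOn ψ hmaps hinj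
      have h2 : Nat.card W = hWf.toFinset.card := Nat.card_eq_card_finite_toFinset hWf
      rw [h2]
      exact_mod_cast h1
    have hpowE : (En.card : ℝ) ^ (d ^ 2 - d) ≤ (E.card : ℝ) ^ (d ^ 2 - d) :=
      pow_le_pow_left₀ (Nat.cast_nonneg _) hEcard _
    have h3 : κ * (n : ℝ) ^ (d - 1) ≤ Nat.card W * (E.card : ℝ) ^ (d ^ 2 - d) :=
      hineq.trans (mul_le_mul hcardA hpowE (by positivity) (Nat.cast_nonneg _))
    have hEpos : (0 : ℝ) < (E.card : ℝ) ^ (d ^ 2 - d) := by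
      by_contra hle
      have h4 : (E.card : ℝ) ^ (d ^ 2 - d) = 0 := le_antisymm (not_lt.1 hle) (by positivity)
      rw [h4, mul_zero] at h3
      have : 0 < κ * (n : ℝ) ^ (d - 1) := by positivity
      linarith
    rw [div_le_div_iff₀ hEpos (by positivity)]
    exact h3
  have hfin : κ / (E.card : ℝ) ^ (d ^ 2 - d) ≤ 2 ^ (d - 1) / ZLattice.covolume Λ :=
    ge_of_tendsto hlim hkey
  rcases (by positivity : (0 : ℝ) ≤ (E.card : ℝ) ^ (d ^ 2 - d)).eq_or_lt with h0 | hEpos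
  · -- no values: impossible
    exfalso
    obtain ⟨En, A, hineq, hEn, -⟩ := H (max x₀ 1) (le_max_left _ _)
    have hEsub : En ⊆ E := by
      intro t ht
      rw [hE, Set.Finite.mem_toFinset]
      exact hEn t ht
    have hEcard : (En.card : ℝ) ≤ E.card := by exact_mod_cast Finset.card_le_card hEsub
    have hpowE : (En.card : ℝ) ^ (d ^ 2 - d) ≤ (E.card : ℝ) ^ (d ^ 2 - d) :=
      pow_le_pow_left₀ (Nat.cast_nonneg _) hEcard _
    rw [← h0] at hpowE
    have h5 : (En.card : ℝ) ^ (d ^ 2 - d) = 0 := le_antisymm hpowE (by positivity)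
    rw [h5, mul_zero] at hineq
    have : 0 < κ * (max x₀ 1) ^ (d - 1) := by
      have : 0 < max x₀ 1 := lt_of_lt_of_le one_pos (le_max_right _ _)
      positivity
    linarith
  · rw [div_le_div_iff₀ hEpos hcov] at hfin
    rw [div_mul_eq_mul_div, div_le_iff₀ (by positivity)]
    linarith

end Pool.Agent.N759.FV
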